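import Mathlib

/-!
MP_78d38b_OD (helper26): definitions for the linear algebra over the group algebra `R = F_2[G]`
(paper proof: /team-store/H26_78d38b_A.md, sections 1-3).
-/

set_option autoImplicit false
open scoped Classical

namespace H26OD

/-- The group algebra over the field with two elements. -/
abbrev RG (G : Type) [Group G] : Type := MonoidAlgebra (ZMod 2) G

variable {G : Type} [Group G]

/-- The involution `g ↦ g⁻¹`. -/
noncomputable def st (a : RG G) : RG G :=
  MonoidAlgebra.ofCoeff (Finsupp.equivMapDomain (Equiv.inv G) a.coeff)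

/-- The coefficient of one. -/
def tau (a : RG G) : ZMod 2 := a.coeff 1

/-- The sum of all group elements. -/
noncomputable def NN (G : Type) [Group G] [Finite G] : RG G :=
  letI := Fintype.ofFinite G
  ∑ g : G, MonoidAlgebra.of (ZMod 2) G g

theorem coeff_st (a : RG G) (g : G) : (st a).coeff g = a.coeff g⁻¹ := rfl

theorem st_add (a b : RG G) : st (a + b) = st a + st b := by
  ext g
  rw [MonoidAlgebra.coeff_add, Finsupp.add_apply, coeff_st, coeff_st, coeff_st,
    MonoidAlgebra.coeff_add, Finsupp.add_apply]

theorem st_zero : st (0 : RG G) = 0 := by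
  ext g
  rw [coeff_st]
  rfl

theorem st_sum {ι : Type*} (s : Finset ι) (f : ι → RG G) : st (∑ i ∈ s, f i) = ∑ i ∈ s, st (f i) := by
  induction s using Finset.induction_on with
  | empty => rw [Finset.sum_empty, Finset.sum_empty, st_zero]
  | insert a s ha ih => rw [Finset.sum_insert ha, Finset.sum_insert ha, st_add, ih]

theorem st_st (a : RG G) : st (st a) = a := by
  ext g
  rw [coeff_st, coeff_st, inv_inv]

theorem st_of (g : G) : st (MonoidAlgebra.of (ZMod 2) G g) = MonoidAlgebra.of (ZMod 2) G g⁻¹ := by
  ext h
  rw [coeff_st, MonoidAlgebra.of_apply, MonoidAlgebra.of_apply, MonoidAlgebra.coeff_single,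
    MonoidAlgebra.coeff_single, Finsupp.single_apply, Finsupp.single_apply]
  refine if_congr ?_ rfl rfl
  rw [inv_eq_iff_eq_inv]
  

theorem st_one : st (1 : RG G) = 1 := by
  have h := st_of (G := G) 1
  rw [inv_one, map_one] at h
  exact h

/-- Induction: additive generation by group elements. -/
theorem rg_induction {p : RG G → Prop} (a : RG G) (h0 : p 0)
    (hof : ∀ g : G, p (MonoidAlgebra.of (ZMod 2) G g)) (hadd : ∀ a b, p a → p b → p (a + b)) :
    p a := by
  induction a using MonoidAlgebra.induction_on with
  | of g => exact hof g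
  | add a b ha hb => exact hadd a b ha hb
  | smul r a ha =>
    have hr : r = 0 ∨ r = 1 := by revert r; decide
    rcases hr with rfl | rfl
    · rw [zero_smul]; exact h0
    · rw [one_smul]; exact ha

theorem st_mul (a b : RG G) : st (a * b) = st b * st a := by
  induction a using rg_induction with
  | h0 => rw [zero_mul, st_zero, mul_zero]
  | hadd a c ha hc => rw [add_mul, st_add, ha, hc, st_add, mul_add]
  | hof g =>
    induction b using rg_induction with
    | h0 => rw [mul_zero, st_zero, zero_mul]
    | hadd b c hb hc => rw [mul_add, st_add, hb, hc, st_add, add_mul]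
    | hof h => rw [← map_mul, st_of, st_of, st_of, ← map_mul, mul_inv_rev]

theorem add_self (a : RG G) : a + a = 0 := by
  have h : (2 : ZMod 2) = 0 := rfl
  rw [← two_smul (ZMod 2) a, h, zero_smul]

theorem tau_add (a b : RG G) : tau (a + b) = tau a + tau b := by
  rw [tau, MonoidAlgebra.coeff_add, Finsupp.add_apply]
  rfl

theorem tau_zero : tau (0 : RG G) = 0 := rfl

theorem tau_of (g : G) : tau (MonoidAlgebra.of (ZMod 2) G g) = if g = 1 then 1 else 0 := by
  rw [tau, MonoidAlgebra.of_apply, MonoidAlgebra.coeff_single, Finsupp.single_apply]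

theorem tau_mul_comm (a b : RG G) : tau (a * b) = tau (b * a) := by
  induction a using rg_induction with
  | h0 => rw [zero_mul, mul_zero]
  | hadd a c ha hc => rw [add_mul, tau_add, ha, hc, mul_add, tau_add]
  | hof g =>
    induction b using rg_induction with
    | h0 => rw [zero_mul, mul_zero]
    | hadd b c hb hc => rw [mul_add, tau_add, hb, hc, add_mul, tau_add]
    | hof h =>
      rw [← map_mul, ← map_mul, tau_of, tau_of]
      refine if_congr ?_ rfl rfl
      constructor
      · intro e
        rw [mul_eq_one_iff_eq_inv] at e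
        rw [e, mul_inv_cancel]
      · intro e
        rw [mul_eq_one_iff_eq_inv] at e
        rw [e, mul_inv_cancel]

theorem tau_st (a : RG G) : tau (st a) = tau a := by
  rw [tau, coeff_st, inv_one, tau]

/-- The coefficients. -/
theorem coeff_eq_tau (a : RG G) (g : G) :
    a.coeff g = tau (MonoidAlgebra.of (ZMod 2) G g⁻¹ * a) := by
  induction a using rg_induction with
  | h0 => rw [mul_zero]; rfl
  | hadd a b ha hb => rw [mul_add, tau_add, ← ha, ← hb]; rfl
  | hof h =>
    rw [← map_mul, tau_of, MonoidAlgebra.of_apply, MonoidAlgebra.coeff_single,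
      Finsupp.single_apply]
    refine if_congr ?_ rfl rfl
    rw [inv_mul_eq_one, eq_comm]

theorem eq_zero_of_tau {a : RG G} (h : ∀ x : RG G, tau (x * a) = 0) : a = 0 := by
  ext g
  rw [coeff_eq_tau, h]
  rfl

theorem tau_mul_st (a b : RG G) [Fintype G] :
    tau (a * st b) = ∑ g : G, a.coeff g * b.coeff g := by
  induction a using rg_induction with
  | h0 => rw [zero_mul, tau_zero]; exact (Finset.sum_eq_zero fun g _ => zero_mul _).symm
  | hadd a c ha hc =>
    rw [add_mul, tau_add, ha, hc, ← Finset.sum_add_distrib]
    refine Finset.sum_congr rfl fun g _ => ?_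
    rw [MonoidAlgebra.coeff_add, Finsupp.add_apply, add_mul]
  | hof h =>
    have h1 := coeff_eq_tau (st b) h⁻¹
    rw [inv_inv, coeff_st, inv_inv] at h1
    rw [← h1, Finset.sum_eq_single h]
    · rw [MonoidAlgebra.of_apply, MonoidAlgebra.coeff_single, Finsupp.single_apply, if_pos rfl,
        one_mul]
    · intro g _ hg
      rw [MonoidAlgebra.of_apply, MonoidAlgebra.coeff_single, Finsupp.single_apply,
        if_neg (Ne.symm hg), zero_mul]
    · intro h2
      exact absurd (Finset.mem_univ _) h2

theorem coeff_NN [Finite G] (g : G) : (NN G).coeff g = 1 := by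
  let _ := Fintype.ofFinite G
  rw [NN, MonoidAlgebra.coeff_sum, Finsupp.finsetSum_apply, Finset.sum_eq_single g]
  · rw [MonoidAlgebra.of_apply, MonoidAlgebra.coeff_single, Finsupp.single_apply, if_pos rfl]
  · intro h _ hg
    rw [MonoidAlgebra.of_apply, MonoidAlgebra.coeff_single, Finsupp.single_apply, if_neg hg]
  · intro h2
    exact absurd (Finset.mem_univ _) h2

theorem of_mul_NN [Finite G] (g : G) : MonoidAlgebra.of (ZMod 2) G g * NN G = NN G := by
  let _ := Fintype.ofFinite G
  ext h
  rw [coeff_eq_tau, ← mul_assoc, ← map_mul]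
  have h1 := coeff_eq_tau (NN G) (g⁻¹ * h)
  rw [mul_inv_rev, inv_inv] at h1
  rw [← h1, coeff_NN, coeff_NN]

theorem NN_mul_of [Finite G] (g : G) : NN G * MonoidAlgebra.of (ZMod 2) G g = NN G := by
  let _ := Fintype.ofFinite G
  ext h
  rw [coeff_eq_tau, ← mul_assoc, tau_mul_comm, ← mul_assoc, ← map_mul]
  have h1 := coeff_eq_tau (NN G) (g * h⁻¹)⁻¹
  rw [inv_inv] at h1
  rw [← h1, coeff_NN, coeff_NN]

theorem NN_comm [Finite G] (a : RG G) : NN G * a = a * NN G := by
  induction a using rg_induction with
  | h0 => rw [mul_zero, zero_mul]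
  | hadd a b ha hb => rw [mul_add, ha, hb, add_mul]
  | hof g => rw [NN_mul_of, of_mul_NN]

theorem st_NN [Finite G] : st (NN G) = NN G := by
  ext g
  rw [coeff_st, coeff_NN, coeff_NN]

/-- The dual module. -/
def DuR (V : Type) [AddCommGroup V] : Type := V →+ ZMod 2

noncomputable instance (V : Type) [AddCommGroup V] : AddCommGroup (DuR V) :=
  inferInstanceAs (AddCommGroup (V →+ ZMod 2))

instance (V : Type) [AddCommGroup V] : FunLike (DuR V) V (ZMod 2) :=
  inferInstanceAs (FunLike (V →+ ZMod 2) V (ZMod 2))

instance (V : Type) [AddCommGroup V] : AddMonoidHomClass (DuR V) V (ZMod 2) :=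
  inferInstanceAs (AddMonoidHomClass (V →+ ZMod 2) V (ZMod 2))

instance (V : Type) [AddCommGroup V] [Finite V] : Finite (DuR V) :=
  Finite.of_injective (fun f : DuR V => (f : V → ZMod 2)) DFunLike.coe_injective

/-- The action on the dual module: `(a φ) x = φ (a* x)`. -/
noncomputable instance (V : Type) [AddCommGroup V] [Module (RG G) V] : Module (RG G) (DuR V) where
  smul a φ := (AddMonoidHom.comp (φ : V →+ ZMod 2)
    (DistribSMul.toAddMonoidHom V (st a) : V →+ V) : V →+ ZMod 2)
  one_smul φ := by
    apply DFunLike.ext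
    intro x
    change φ (st (1 : RG G) • x) = φ x
    rw [st_one, one_smul]
  mul_smul a b φ := by
    apply DFunLike.ext
    intro x
    change φ (st (a * b) • x) = φ (st b • (st a • x))
    rw [st_mul, mul_smul]
  smul_zero a := by
    apply DFunLike.ext
    intro x
    rfl
  smul_add a φ ψ := by
    apply DFunLike.ext
    intro x
    rfl
  add_smul a b φ := by
    apply DFunLike.ext
    intro x
    change φ (st (a + b) • x) = φ (st a • x) + φ (st b • x)
    rw [st_add, add_smul, map_add]
  zero_smul φ := by
    apply DFunLike.ext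
    intro x
    change φ (st (0 : RG G) • x) = 0
    rw [st_zero, zero_smul, map_zero]

theorem DuR_smul (V : Type) [AddCommGroup V] [Module (RG G) V] (a : RG G) (φ : DuR V) (x : V) :
    (a • φ) x = φ (st a • x) := rfl

end H26OD
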