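import Pool.Agent.H24.TD.Bas

/-!
MP_78d38b_OD (helper26): the system of functionals, group version (definitions).
-/

set_option autoImplicit false
open scoped Classical

namespace H26OD

/-- The dual group with the contragredient action. -/
def Du (M : Type) [AddCommGroup M] : Type := M →+ ZMod 2

noncomputable instance (V : Type) [AddCommGroup V] : AddCommGroup (Du V) :=
  inferInstanceAs (AddCommGroup (V →+ ZMod 2))

instance (V : Type) [AddCommGroup V] : FunLike (Du V) V (ZMod 2) :=
  inferInstanceAs (FunLike (V →+ ZMod 2) V (ZMod 2))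

instance (V : Type) [AddCommGroup V] : AddMonoidHomClass (Du V) V (ZMod 2) :=
  inferInstanceAs (AddMonoidHomClass (V →+ ZMod 2) V (ZMod 2))

instance (V : Type) [AddCommGroup V] [Finite V] : Finite (Du V) :=
  Finite.of_injective (fun f : Du V => (f : V → ZMod 2)) DFunLike.coe_injective

/-- The action on the dual group: `(g φ) x = φ (g⁻¹ x)`. -/
noncomputable instance (G V : Type) [Group G] [AddCommGroup V] [DistribMulAction G V] :
    DistribMulAction G (Du V) where
  smul g φ := (AddMonoidHom.comp (φ : V →+ ZMod 2)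
    (DistribSMul.toAddMonoidHom V g⁻¹ : V →+ V) : V →+ ZMod 2)
  one_smul φ := by
    apply DFunLike.ext
    intro x
    change φ ((1 : G)⁻¹ • x) = φ x
    rw [inv_one, one_smul]
  mul_smul a b φ := by
    apply DFunLike.ext
    intro x
    change φ ((a * b)⁻¹ • x) = φ (b⁻¹ • (a⁻¹ • x))
    rw [mul_inv_rev, mul_smul]
  smul_zero a := by
    apply DFunLike.ext
    intro x
    rfl
  smul_add a φ ψ := by
    apply DFunLike.ext
    intro x
    rfl

theorem Du_smul {G V : Type} [Group G] [AddCommGroup V] [DistribMulAction G V] (g : G) (φ : Du V)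
    (x : V) : (g • φ) x = φ (g⁻¹ • x) := rfl

variable (G X Q : Type) [Group G] [AddCommGroup X] [DistribMulAction G X]

/-- Two families of functionals with a reciprocity law. -/
structure Sys where
  u : Q → X →+ ZMod 2
  r : Q → X →+ ZMod 2
  fin : ∀ x, {q | ∃ g : G, u q (g • x) ≠ 0}.Finite
  recip : ∀ x y, ∑ᶠ q, ∑ᶠ g : G, (u q (g • x) * r q (g • y) + r q (g • x) * u q (g • y)) = 0

variable {G X Q}

namespace Sys

/-- The elements which are unramified outside `T`. -/
def Y (S : Sys G X Q) (T : Finset Q) : AddSubgroup X where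
  carrier := {x | ∀ q, q ∉ T → ∀ g : G, S.u q (g • x) = 0}
  zero_mem' := fun q _ g => by rw [smul_zero, map_zero]
  add_mem' := fun {x y} hx hy q hq g => by rw [smul_add, map_add, hx q hq g, hy q hq g, add_zero]
  neg_mem' := fun {x} hx q hq g => by rw [smul_neg, map_neg, hx q hq g, neg_zero]

theorem mem_Y {S : Sys G X Q} {T : Finset Q} {x : X} :
    x ∈ S.Y T ↔ ∀ q, q ∉ T → ∀ g : G, S.u q (g • x) = 0 := Iff.rfl

/-- The properties of the system. -/
structure Ok [Finite G] (S : Sys G X Q) : Prop where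
  odd : Odd (Nat.card G)
  two : ∀ x : X, x + x = 0
  finY : ∀ T : Finset Q, Finite (S.Y T)
  card : ∀ T : Finset Q, 2 ^ (Nat.card G * T.card) ≤ Nat.card (S.Y T)
  cheb : ∀ (T A : Finset Q) (φ : X →+ ZMod 2), ∃ q, q ∉ T ∧ q ∉ A ∧ ∀ y ∈ S.Y T, S.r q y = φ y
  sd : ∀ T : Finset Q, Nat.card (S.Y T) = 2 ^ (Nat.card G * T.card) →
    ∀ (M : Type) [AddCommGroup M] [DistribMulAction G M] [Finite M], (∀ m : M, m + m = 0) →
      H24TD.hq G M (S.Y T) ⊥ = H24TD.hq G (Du M) (S.Y T) ⊥

end Sys

end H26OD
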