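import Pool.Agent.H26.OD.A10
import Pool.Agent.H26.OD.Sg
import Pool.Agent.H24.TD.Sim

/-!
ROW A11 (MP_78d38b_OD, about 220 lines): the main theorem of the linear algebra, group version. Use the statement of A10 (main_R).

PROOF. Make `X` a module over `RG G` (see Pool/Agent/H24/TD/Sim.lean: `Sim_rep`, `Sim_mod`, `Sim_equiv`; `X` is a `ZMod 2`-module by `two`, `AddCommGroup.zmodModule`), `of g • x = g • x`.
For `l : X →+ ZMod 2` let `lR l : X →ₗ[RG G] RG G`, `lR l x = ∑ g, single g (l (g⁻¹ • x))`, `(lR l x).coeff g = l (g⁻¹ • x)`. `SR : SysR G X Q` with `u q := lR (S.u q)`, `r q := lR (S.r q)`. `fin`: `lR l x ≠ 0` iff some `l (g • x) ≠ 0`.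
`recip`: by `eq_zero_of_tau` (or coefficients; `(x * a)`: replace `a` by ...) it suffices that `tau (c * ∑ᶠ q (...)) = 0` for all `c`, by additivity `c = of h`; move `of h` inside (`of h * u q x = u q (of h • x)`): it suffices that `tau (∑ᶠ q (u q x * st (r q y) + r q x * st (u q y))) = 0` for all `x y`; `tau` of a finsum = finsum of `tau`
(finite support), `tau (u q x * st (r q y)) = ∑ g, S.u q (g⁻¹ • x) * S.r q (g⁻¹ • y)` (`tau_mul_st`), reindex.
`SR.Y T` and `S.Y T` have the same elements. `card`: `Nat.card (RG G) = 2 ^ Nat.card G` (`MonoidAlgebra` ≃ `G →₀ ZMod 2` ≃ `G → ZMod 2`). `cheb`: `φ : X →ₗ RG G`, apply `S.cheb` to `x ↦ tau (φ x)` (coefficient of one): `S.r q y = tau (φ y)` on `Y T`, so `(r q y).coeff g = S.r q (g⁻¹ • y) = tau (φ (of g⁻¹ • y)) = tau (of g⁻¹ * φ y) = (φ y).coeff g` (`coeff_eq_tau`).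
`sd`: an `RG G`-module `M` gives a `DistribMulAction G M` (`g • m := of g • m`; `m + m = 0`), `M →ₗ[RG G] SR.Y T` is in bijection with `{f : M →+ X // (∀ m, f m ∈ S.Y T) ∧ ∀ g m, f (g • m) = g • f m}`, whose cardinality is `hq G M (S.Y T) ⊥` (`H24TD.hq_std`); `DuR M` corresponds to `Du M`
(`st (of g) = of g⁻¹`), the actions agree. `h0`: `NN G • x = ∑ g • x` is fixed by `G` and in `Y ∅` , so zero. Conclusion: translate `Sel = ⊥`.
-/

set_option autoImplicit false
open scoped Classical

namespace H26OD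

/-- Coefficients of a product with a group element. -/
theorem A11_coeff_of_mul {G : Type} [Group G] (h g : G) (a : RG G) :
    (MonoidAlgebra.of (ZMod 2) G h * a).coeff g = a.coeff (h⁻¹ * g) := by
  rw [coeff_eq_tau, ← mul_assoc, ← map_mul, coeff_eq_tau a, mul_inv_rev, inv_inv]

section

variable {G X : Type} [Group G] [AddCommGroup X] [DistribMulAction G X]
  [Module (RG G) X]

/-- The linear functional given by a homomorphism. -/
noncomputable def A11_lR [Finite G] (hof : ∀ (g : G) (x : X), MonoidAlgebra.of (ZMod 2) G g • x = g • x)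
    (l : X →+ ZMod 2) : X →ₗ[RG G] RG G where
  toFun x := MonoidAlgebra.ofCoeff (Finsupp.equivFunOnFinite.symm (fun g : G => l (g⁻¹ • x)))
  map_add' x y := by
    ext g
    change l (g⁻¹ • (x + y)) = l (g⁻¹ • x) + l (g⁻¹ • y)
    rw [smul_add, map_add]
  map_smul' a x := by
    rw [RingHom.id_apply]
    induction a using rg_induction generalizing x with
    | h0 =>
      ext g
      change l (g⁻¹ • ((0 : RG G) • x)) = _
      rw [zero_smul, smul_zero, map_zero, zero_smul]
      rfl
    | hof h =>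
      ext g
      rw [smul_eq_mul, A11_coeff_of_mul, hof]
      change l (g⁻¹ • (h • x)) = l ((h⁻¹ * g)⁻¹ • x)
      rw [mul_inv_rev, inv_inv, mul_smul]
    | hadd a b ha hb =>
      rw [add_smul, add_smul, ← ha, ← hb]
      ext g
      change l (g⁻¹ • (a • x + b • x)) = l (g⁻¹ • (a • x)) + l (g⁻¹ • (b • x))
      rw [smul_add, map_add]

variable [Finite G] (hof : ∀ (g : G) (x : X), MonoidAlgebra.of (ZMod 2) G g • x = g • x)

theorem A11_coeff_lR (l : X →+ ZMod 2) (x : X) (g : G) : (A11_lR hof l x).coeff g = l (g⁻¹ • x) := rfl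

theorem A11_lR_eq_zero (l : X →+ ZMod 2) (x : X) : A11_lR hof l x = 0 ↔ ∀ g : G, l (g • x) = 0 := by
  constructor
  · intro h g
    have h1 := A11_coeff_lR hof l x g⁻¹
    rw [h, inv_inv] at h1
    exact h1.symm
  · intro h
    ext g
    rw [A11_coeff_lR, h]
    rfl

theorem A11_of_mul_lR (l : X →+ ZMod 2) (h : G) (x : X) :
    MonoidAlgebra.of (ZMod 2) G h * A11_lR hof l x = A11_lR hof l (h • x) := by
  rw [← smul_eq_mul, ← map_smul, hof]

theorem A11_tau_mul (l m : X →+ ZMod 2) (x y : X) :
    tau (A11_lR hof l x * st (A11_lR hof m y)) = ∑ᶠ g : G, l (g • x) * m (g • y) := by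
  let _ := Fintype.ofFinite G
  rw [tau_mul_st, finsum_eq_sum_of_fintype]
  refine Fintype.sum_equiv (Equiv.inv G) _ _ fun g => ?_
  rw [A11_coeff_lR, A11_coeff_lR]
  rfl

/-- Left multiplication followed by `tau`. -/
noncomputable def A11_tl (c : RG G) : RG G →+ ZMod 2 where
  toFun a := tau (c * a)
  map_zero' := by rw [mul_zero]; exact tau_zero
  map_add' a b := by rw [mul_add, tau_add]

variable {Q : Type}

/-- The system of functionals over the group algebra. -/
noncomputable def A11_SR (S : Sys G X Q) : SysR G X Q where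
  u q := A11_lR hof (S.u q)
  r q := A11_lR hof (S.r q)
  fin x := by
    refine (S.fin x).subset fun q hq => ?_
    by_contra h
    refine hq ((A11_lR_eq_zero hof _ x).2 fun g => ?_)
    by_contra h2
    exact h ⟨g, h2⟩
  recip x y := by
    have hu : ∀ z : X, {q | A11_lR hof (S.u q) z ≠ 0}.Finite := by
      intro z
      refine (S.fin z).subset fun q hq => ?_
      by_contra h
      refine hq ((A11_lR_eq_zero hof _ z).2 fun g => ?_)
      by_contra h2
      exact h ⟨g, h2⟩
    have hsupp : (Function.support fun q => A11_lR hof (S.u q) x * st (A11_lR hof (S.r q) y) +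
        A11_lR hof (S.r q) x * st (A11_lR hof (S.u q) y)).Finite := by
      refine ((hu x).union (hu y)).subset fun q hq => ?_
      by_contra h
      rw [Set.mem_union, not_or] at h
      have h1 : A11_lR hof (S.u q) x = 0 := not_not.1 h.1
      have h2 : A11_lR hof (S.u q) y = 0 := not_not.1 h.2
      refine hq ?_
      change A11_lR hof (S.u q) x * st (A11_lR hof (S.r q) y) +
        A11_lR hof (S.r q) x * st (A11_lR hof (S.u q) y) = 0
      rw [h1, h2, zero_mul, st_zero, mul_zero, add_zero]
    ext g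
    rw [coeff_eq_tau]
    have h1 := (A11_tl (MonoidAlgebra.of (ZMod 2) G g⁻¹)).map_finsum hsupp
    refine Eq.trans h1 ?_
    refine Eq.trans (finsum_congr fun q => ?_) (S.recip (g⁻¹ • x) y)
    change tau (MonoidAlgebra.of (ZMod 2) G g⁻¹ * (A11_lR hof (S.u q) x * st (A11_lR hof (S.r q) y) +
        A11_lR hof (S.r q) x * st (A11_lR hof (S.u q) y))) = _
    rw [mul_add, ← mul_assoc, ← mul_assoc, A11_of_mul_lR, A11_of_mul_lR, tau_add, A11_tau_mul, A11_tau_mul,
      finsum_add_distrib (Set.toFinite _) (Set.toFinite _)]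

theorem A11_mem_Y (S : Sys G X Q) (T : Finset Q) (x : X) : x ∈ (A11_SR hof S).Y T ↔ x ∈ S.Y T :=
  forall_congr' fun q => forall_congr' fun _ => A11_lR_eq_zero hof (S.u q) x

/-- Linear maps to `Y T` are the equivariant maps. -/
theorem A11_card_hom (S : Sys G X Q) (T : Finset Q) (M : Type) [AddCommGroup M] [DistribMulAction G M]
    [Module (RG G) M] (hM : ∀ (g : G) (m : M), MonoidAlgebra.of (ZMod 2) G g • m = g • m) :
    Nat.card (M →ₗ[RG G] (A11_SR hof S).Y T) = H24TD.hq G M (S.Y T) ⊥ := by
  rw [H24TD.hq_std]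
  refine Nat.card_congr
    { toFun := fun f => ⟨((A11_SR hof S).Y T).subtype.toAddMonoidHom.comp f.toAddMonoidHom, ?_, ?_⟩
      invFun := fun φ =>
        { toFun := fun m => ⟨φ.1 m, (A11_mem_Y hof S T _).2 (φ.2.1 m)⟩
          map_add' := fun a b => Subtype.ext (map_add φ.1 a b)
          map_smul' := fun a m => ?_ }
      left_inv := fun f => ?_
      right_inv := fun φ => ?_ }
  · intro m
    exact (A11_mem_Y hof S T _).1 (f m).2
  · intro g m
    change ((f (g • m) : (A11_SR hof S).Y T) : X) = g • ((f m : (A11_SR hof S).Y T) : X)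
    rw [← hM, map_smul, ← hof]
    rfl
  · rw [RingHom.id_apply]
    refine Subtype.ext ?_
    change φ.1 (a • m) = a • φ.1 m
    induction a using rg_induction with
    | h0 => rw [zero_smul, zero_smul, map_zero]
    | hof g => rw [hM, hof, φ.2.2]
    | hadd a b ha hb => rw [add_smul, add_smul, map_add, ha, hb]
  · rfl
  · rfl

end

theorem A11_card_RG (G : Type) [Group G] [Finite G] : Nat.card (RG G) = 2 ^ Nat.card G := by
  have e : RG G ≃ (G → ZMod 2) :=
    { toFun := fun a g => a.coeff g
      invFun := fun f => MonoidAlgebra.ofCoeff (Finsupp.equivFunOnFinite.symm f)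
      left_inv := fun a => by
        ext g
        rfl
      right_inv := fun f => rfl }
  rw [Nat.card_congr e, Nat.card_fun, Nat.card_zmod]

theorem main {G X Q : Type} [Group G] [Finite G] [AddCommGroup X] [DistribMulAction G X]
    {S : Sys G X Q} (hS : S.Ok) {C : Type} [Finite C] (κ : Q → C)
    (h0 : ∀ x ∈ S.Y ∅, (∀ g : G, g • x = x) → x = 0) (A : Finset Q) :
    ∃ l : List (Q × Q), l ≠ [] ∧ (∀ e ∈ l, κ e.1 = κ e.2) ∧
      (l.map Prod.fst ++ l.map Prod.snd).Nodup ∧ (∀ q ∈ prs l, q ∉ A) ∧
      ∀ x : X, (∀ q, q ∉ prs l → ∀ g : G, S.u q (g • x) = 0) →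
        (∀ q ∈ prs l, ∀ g : G, S.r q (g • x) = 0) → x = 0 := by
  let i2 : Module (ZMod 2) X := AddCommGroup.zmodModule (fun x => by rw [two_nsmul]; exact hS.two x)
  let iX : Module (RG G) X := H24TD.Sim_mod G X
  have hof : ∀ (g : G) (x : X), MonoidAlgebra.of (ZMod 2) G g • x = g • x := by
    intro g x
    change (MonoidAlgebra.lift (ZMod 2) (Module.End (ZMod 2) X) G (H24TD.Sim_rep G X))
      (MonoidAlgebra.of (ZMod 2) G g) x = g • x
    rw [MonoidAlgebra.lift_of]
    rfl
  have hcardY : ∀ T : Finset Q, Nat.card ((A11_SR hof S).Y T) = Nat.card (S.Y T) := fun T =>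
    Nat.card_congr (Equiv.subtypeEquivRight fun x => A11_mem_Y hof S T x)
  have hR : (A11_SR hof S).Ok :=
    { odd := hS.odd
      finY := fun T => by
        have h1 := hS.finY T
        exact Finite.of_equiv _ (Equiv.subtypeEquivRight fun x => (A11_mem_Y hof S T x).symm)
      card := fun T => by
        rw [hcardY, A11_card_RG, ← pow_mul]
        exact hS.card T
      cheb := fun T A φ => by
        obtain ⟨q, hqT, hqA, hq⟩ := hS.cheb T A ((A11_tl (1 : RG G)).comp φ.toAddMonoidHom)
        refine ⟨q, hqT, hqA, fun y hy => ?_⟩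
        ext g
        change S.r q (g⁻¹ • y) = _
        have hy2 : g⁻¹ • y ∈ S.Y T := by
          rw [← A11_mem_Y hof, ← hof]
          exact Submodule.smul_mem _ _ hy
        rw [hq _ hy2, coeff_eq_tau, ← smul_eq_mul, ← map_smul, hof]
        change tau (1 * φ (g⁻¹ • y)) = _
        rw [one_mul]
      sd := fun T hT M _ _ _ => by
        let aM : DistribMulAction G M := DistribMulAction.compHom M (MonoidAlgebra.of (ZMod 2) G)
        have hM : ∀ (g : G) (m : M), MonoidAlgebra.of (ZMod 2) G g • m = g • m := fun g m => rfl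
        let iD : Module (RG G) (Du M) := (inferInstance : Module (RG G) (DuR M))
        have hD : ∀ (g : G) (φ : Du M), MonoidAlgebra.of (ZMod 2) G g • φ = g • φ := by
          intro g φ
          apply DFunLike.ext
          intro m
          rw [Du_smul]
          change φ (st (MonoidAlgebra.of (ZMod 2) G g) • m) = _
          rw [st_of]
          rfl
        have h1 := A11_card_hom hof S T M hM
        have h2 := A11_card_hom hof S T (Du M) hD
        rw [h1]
        rw [hcardY, A11_card_RG, ← pow_mul] at hT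
        rw [hS.sd T hT M (fun m => ?_), ← h2]
        · rfl
        · rw [← one_smul (RG G) m, ← add_smul, add_self, zero_smul] }
  have h0R : ∀ x ∈ (A11_SR hof S).Y ∅, NN G • x = 0 := by
    intro x hx
    refine h0 _ ((A11_mem_Y hof S ∅ _).1 (Submodule.smul_mem _ _ hx)) fun g => ?_
    rw [← hof, ← mul_smul, of_mul_NN]
  obtain ⟨l, hl, hκ, hnd, hA, hSel⟩ := main_R hR κ h0R A
  refine ⟨l, hl, hκ, hnd, hA, fun x hu hr => ?_⟩
  have hx : x ∈ (A11_SR hof S).Sel (prs l) :=
    ⟨fun q hq => (A11_lR_eq_zero hof _ x).2 (hu q hq), fun q hq => (A11_lR_eq_zero hof _ x).2 (hr q hq)⟩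
  rw [hSel] at hx
  exact hx

end H26OD
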