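import Pool.Agent.H88.OD.Df

/-!
ROW Rr (MP_78d38b_OD, helper26, about 100 lines): products of the elements `α` of the pairs.  Elementary.

PROOF. Induction on the list `l` with the stronger conclusion. `δ := (l.map z).prod` where `z e` is the element of `hray`. Orders: `ord v (x y) = ord v x + ord v y` for `x, y ≠ 0` (`ord_mul` or similar in H38RT), valuation multiplicative. For the cons `e :: l`: `δ' = z e * δ`.
At a prime `u` which is not among `e.1.q, e.2.q` and not among the primes of `l`: both are units. At `u = e.1.q`: `ord = 1` for `z e`, `δ` is a unit there because `e.1.q` is different from all primes of `l` (hinj and Nodup); `u = e.2.q`: `ord = -1`. At the primes of `l`: `z e` is a unit, so the order is that of `δ`, odd by induction. Squares in completions: `IsSquare.mul`; positivity: product.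
`(l.map Prod.fst ++ l.map Prod.snd).Nodup`: for `e :: l` gives `e.1 ∉ ...`, `e.1 ≠ e.2`, and Nodup for `l` (List.nodup_append, List.nodup_cons; `List.Perm` with `prs`: not needed).
Here `tt l := (l.map Prod.fst ++ l.map Prod.snd).toFinset`.
-/

set_option autoImplicit false
set_option linter.unusedSectionVars false
open scoped Classical

open WithZero NumberField IsDedekindDomain H38RT
open H38T1 (SC sc scu rep eo la si OddP)
open H76PP (Cub LC ev scm dn)
open H88OD

namespace H26OD

theorem Rr_ord0 {K : Type} [Field K] {V : Valuation K (WithZero (Multiplicative ℤ))} {x : K}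
    (h : V x = 1) : ord V x = 0 := by
  unfold ord
  rw [h, log_one, neg_zero]

theorem Rr_ordm {K : Type} [Field K] {V : Valuation K (WithZero (Multiplicative ℤ))} {x y : K}
    (hx : x ≠ 0) (hy : y ≠ 0) : ord V (x * y) = ord V x + ord V y := by
  unfold ord
  rw [map_mul, log_mul ((Valuation.ne_zero_iff V).2 hx) ((Valuation.ne_zero_iff V).2 hy)]
  ring

theorem exists_prod {M ι : Type} [Field M] [NumberField M] (S : Set (HeightOneSpectrum (𝓞 M)))
    (q : ι → HeightOneSpectrum (𝓞 M)) (hq : Function.Injective q) (l : List (ι × ι))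
    (hn : (l.map Prod.fst ++ l.map Prod.snd).Nodup)
    (hray : ∀ e ∈ l, e.1 ≠ e.2 → ∃ z : M, Ray M S (q e.1) (q e.2) z) :
    ∃ δ : M, δ ≠ 0 ∧ (∀ u ∈ S, IsSquare (algebraMap M (u.adicCompletion M) δ)) ∧
      (∀ s : M →+* ℝ, 0 < s δ) ∧
      (∀ u, (∀ e ∈ l, u ≠ q e.1 ∧ u ≠ q e.2) → u.valuation M δ = 1) ∧
      ∀ e ∈ l, Odd (ord ((q e.1).valuation M) δ) ∧ Odd (ord ((q e.2).valuation M) δ) := by
  induction l with
  | nil =>
    refine ⟨1, one_ne_zero, fun u _ => ?_, fun s => ?_, fun u _ => map_one _, fun e he => ?_⟩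
    · rw [map_one]
      exact ⟨1, (one_mul 1).symm⟩
    · rw [map_one]
      exact one_pos
    · exact absurd he List.not_mem_nil
  | cons e l ih =>
    rw [List.map_cons, List.map_cons, List.nodup_append] at hn
    obtain ⟨h1, h2, h3⟩ := hn
    rw [List.nodup_cons] at h1 h2
    have hn' : (l.map Prod.fst ++ l.map Prod.snd).Nodup := by
      rw [List.nodup_append]
      exact ⟨h1.2, h2.2, fun a ha b hb => h3 a (List.mem_cons_of_mem _ ha) b
        (List.mem_cons_of_mem _ hb)⟩
    have he12 : e.1 ≠ e.2 := h3 _ List.mem_cons_self _ List.mem_cons_self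
    have k11 : ∀ e' ∈ l, e.1 ≠ e'.1 := fun e' he' hh =>
      h1.1 (by rw [hh]; exact List.mem_map_of_mem he')
    have k22 : ∀ e' ∈ l, e.2 ≠ e'.2 := fun e' he' hh =>
      h2.1 (by rw [hh]; exact List.mem_map_of_mem he')
    have k12 : ∀ e' ∈ l, e.1 ≠ e'.2 := fun e' he' =>
      h3 _ List.mem_cons_self _ (List.mem_cons_of_mem _ (List.mem_map_of_mem he'))
    have k21 : ∀ e' ∈ l, e.2 ≠ e'.1 := fun e' he' =>
      (h3 _ (List.mem_cons_of_mem _ (List.mem_map_of_mem he')) _ List.mem_cons_self).symm
    obtain ⟨δ, d0, d1, d2, d3, d4⟩ := ih hn' (fun e' he' => hray e' (List.mem_cons_of_mem _ he'))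
    obtain ⟨z, hz⟩ := hray e List.mem_cons_self he12
    refine ⟨z * δ, mul_ne_zero hz.ne d0, fun u hu => ?_, fun s => ?_, fun u hu => ?_,
      fun e' he' => ?_⟩
    · rw [map_mul]
      exact (hz.sq u hu).mul (d1 u hu)
    · rw [map_mul]
      exact mul_pos (hz.pos s) (d2 s)
    · rw [map_mul, d3 u (fun e' he' => hu e' (List.mem_cons_of_mem _ he')),
        hz.out u (hu e List.mem_cons_self).1 (hu e List.mem_cons_self).2, one_mul]
    · rcases List.mem_cons.1 he' with rfl | he'
      · have v1 : (q e'.1).valuation M δ = 1 :=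
          d3 _ (fun e'' he'' => ⟨fun hh => k11 e'' he'' (hq hh), fun hh => k12 e'' he'' (hq hh)⟩)
        have v2 : (q e'.2).valuation M δ = 1 :=
          d3 _ (fun e'' he'' => ⟨fun hh => k21 e'' he'' (hq hh), fun hh => k22 e'' he'' (hq hh)⟩)
        constructor
        · rw [Rr_ordm hz.ne d0, hz.o1, Rr_ord0 v1]
          decide
        · rw [Rr_ordm hz.ne d0, hz.o2, Rr_ord0 v2]
          decide
      · have v1 : (q e'.1).valuation M z = 1 :=
          hz.out _ (fun hh => k11 e' he' (hq hh).symm) (fun hh => k21 e' he' (hq hh).symm)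
        have v2 : (q e'.2).valuation M z = 1 :=
          hz.out _ (fun hh => k12 e' he' (hq hh).symm) (fun hh => k22 e' he' (hq hh).symm)
        constructor
        · rw [Rr_ordm hz.ne d0, Rr_ord0 v1, zero_add]
          exact (d4 e' he').1
        · rw [Rr_ordm hz.ne d0, Rr_ord0 v2, zero_add]
          exact (d4 e' he').2

end H26OD
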