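import Pool.Agent.H26.OD.Ri
import Pool.Agent.H88.OD.Gc
import Pool.Agent.H76.PP.Ta
import Pool.Agent.H76.PP.Tf

/-!
ROW Ka (MP_78d38b_OD, helper26, about 120 lines): two elementary facts.

Zs_down: `K ⊆ F ⊆ N`, `N / K` and `F / K` Galois: a prime of `K` with trivial decomposition groups in `N` has trivial decomposition groups in `F`. Let `W'` be a place of `F` above `q`, `gq g • W' = W'`, `g : F ≃ₐ[K] F`. Take a place `W` of `N` above `W'` (`H30ZO.exists_above`, `H36..exists_above`: places above exist; `dn F W = W'`),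
and an extension `s : N ≃ₐ[K] N` of `g` (`AlgEquiv.restrictNormalHom_surjective`: `s (algebraMap F N x) = algebraMap F N (g x)` by `AlgEquiv.restrictNormal_commutes`). `dn F (gq s • W) = gq g • dn F W = W'` (as in `dn_smul` of Pool/Agent/H88/OD/Ga.lean: compare ideals). `N / F` is Galois: by `Gc_trans` (Pool/Agent/H88/OD/Gc.lean, for `N / F`) there is
`h : N ≃ₐ[F] N` with `W = gq h • gq s • W` (places `W` and `gq s • W` of `N` above the same place of `F`). With `h' := h.restrictScalars K`: `gq (h' * s) • W = W`, so `h' * s = 1` by `hq`, `s = h'⁻¹` fixes `F` pointwise, so `g x = x` for all `x`, `g = 1`.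
val_NR: `t : K` integral at `q`: there is `t₀ : 𝓞 K` with `q.valuation K (t - t₀) < 1` (approximation: `HeightOneSpectrum` lemmas: `exists_adicValued_mul_sub_le`, or `t = x / y` with `y ∉ q`, `y y' ≡ 1` mod `q`; there is such a lemma in the library: `H76PP`/`H36MT`/`H30MQ` `exists_res`, `exists_int_near`), then
`q.valuation K (t³ + a t + b - (t₀³ + a t₀ + b)) < 1` and `q.valuation K (t₀³ + a t₀ + b) = 1` as `t₀³ + a t₀ + b ∉ q` (`valuation_eq_one_iff_notMem`).
-/

set_option autoImplicit false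
set_option linter.unusedSectionVars false
open scoped Classical

open WithZero NumberField IsDedekindDomain H38RT
open H38T1 (SC sc scu rep eo la si OddP)
open H76PP (Cub LC ev scm dn)
open H88OD

namespace H26OD

theorem Ka_dn_gq {K F N : Type} [Field K] [NumberField K] [Field F] [NumberField F] [Field N]
    [NumberField N] [Algebra K F] [Algebra K N] [Algebra F N] [IsScalarTower K F N]
    (s : N ≃ₐ[K] N) (g : F ≃ₐ[K] F)
    (hs : ∀ x : F, s (algebraMap F N x) = algebraMap F N (g x))
    (w : HeightOneSpectrum (𝓞 N)) : dn F (gq s • w) = gq g • dn F w := by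
  have hi : ∀ x : F, s⁻¹ (algebraMap F N x) = algebraMap F N (g⁻¹ x) := by
    intro x
    have h1 := hs (g⁻¹ x)
    have h2 : g (g⁻¹ x) = x := g.apply_symm_apply x
    rw [h2] at h1
    rw [← h1]
    exact s.symm_apply_apply _
  apply HeightOneSpectrum.ext
  ext x
  change H38T1.gO (gq s)⁻¹ (algebraMap (𝓞 F) (𝓞 N) x) ∈ w.asIdeal ↔
    algebraMap (𝓞 F) (𝓞 N) (H38T1.gO (gq g)⁻¹ x) ∈ w.asIdeal
  have h : H38T1.gO (gq s)⁻¹ (algebraMap (𝓞 F) (𝓞 N) x) =
      algebraMap (𝓞 F) (𝓞 N) (H38T1.gO (gq g)⁻¹ x) := by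
    apply RingOfIntegers.ext
    rw [H38T1.gO_coe]
    exact hi (x : F)
  rw [h]

theorem Zs_down {K F N : Type} [Field K] [NumberField K] [Field F] [NumberField F] [Field N]
    [NumberField N] [Algebra K F] [Algebra K N] [Algebra F N] [IsScalarTower K F N] [IsGalois K F]
    [IsGalois K N] {q : HeightOneSpectrum (𝓞 K)} (hq : q ∈ Zs K N) : q ∈ Zs K F := by
  intro W' hW' g hg
  obtain ⟨W, hW⟩ := H76PP.exists_above (L := N) W'
  obtain ⟨s, hs⟩ := AlgEquiv.restrictNormalHom_surjective (F := K) (K₁ := F) N g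
  have hs' : ∀ x : F, s (algebraMap F N x) = algebraMap F N (g x) := by
    intro x
    have h1 := AlgEquiv.restrictNormal_commutes s F x
    have h2 : s.restrictNormal F = g := hs
    rw [h2] at h1
    exact h1.symm
  have h1 : dn F (gq s • W) = dn F W := by
    rw [Ka_dn_gq s g hs' W, hW, hg]
  have : IsGalois F N := IsGalois.tower_top_of_isGalois K F N
  obtain ⟨h, hh⟩ := Gc_trans (K := F) (F := N) h1.symm
  have hWq : dn K W = q := by
    rw [← hW', ← hW]
    apply HeightOneSpectrum.ext
    ext x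
    change algebraMap (𝓞 K) (𝓞 N) x ∈ W.asIdeal ↔
      algebraMap (𝓞 F) (𝓞 N) (algebraMap (𝓞 K) (𝓞 F) x) ∈ W.asIdeal
    have h2 : algebraMap (𝓞 F) (𝓞 N) (algebraMap (𝓞 K) (𝓞 F) x) =
        algebraMap (𝓞 K) (𝓞 N) x := by
      apply RingOfIntegers.ext
      exact (IsScalarTower.algebraMap_apply K F N (x : K)).symm
    rw [h2]
  have h3 : gq (h.restrictScalars K * s) • W = W := by
    have h4 : gq (h.restrictScalars K * s) = gq h * gq s := rfl
    rw [h4, mul_smul]
    exact hh.symm
  have h5 := hq W hWq _ h3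
  ext x
  have h6 : (h.restrictScalars K * s) (algebraMap F N x) = algebraMap F N x := by
    rw [h5]
    rfl
  have h7 : h (algebraMap F N (g x)) = algebraMap F N x := by
    rw [← hs' x]
    exact h6
  rw [h.commutes] at h7
  exact (algebraMap F N).injective h7

theorem val_NR {K : Type} [Field K] [NumberField K] {a b : 𝓞 K} {q : HeightOneSpectrum (𝓞 K)}
    (h : ∀ t : 𝓞 K, t ^ 3 + a * t + b ∉ q.asIdeal) (t : K) (ht : q.valuation K t ≤ 1) :
    q.valuation K (t ^ 3 + (a : K) * t + (b : K)) = 1 :=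
  H76PP.Tf_unit q h ht

end H26OD
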