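import Pool.Agent.H26.OD.Jc

/-!
Places of degree one over `K` with prescribed Legendre symbols at which the cubics `j ≠ i` have no root
(project MP_78d38b_OD).
-/

set_option autoImplicit false
set_option linter.unusedSectionVars false
open scoped Classical

open WithZero NumberField IsDedekindDomain H38RT
open H38T1 (SC sc scu rep eo la si OddP)

namespace H26OD

section Aux

variable {K Ω : Type} [Field K] [NumberField K] [Field Ω] [NumberField Ω] [Algebra K Ω]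
  [IsGalois K Ω]

/-- A cubic on whose roots the Frobenius element acts without fixed points has no root. -/
theorem noroot_of_frob {v : HeightOneSpectrum (𝓞 K)} {g : Ω ≃ₐ[K] Ω} {W : HeightOneSpectrum (𝓞 Ω)}
    (hW : W.asIdeal.LiesOver v.asIdeal) (hfr : IsArithFrobAt (𝓞 K) g W.asIdeal) {a b : 𝓞 K}
    {r : Fin 3 → Ω}
    (hr : ∀ x : Ω, x ^ 3 + algebraMap K Ω (a : K) * x + algebraMap K Ω (b : K) =
      (x - r 0) * (x - r 1) * (x - r 2))
    (hdisc : ((r 0 - r 1) * (r 0 - r 2) * (r 1 - r 2)) ^ 2 =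
      algebraMap K Ω (dd3 (a : K) (b : K)))
    (hD : dd3 a b ∉ v.asIdeal) (hg : ∀ m, g (r m) ≠ r m) (t : 𝓞 K) :
    t ^ 3 + a * t + b ∉ v.asIdeal := by
  intro ht
  have hmaxv : v.asIdeal.IsMaximal := v.isMaximal
  have hmaxW : W.asIdeal.IsMaximal := W.isMaximal
  have hroot : ∀ m, r m ^ 3 + algebraMap K Ω (a : K) * r m + algebraMap K Ω (b : K) = 0 := by
    intro m
    rw [hr]
    fin_cases m <;> simp
  have hint : ∀ m, IsIntegral ℤ (r m) := by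
    intro m
    have h1 : IsIntegral (𝓞 K) (r m) := by
      refine ⟨Polynomial.X ^ 3 + Polynomial.C a * Polynomial.X + Polynomial.C b, ?_, ?_⟩
      · monicity!
      · have h2 := hroot m
        simp only [Polynomial.eval₂_add, Polynomial.eval₂_mul, Polynomial.eval₂_pow,
          Polynomial.eval₂_X, Polynomial.eval₂_C]
        exact h2
    exact isIntegral_trans (r m) h1
  let ρ : Fin 3 → 𝓞 Ω := fun m => ⟨r m, hint m⟩
  have hρ : ∀ m, ((ρ m : 𝓞 Ω) : Ω) = r m := fun m => rfl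
  obtain ⟨T, hT⟩ : ∃ T : 𝓞 Ω, T = algebraMap (𝓞 K) (𝓞 Ω) t := ⟨_, rfl⟩
  have hcoe : ∀ z : 𝓞 K, ((algebraMap (𝓞 K) (𝓞 Ω) z : 𝓞 Ω) : Ω) = algebraMap K Ω (z : K) :=
    fun z => rfl
  have hle : ∀ z : 𝓞 K, z ∈ v.asIdeal ↔ algebraMap (𝓞 K) (𝓞 Ω) z ∈ W.asIdeal := by
    intro z
    rw [hW.over]
    rfl
  have hprod : (T - ρ 0) * (T - ρ 1) * (T - ρ 2) = algebraMap (𝓞 K) (𝓞 Ω) (t ^ 3 + a * t + b) := by
    apply RingOfIntegers.ext
    have h1 := hr (algebraMap K Ω (t : K))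
    have h0 : ((t ^ 3 + a * t + b : 𝓞 K) : K) = (t : K) ^ 3 + (a : K) * (t : K) + (b : K) := rfl
    have h2 : ((algebraMap (𝓞 K) (𝓞 Ω) (t ^ 3 + a * t + b) : 𝓞 Ω) : Ω) =
        (algebraMap K Ω (t : K)) ^ 3 + algebraMap K Ω (a : K) * algebraMap K Ω (t : K) +
          algebraMap K Ω (b : K) := by
      rw [hcoe, h0, map_add, map_add, map_pow, map_mul]
    rw [h2, h1, hT]
    rfl
  have hmem : (T - ρ 0) * (T - ρ 1) * (T - ρ 2) ∈ W.asIdeal := by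
    rw [hprod, ← hle]
    exact ht
  obtain ⟨m, hm⟩ : ∃ m, T - ρ m ∈ W.asIdeal := by
    rcases hmaxW.isPrime.mem_or_mem hmem with h1 | h1
    · rcases hmaxW.isPrime.mem_or_mem h1 with h2 | h2
      · exact ⟨0, h2⟩
      · exact ⟨1, h2⟩
    · exact ⟨2, h1⟩
  obtain ⟨m', hm'⟩ : ∃ m', g (r m) = r m' := by
    have h1 : (g (r m) - r 0) * (g (r m) - r 1) * (g (r m) - r 2) = 0 := by
      rw [← hr]
      have h2 := congrArg g (hroot m)
      rw [map_add, map_add, map_mul, map_pow, g.commutes, g.commutes, map_zero] at h2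
      exact h2
    rcases mul_eq_zero.mp h1 with h2 | h2
    · rcases mul_eq_zero.mp h2 with h3 | h3
      · exact ⟨0, sub_eq_zero.mp h3⟩
      · exact ⟨1, sub_eq_zero.mp h3⟩
    · exact ⟨2, sub_eq_zero.mp h2⟩
  have hne : m' ≠ m := fun h => hg m (by rw [hm', h])
  have hgρ : g • ρ m = ρ m' := by
    apply RingOfIntegers.coe_injective
    exact hm'
  -- the Frobenius condition
  let _ : Field (𝓞 K ⧸ v.asIdeal) := Ideal.Quotient.field v.asIdeal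
  have hN0 : Ideal.absNorm v.asIdeal ≠ 0 := (Ideal.absNorm_eq_zero_iff.not).2 v.ne_bot
  have hfin : Finite (𝓞 K ⧸ v.asIdeal) := by
    apply Nat.finite_of_card_ne_zero
    exact hN0
  let _ : Fintype (𝓞 K ⧸ v.asIdeal) := Fintype.ofFinite _
  have h1 := hfr (ρ m)
  have h3 : Nat.card (𝓞 K ⧸ W.asIdeal.under (𝓞 K)) = Fintype.card (𝓞 K ⧸ v.asIdeal) := by
    rw [← hW.over, Nat.card_eq_fintype_card]
  rw [h3] at h1
  have h4 : ρ m' - ρ m ^ Fintype.card (𝓞 K ⧸ v.asIdeal) ∈ W.asIdeal := by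
    have h5 : (MulSemiringAction.toAlgHom (𝓞 K) (𝓞 Ω) g) (ρ m) = ρ m' := hgρ
    rw [h5] at h1
    exact h1
  have h6 : t ^ Fintype.card (𝓞 K ⧸ v.asIdeal) - t ∈ v.asIdeal := by
    rw [← Ideal.Quotient.eq_zero_iff_mem, map_sub, map_pow, sub_eq_zero]
    exact FiniteField.pow_card _
  have h7 : T ^ Fintype.card (𝓞 K ⧸ v.asIdeal) - T ∈ W.asIdeal := by
    have := (hle _).mp h6
    rw [map_sub, map_pow, ← hT] at this
    exact this
  have h8 : ρ m - ρ m' ∈ W.asIdeal := by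
    have e1 := (Ideal.Quotient.eq (I := W.asIdeal)).2 hm
    have e2 := (Ideal.Quotient.eq (I := W.asIdeal)).2 h4
    have e3 := (Ideal.Quotient.eq (I := W.asIdeal)).2 h7
    rw [map_pow] at e2 e3
    rw [← Ideal.Quotient.eq, e2, ← e1, e3]
  have h9 : (ρ 0 - ρ 1) * (ρ 0 - ρ 2) * (ρ 1 - ρ 2) ∈ W.asIdeal := by
    have h10 : ρ m' - ρ m ∈ W.asIdeal := by
      rw [← neg_sub]
      exact neg_mem h8
    fin_cases m <;> fin_cases m' <;> first
      | exact absurd rfl hne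
      | exact Ideal.mul_mem_right _ _ (Ideal.mul_mem_right _ _ h8)
      | exact Ideal.mul_mem_right _ _ (Ideal.mul_mem_right _ _ h10)
      | exact Ideal.mul_mem_right _ _ (Ideal.mul_mem_left _ _ h8)
      | exact Ideal.mul_mem_right _ _ (Ideal.mul_mem_left _ _ h10)
      | exact Ideal.mul_mem_left _ _ h8
      | exact Ideal.mul_mem_left _ _ h10
  apply hD
  rw [hle]
  have h11 : algebraMap (𝓞 K) (𝓞 Ω) (dd3 a b) = ((ρ 0 - ρ 1) * (ρ 0 - ρ 2) * (ρ 1 - ρ 2)) ^ 2 := by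
    apply RingOfIntegers.ext
    have e1 : ((((ρ 0 - ρ 1) * (ρ 0 - ρ 2) * (ρ 1 - ρ 2)) ^ 2 : 𝓞 Ω) : Ω) =
        ((r 0 - r 1) * (r 0 - r 2) * (r 1 - r 2)) ^ 2 := rfl
    rw [e1, hdisc]
    have e2 : ((dd3 a b : 𝓞 K) : K) = dd3 (a : K) (b : K) := by
      simp only [dd3]
      push_cast
      rfl
    rw [← e2]
    rfl
  rw [h11]
  exact Ideal.pow_mem_of_mem _ h9 2 two_pos

end Aux

theorem cheb_J {K N N' : Type} [Field K] [NumberField K] [Field N] [NumberField N] [Field N']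
    [NumberField N'] [Algebra K N] [Algebra N N'] [Algebra K N'] [IsScalarTower K N N']
    [IsGalois K N] {ι : Type} [Fintype ι] (a b : ι → 𝓞 K)
    (hir : ∀ (j : ι) (t : K), t ^ 3 + (a j : K) * t + (b j : K) ≠ 0)
    (hind : ∀ I : Finset ι, I.Nonempty →
      ¬ IsSquare (algebraMap K N (∏ j ∈ I, dd3 (a j : K) (b j : K))))
    (i : ι) (θ : N')
    (hθ : θ ^ 3 + algebraMap K N' (a i : K) * θ + algebraMap K N' (b i : K) = 0)
    (hgen : ∀ x : N', ∃ c0 c1 c2 : N,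
      x = algebraMap N N' c0 + algebraMap N N' c1 * θ + algebraMap N N' c2 * θ ^ 2)
    (D : Finset (𝓞 N')) (hD : ∀ d ∈ D, d ≠ 0) (φ : SC N' →+ ZMod 2)
    (hφ : ∀ j, j ≠ i → φ (sc (algebraMap K N' (dd3 (a j : K) (b j : K)))) = 0)
    (B : Set (HeightOneSpectrum (𝓞 K))) (hB : B.Finite) :
    ∃ w : HeightOneSpectrum (𝓞 N'), H76PP.dn K w ∉ B ∧ (2 : 𝓞 N') ∉ w.asIdeal ∧
      (∀ x : 𝓞 N', ∃ n : 𝓞 K, algebraMap (𝓞 K) (𝓞 N') n - x ∈ w.asIdeal) ∧
      (∀ d ∈ D, d ∉ w.asIdeal ∧ la w (sc (d : N')) = φ (sc (d : N'))) ∧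
      ∀ j, j ≠ i → ∀ t : 𝓞 K, t ^ 3 + a j * t + b j ∉ (H76PP.dn K w).asIdeal := by
  obtain ⟨Ω, _, _, _, _, _, _, s, r, τ, hs, hr, hτN, hτs, hτr⟩ :=
    exists_tau a b hir hind i θ hθ hgen D hD φ hφ
  have hLN : IsGalois N' Ω := IsGalois.tower_top_of_isGalois K N' Ω
  -- the bad places
  have hfin : ∀ x : 𝓞 N', x ≠ 0 → {v : HeightOneSpectrum (𝓞 K) |
      ∃ w : HeightOneSpectrum (𝓞 N'), H76PP.dn K w = v ∧ x ∈ w.asIdeal}.Finite := by
    intro x hx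
    refine ((H30MQ.fin_mem hx).image (H76PP.dn K)).subset ?_
    rintro v ⟨w, rfl, hw⟩
    exact ⟨w, hw, rfl⟩
  have hdne : ∀ j, dd3 (a j) (b j) ≠ 0 := by
    intro j h0
    apply hind {j} (Finset.singleton_nonempty j)
    rw [Finset.prod_singleton]
    have e2 : ((dd3 (a j) (b j) : 𝓞 K) : K) = dd3 (a j : K) (b j : K) := by
      simp only [dd3]
      push_cast
      rfl
    rw [← e2, h0]
    refine ⟨0, ?_⟩
    rw [mul_zero]
    exact map_zero _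
  have hbad : (((B ∪ {v : HeightOneSpectrum (𝓞 K) |
      ∃ w : HeightOneSpectrum (𝓞 N'), H76PP.dn K w = v ∧ (2 : 𝓞 N') ∈ w.asIdeal}) ∪
      ⋃ d ∈ D, {v : HeightOneSpectrum (𝓞 K) |
        ∃ w : HeightOneSpectrum (𝓞 N'), H76PP.dn K w = v ∧ d ∈ w.asIdeal}) ∪
      ⋃ j, {v : HeightOneSpectrum (𝓞 K) | dd3 (a j) (b j) ∈ v.asIdeal}).Finite :=
    ((hB.union (hfin _ two_ne_zero)).union
      (Set.Finite.biUnion D.finite_toSet fun d hd => hfin d (hD d hd))).union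
      (Set.finite_iUnion fun j => H30MQ.fin_mem (hdne j))
  obtain ⟨v, ⟨g, hg, W, hW, hfr⟩, hv⟩ := ((H30MQ.frob_infK τ).sdiff hbad).nonempty
  have hgN : ∀ x : N', g (algebraMap N' Ω x) = algebraMap N' Ω x := by
    intro x
    have h3 := H30MQ.same_sign (g := g) (σ := τ) hg (s := algebraMap N' Ω x) (e := 0)
      (by rw [if_pos rfl]; exact hτN x)
    rw [if_pos rfl] at h3
    exact h3
  let g' : Ω ≃ₐ[N'] Ω := AlgEquiv.ofRingEquiv (f := g.toRingEquiv) hgN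
  have hg' : ∀ x : Ω, g' x = g x := fun x => rfl
  obtain ⟨w, hw⟩ : ∃ w : HeightOneSpectrum (𝓞 N'), w = H76PP.dn N' W := ⟨_, rfl⟩
  have hψ : ∀ x : 𝓞 K, algebraMap (𝓞 N') (𝓞 Ω) (algebraMap (𝓞 K) (𝓞 N') x) =
      algebraMap (𝓞 K) (𝓞 Ω) x :=
    fun x => (IsScalarTower.algebraMap_apply (𝓞 K) (𝓞 N') (𝓞 Ω) x).symm
  have hdn : H76PP.dn K w = v := by
    apply HeightOneSpectrum.ext
    rw [hW.over, hw]
    ext x
    change algebraMap (𝓞 N') (𝓞 Ω) (algebraMap (𝓞 K) (𝓞 N') x) ∈ W.asIdeal ↔ _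
    rw [hψ]
    rfl
  have hvB : v ∉ B := fun h => hv (Or.inl (Or.inl (Or.inl h)))
  have hdeg : ∀ x : 𝓞 N', ∃ n : 𝓞 K, algebraMap (𝓞 K) (𝓞 N') n - x ∈ w.asIdeal := by
    intro x
    obtain ⟨n, hn⟩ := H76OD.int_of_frobW hW hfr (x := algebraMap (𝓞 N') (𝓞 Ω) x) (by
      apply RingOfIntegers.coe_injective
      exact hgN x)
    refine ⟨n, ?_⟩
    rw [hw]
    change algebraMap (𝓞 N') (𝓞 Ω) (algebraMap (𝓞 K) (𝓞 N') n - x) ∈ W.asIdeal
    rw [map_sub, hψ]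
    exact hn
  have hWw : W.asIdeal.LiesOver w.asIdeal := ⟨by rw [hw]; rfl⟩
  have hfr' : Pool.Agent.H42.PC.IsFr N' Ω w g' := by
    refine ⟨W, hWw, ?_⟩
    intro x
    have h1 := hfr x
    have e1 : W.asIdeal.under (𝓞 N') = w.asIdeal := hWw.over.symm
    have e2 : W.asIdeal.under (𝓞 K) = w.asIdeal.comap (algebraMap (𝓞 K) (𝓞 N')) := by
      rw [← hW.over, ← hdn]
      rfl
    have e3 : Nat.card (𝓞 N' ⧸ W.asIdeal.under (𝓞 N')) =
        Nat.card (𝓞 K ⧸ W.asIdeal.under (𝓞 K)) := by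
      rw [e1, e2, H76OD.card_deg1 hdeg]
    rw [e3]
    exact h1
  have h2w : (2 : 𝓞 N') ∉ w.asIdeal := fun h => hv (Or.inl (Or.inl (Or.inr ⟨w, hdn, h⟩)))
  refine ⟨w, by rw [hdn]; exact hvB, h2w, hdeg, fun d hd => ?_, fun j hj t => ?_⟩
  · have hdw : d ∉ w.asIdeal :=
      fun h => hv (Or.inl (Or.inr (Set.mem_biUnion hd ⟨w, hdn, h⟩)))
    refine ⟨hdw, H30MQ.la_of_frob hfr' h2w hdw (hs d hd) ?_⟩
    have h3 := H30MQ.same_sign (g := g) (σ := τ) hg (s := s d) (hτs d hd)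
    exact h3
  · rw [hdn]
    have hbig : Big K Ω (fun j => (a j : K)) (fun j => (b j : K)) r := ⟨inferInstance, hr⟩
    refine noroot_of_frob hW hfr (hr j) (hbig.disc j)
      (fun h => hv (Or.inr (Set.mem_iUnion.mpr ⟨j, h⟩))) ?_ t
    intro m hm
    apply hτr j hj m
    have h3 := H30MQ.same_sign (g := τ) (σ := g) hg.symm (s := r j m) (e := 0)
      (by rw [if_pos rfl]; exact hm)
    rw [if_pos rfl] at h3
    exact h3

end H26OD
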