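import Pool.Agent.H88.OD.Gf

/-!
ROW Mm (MP_78d38b_OD, helper26, about 150 lines): the Selmer group of the twist by an element `δ` with several special primes.  It is the version of `step_mp` (Pool/Agent/H88/OD/Gf.lean) for a finite set of special primes instead of two: copy its proof.  Use the STATEMENTS of Ga, Gb, Gc, Gt, Gf (`Sp.ord_K`),
Pool/Agent/H76/OD/Lt.lean (Wc_tw_iff, Wc_tw_real, Wc_good, Wc_spec, Wc_sq) and `uu` of Pool/Agent/H76/OD/Rc.lean.

PROOF. `c ∈ HH`. `v` above `Sg`: `δ` is a square in the completion of `K` at `dn K v`, so its image is a square in `F_v`, so `S.Lv (D * δ) v c ↔ S.Lv D v c` by Wc_tw_iff (`(D δ) / D = δ`).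
Real `s : F →+* ℝ`: `0 < s (δ)` by `hpos` for `s.comp (algebraMap K F)`, Wc_tw_real. Outside `Sg ∪ T.image q`: `D δ` is a unit, Wc_good gives `eo w c = 0` for all `w` above. So `S.Y D Sg (T.image q) c`.
`P.fl c = 0` for `P ∈ T`: the coefficient at `g` is `la P.t1 c' + P.nu * eo P.t2 c'`, `c' = S.ρ g⁻¹ • c`, which is `uu` of helper76 (`Wc_spec`) for the class `c'` at `v = P.v`: `c'` satisfies `S.V (D * δ)` too (V_smul); `ord` of `D δ` at `P.v` is odd: `ord_K` and `hodd`, `D` a unit at `P.q ∉ Sg` (`S.Ok.val`).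
-/

set_option autoImplicit false
set_option linter.unusedSectionVars false
open scoped Classical

open WithZero NumberField IsDedekindDomain H38RT
open H38T1 (SC sc scu rep eo la si OddP)
open H76PP (Cub LC ev scm dn)
open H88OD

namespace H26OD

variable {K F L : Type} [Field K] [NumberField K] [Field F] [NumberField F] [Field L]
  [NumberField L] [Algebra K F] [Algebra F L] {a b : K} {θ : L} {S : Ext K F L a b θ}
  {Sg : Finset (HeightOneSpectrum (𝓞 K))}

private theorem Mm_Lv (D : K) (v : HeightOneSpectrum (𝓞 F)) (c : SC L) : S.Lv D v c ↔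
    H30ZO.Wc (algebraMap F (v.adicCompletion F)) (algebraMap K F D ^ 2 * algebraMap K F a)
      (algebraMap K F D ^ 3 * algebraMap K F b) (algebraMap F L (algebraMap K F D) * θ) c := by
  unfold Ext.Lv
  rw [map_mul, map_pow, map_mul, map_pow]

private theorem Mm_Lr (D : K) (s : F →+* ℝ) (c : SC L) : S.Lr D s c ↔
    H30ZO.Wc s (algebraMap K F D ^ 2 * algebraMap K F a)
      (algebraMap K F D ^ 3 * algebraMap K F b) (algebraMap F L (algebraMap K F D) * θ) c := by
  unfold Ext.Lr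
  rw [map_mul, map_pow, map_mul, map_pow]

private theorem Mm_div {D δ : K} (hD : D ≠ 0) :
    algebraMap K F (D * δ) / algebraMap K F D = algebraMap K F δ := by
  rw [← map_div₀, mul_div_cancel_left₀ _ hD]

private theorem Mm_ne {D : K} (hD : D ≠ 0) : algebraMap K F D ≠ 0 := (map_ne_zero _).2 hD

private theorem Mm_nhds (v : HeightOneSpectrum (𝓞 F)) :
    ∀ U ∈ nhds (0 : v.adicCompletion F), ∃ k : ℕ, ∀ x : K,
      (dn K v).valuation K x ≤ exp (-(k : ℤ)) →
        ((algebraMap F (v.adicCompletion F)).comp (algebraMap K F)) x ∈ U := by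
  intro U hU
  rw [Valued.mem_nhds_zero] at hU
  obtain ⟨γ, hγ⟩ := hU
  obtain ⟨n, hn⟩ := exists_exp_neg_natCast_lt
    (x := MonoidWithZeroHom.ValueGroup₀.embedding γ.1) (by simp)
  refine ⟨n, fun x hx => hγ ?_⟩
  change Valued.v.restrict _ < γ.1
  rw [Valuation.restrict_lt_iff_lt_embedding]
  refine lt_of_le_of_lt ?_ hn
  have h2 := v.valuedAdicCompletion_eq_valuation' (K := F) (algebraMap K F x)
  change Valued.v (algebraMap F (v.adicCompletion F) (algebraMap K F x)) = _ at h2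
  change Valued.v (algebraMap F (v.adicCompletion F) (algebraMap K F x)) ≤ _
  rw [h2]
  exact H76PP.val_exp_le (by positivity) hx

private theorem Mm_sq (v : HeightOneSpectrum (𝓞 F)) {δ : K}
    (h : IsSquare (algebraMap K ((dn K v).adicCompletion K) δ)) :
    IsSquare (algebraMap F (v.adicCompletion F) (algebraMap K F δ)) := by
  have h1 := h.map (Pool.Agent.H10.adicLift (dn K v)
    ((algebraMap F (v.adicCompletion F)).comp (algebraMap K F))
    (Pool.Agent.H10.continuous_fromVal (dn K v) _ (Mm_nhds v)))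
  rw [Pool.Agent.H10.adicLift_algebraMap] at h1
  exact h1

private theorem Mm_tw {D δ : K} (hD : D ≠ 0) (hδ0 : δ ≠ 0) (v : HeightOneSpectrum (𝓞 F))
    (h : IsSquare (algebraMap K ((dn K v).adicCompletion K) δ)) (c : SC L) :
    S.Lv D v c ↔ S.Lv (D * δ) v c := by
  rw [Mm_Lv, Mm_Lv]
  refine H76OD.Wc_tw_iff _ (Mm_ne hD) (Mm_ne (mul_ne_zero hD hδ0)) ?_
  rw [Mm_div hD]
  exact Mm_sq v h

private theorem Mm_twr {D δ : K} (hD : D ≠ 0) (hδ0 : δ ≠ 0) (s : F →+* ℝ)
    (h : ∀ s : K →+* ℝ, 0 < s δ) (c : SC L) : S.Lr D s c ↔ S.Lr (D * δ) s c := by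
  rw [Mm_Lr, Mm_Lr]
  refine H76OD.Wc_tw_real _ (Mm_ne hD) (Mm_ne (mul_ne_zero hD hδ0)) ?_
  rw [Mm_div hD]
  exact h (s.comp (algebraMap K F))

private theorem Mm_good {E : K} (v : HeightOneSpectrum (𝓞 F))
    (h2 : (dn K v).valuation K 2 = 1) (hd : (dn K v).valuation K (4 * a ^ 3 + 27 * b ^ 2) = 1)
    (hE : (dn K v).valuation K E = 1) {c : SC L} (hc : c ∈ H30ZO.HH F L) :
    S.Lv E v c ↔ ∀ w : HeightOneSpectrum (𝓞 L), dn F w = v → eo w c = 0 := by
  rw [Mm_Lv]
  refine H76OD.Wc_good S.cub v (H76PP.val_le (S.ha _)) (H76PP.val_le (S.hb _)) ?_ ?_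
    (H76PP.val_one hE) hc
  · have h := H76PP.val_one (L := F) (w := v) h2
    rwa [map_ofNat] at h
  · have h := H76PP.val_one (L := F) (w := v) hd
    rw [map_add, map_mul, map_mul, map_pow, map_pow, map_ofNat, map_ofNat] at h
    exact h

theorem multi_mp {D : K} (hok : S.Ok D Sg) (T : Finset (Sp S Sg)) {δ : K} (hδ0 : δ ≠ 0)
    (hsq : ∀ u ∈ Sg, IsSquare (algebraMap K (u.adicCompletion K) δ))
    (hpos : ∀ s : K →+* ℝ, 0 < s δ)
    (hout : ∀ u, u ∉ T.image Sp.q → u.valuation K δ = 1)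
    (hodd : ∀ P ∈ T, Odd (ord (P.q.valuation K) δ)) {c : SC L} (hc : S.V (D * δ) c) :
    S.Y D Sg (T.image Sp.q) c ∧ ∀ P ∈ T, P.fl c = 0 := by
  have hfl : ∀ Q : Sp S Sg, Odd (ord (Q.q.valuation K) (D * δ)) → Q.fl c = 0 := by
    intro Q hQ
    unfold Sp.fl
    apply rg_ext
    intro g
    have hc' := V_smul S g⁻¹ hc
    have hv := Q.odd hok.two
    have h2 := H76OD.Wc_spec S.cub (fun v => H76PP.val_le (S.ha _))
      (fun v => H76PP.val_le (S.hb _)) (v := Q.v) hv.1 (by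
        have h := H76PP.val_one (L := F) (w := Q.v) (hok.dis _ Q.out)
        rw [map_add, map_mul, map_mul, map_pow, map_pow, map_ofNat, map_ofNat] at h
        exact h) Q.tw (E := algebraMap K F (D * δ)) (Mm_ne (mul_ne_zero hok.ne hδ0))
      (by rw [Q.ord_K (mul_ne_zero hok.ne hδ0)]; exact hQ) hc'.hh
      ((Mm_Lv _ _ _).1 (hc'.fin Q.v))
    rw [coeff_mk]
    exact h2
  have hD : ∀ Q : Sp S Sg, ord (Q.q.valuation K) D = 0 := by
    intro Q
    have h : Q.q.valuation K D = 1 := hok.val _ Q.out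
    unfold ord
    rw [h, log_one, neg_zero]
  refine ⟨⟨hc.hh, fun v hv => ?_, fun s => ?_, fun w h1 h2 => ?_⟩, fun P hP => hfl P ?_⟩
  · exact (Mm_tw hok.ne hδ0 v (hsq _ hv) c).2 (hc.fin v)
  · exact (Mm_twr hok.ne hδ0 s hpos c).2 (hc.inf s)
  · refine (Mm_good (E := D * δ) (dn F w) (hok.two _ h1) (hok.dis _ h1) ?_ hc.hh).1
      (hc.fin _) w rfl
    rw [map_mul, hok.val _ h1, hout _ h2, one_mul]
  · rw [ord_mul hok.ne hδ0, hD P, zero_add]
    exact hodd P hP

end H26OD
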