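import Pool.Agent.H88.OD.Df
import Pool.Agent.H76.OD.Ch

/-!
MP_78d38b_OD (helper26): sets of primes which contain enough special primes (definitions).
-/

set_option autoImplicit false
set_option linter.unusedSectionVars false
open scoped Classical

open WithZero NumberField IsDedekindDomain H38RT
open H38T1 (SC sc scu rep eo la si OddP)
open H76PP (Cub LC ev scm dn)
open H88OD

namespace H26OD

/-- The primes of `K` which split completely in the Galois extension `N` of `K`: the decomposition
groups are trivial. -/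
def Zs (K N : Type) [Field K] [NumberField K] [Field N] [NumberField N] [Algebra K N] :
    Set (HeightOneSpectrum (𝓞 K)) :=
  {q | ∀ W : HeightOneSpectrum (𝓞 N), dn K W = q → ∀ g : N ≃ₐ[K] N, gq g • W = W → g = 1}

variable {K F L : Type} [Field K] [NumberField K] [Field F] [NumberField F] [Field L]
  [NumberField L] [Algebra K F] [Algebra F L] {a b : K} {θ : L}

/-- The set `Z` of primes of `K` contains special primes with prescribed symbols. -/
def Rich (S : Ext K F L a b θ) (Z : Set (HeightOneSpectrum (𝓞 K))) : Prop :=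
  ∀ (Sg : Finset (HeightOneSpectrum (𝓞 K))) (Y : Set (SC L)), Y.Finite →
    (∀ c ∈ Y, c ∈ H30ZO.HH F L) → ∀ (φ : SC L →+ ZMod 2) (A₀ : Set (HeightOneSpectrum (𝓞 K))),
      A₀.Finite → ∃ P : Sp S Sg, P.q ∈ Z ∧ P.q ∉ A₀ ∧ ∀ c ∈ Y, la P.t1 c = φ c

theorem rich_univ (S : Ext K F L a b θ) : Rich S Set.univ := by
  intro Sg Y hY hYH φ A₀ hA₀
  obtain ⟨P, h1, h2⟩ := H76OD.exists_sp S Sg hY hYH φ hA₀
  exact ⟨P, Set.mem_univ _, h1, h2⟩

/-- The field `L N`. -/
structure UpN (S : Ext K F L a b θ) (N LN : Type) [Field N] [NumberField N] [Algebra K N]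
    [Algebra F N] [IsScalarTower K F N] [Field LN] [NumberField LN] [Algebra N LN] [Algebra L LN] :
    Prop where
  cub : Cub N LN (algebraMap K N a) (algebraMap K N b) (algebraMap L LN θ)
  tower : ∀ x : F, algebraMap L LN (algebraMap F L x) = algebraMap N LN (algebraMap F N x)

end H26OD
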