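import Pool.Agent.H88.OD.Gb
import Pool.Agent.H26.OD.Ri

/-!
ROW Z2 (MP_78d38b_OD, helper26, about 120 lines): version of Z1.lean with the primes in a given set `Z` (hypothesis `Rich S Z`, Ri.lean) instead of `exists_sp`.  Use the STATEMENT `exists_YG` of Pool/Agent/H88/OD/Gb.lean.  (If the proofs of Z1.lean are landed, adapt them: `exists_sp` is replaced by `hZ Sg`.)

PROOF. `Z2_add`: `W` the finite group of `exists_YG` for `T := l.image Sp.q` (its elements are in `HH`: `Y.hh`).  Show by induction on the finite set `Φ` of functions (`Finset` or `Set.Finite.induction_on`, ambient finite type `W → ZMod 2`) : there is a finset `l' ⊇ l` with `q` injective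
on `l'`, `q ∈ Z` for the elements of `l'` and for every `φ : SC L →+ ZMod 2` with `(fun c : W => φ c) ∈ Φ` there is `P ∈ l'`, `P ∉ l`, `la P.t1 c = φ c` for `c ∈ W`.  Step: for the new function `ψ`, if there is `φ` with restriction `ψ` take `P` by `hZ` with `A₀ := q '' l'` (so `P.q` is not the `q` of an element of `l'`, in particular `P ∉ l`), `l'' := insert P l'`;
if there is none, `l'' := l'`.  At the end `Φ := univ`.
`exists_QQZ`: sequence `l : ℕ → Finset` with `l 0 = ∅`, `l (n+1)` from `Z2_add` (recursion on the subtype of finsets with `q` injective and in `Z`), monotone; `Q := ⋃ n, l n`. For finite `T ⊆ Q` and finite `A` there is `n` with `T ⊆ l n` and `A ∩ Q ⊆ l n` (monotone union, finite). Take `P ∈ l (n+1)`, `P ∉ l n` from `Z2_add` with `φ`;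
`S.Y D Sg (T.image q) c` implies `S.Y D Sg ((l n).image q) c` (`ev` for fewer places).
-/

set_option autoImplicit false
set_option linter.unusedSectionVars false
open scoped Classical

open WithZero NumberField IsDedekindDomain H38RT
open H38T1 (SC sc scu rep eo la si OddP)
open H76PP (Cub LC ev scm dn)
open H88OD

namespace H26OD

variable {K F L : Type} [Field K] [NumberField K] [Field F] [NumberField F] [Field L]
  [NumberField L] [Algebra K F] [Algebra F L] {a b : K} {θ : L}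

/-- Adding finitely many special primes. -/
theorem Z2_add (S : Ext K F L a b θ) {D : K} (hD : D ≠ 0) (Sg : Finset (HeightOneSpectrum (𝓞 K)))
    {Z : Set (HeightOneSpectrum (𝓞 K))} (hZ : Rich S Z)
    (l : Finset (Sp S Sg)) (hl : ∀ P ∈ l, ∀ P' ∈ l, P.q = P'.q → P = P') (hlZ : ∀ P ∈ l, P.q ∈ Z) :
    ∃ l' : Finset (Sp S Sg), l ⊆ l' ∧ (∀ P ∈ l', ∀ P' ∈ l', P.q = P'.q → P = P') ∧
      (∀ P ∈ l', P.q ∈ Z) ∧
      ∀ φ : SC L →+ ZMod 2, ∃ P ∈ l', P ∉ l ∧
        ∀ c, S.Y D Sg (l.image Sp.q) c → la P.t1 c = φ c := by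
  obtain ⟨W, hWf, hm⟩ := exists_YG S hD Sg (l.image Sp.q)
  have hWfin : (W : Set (SC L)).Finite := Set.toFinite _
  have key : ∀ Φ : Finset (W → ZMod 2), ∃ l' : Finset (Sp S Sg), l ⊆ l' ∧
      (∀ P ∈ l', ∀ P' ∈ l', P.q = P'.q → P = P') ∧ (∀ P ∈ l', P.q ∈ Z) ∧
      ∀ φ : SC L →+ ZMod 2, (fun c : W => φ (c : SC L)) ∈ Φ → ∃ P ∈ l', P ∉ l ∧
        ∀ c ∈ W, la P.t1 c = φ c := by
    intro Φ
    induction Φ using Finset.induction_on with
    | empty =>
      exact ⟨l, Finset.Subset.refl l, hl, hlZ, fun φ hφ => absurd hφ (Finset.notMem_empty _)⟩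
    | insert ψ Φ hψ ih =>
      obtain ⟨l', h1, h2, h3, h4⟩ := ih
      by_cases hex : ∃ φ : SC L →+ ZMod 2, (fun c : W => φ (c : SC L)) = ψ
      · obtain ⟨φ₀, hφ₀⟩ := hex
        obtain ⟨P, hP1, hP2, hP3⟩ := hZ Sg (W : Set (SC L)) hWfin
          (fun c hc => ((hm c).1 hc).hh) φ₀ (Sp.q '' (l' : Set (Sp S Sg)))
          ((Finset.finite_toSet l').image _)
        have hq : ∀ P' ∈ l', P'.q ≠ P.q := by
          intro P' hP' he
          exact hP2 ⟨P', hP', he⟩
        refine ⟨insert P l', fun x hx => Finset.mem_insert_of_mem (h1 hx), ?_, ?_, ?_⟩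
        · intro P₁ hP₁ P₂ hP₂ he
          rcases Finset.mem_insert.1 hP₁ with e1 | m1
          · rcases Finset.mem_insert.1 hP₂ with e2 | m2
            · rw [e1, e2]
            · rw [e1] at he
              exact absurd he.symm (hq P₂ m2)
          · rcases Finset.mem_insert.1 hP₂ with e2 | m2
            · rw [e2] at he
              exact absurd he (hq P₁ m1)
            · exact h2 P₁ m1 P₂ m2 he
        · intro P₁ hP₁
          rcases Finset.mem_insert.1 hP₁ with e1 | m1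
          · rw [e1]
            exact hP1
          · exact h3 P₁ m1
        · intro φ hφ
          rcases Finset.mem_insert.1 hφ with e1 | m1
          · refine ⟨P, Finset.mem_insert_self _ _, fun hPl => hq P (h1 hPl) rfl, ?_⟩
            intro c hc
            rw [hP3 c hc]
            exact congrFun (hφ₀.trans e1.symm) ⟨c, hc⟩
          · obtain ⟨P', hP', hP'l, hc'⟩ := h4 φ m1
            exact ⟨P', Finset.mem_insert_of_mem hP', hP'l, hc'⟩
      · refine ⟨l', h1, h2, h3, ?_⟩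
        intro φ hφ
        rcases Finset.mem_insert.1 hφ with e1 | m1
        · exact absurd ⟨φ, e1⟩ hex
        · exact h4 φ m1
  have _ : Finite (W → ZMod 2) := Pi.finite
  have _ : Fintype (W → ZMod 2) := Fintype.ofFinite _
  obtain ⟨l', h1, h2, h3, h4⟩ := key Finset.univ
  refine ⟨l', h1, h2, h3, fun φ => ?_⟩
  obtain ⟨P, hP, hPl, hc⟩ := h4 φ (Finset.mem_univ _)
  exact ⟨P, hP, hPl, fun c hY => hc c ((hm c).2 hY)⟩

/-- The family of special primes. -/
theorem exists_QQZ (S : Ext K F L a b θ) {D : K} (hD : D ≠ 0)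
    (Sg : Finset (HeightOneSpectrum (𝓞 K))) {Z : Set (HeightOneSpectrum (𝓞 K))} (hZ : Rich S Z) :
    ∃ Q : Set (Sp S Sg), (∀ P ∈ Q, ∀ P' ∈ Q, P.q = P'.q → P = P') ∧ (∀ P ∈ Q, P.q ∈ Z) ∧
      ∀ T A : Finset (Sp S Sg), (∀ P ∈ T, P ∈ Q) → ∀ φ : SC L →+ ZMod 2,
        ∃ P ∈ Q, P ∉ T ∧ P ∉ A ∧ ∀ c, S.Y D Sg (T.image Sp.q) c → la P.t1 c = φ c := by
  have step : ∀ l : {l : Finset (Sp S Sg) // (∀ P ∈ l, ∀ P' ∈ l, P.q = P'.q → P = P') ∧
      (∀ P ∈ l, P.q ∈ Z)}, ∃ l' : {l : Finset (Sp S Sg) //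
      (∀ P ∈ l, ∀ P' ∈ l, P.q = P'.q → P = P') ∧ (∀ P ∈ l, P.q ∈ Z)}, l.1 ⊆ l'.1 ∧
      ∀ φ : SC L →+ ZMod 2, ∃ P ∈ l'.1, P ∉ l.1 ∧
        ∀ c, S.Y D Sg (l.1.image Sp.q) c → la P.t1 c = φ c := by
    intro l
    obtain ⟨l', h1, h2, h3, h4⟩ := Z2_add S hD Sg hZ l.1 l.2.1 l.2.2
    exact ⟨⟨l', h2, h3⟩, h1, h4⟩
  choose f hf1 hf2 using step
  obtain ⟨s, hs⟩ : ∃ s : ℕ → {l : Finset (Sp S Sg) //
      (∀ P ∈ l, ∀ P' ∈ l, P.q = P'.q → P = P') ∧ (∀ P ∈ l, P.q ∈ Z)},
      ∀ n, s (n + 1) = f (s n) :=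
    ⟨fun n => Nat.rec ⟨∅, fun P hP => absurd hP (Finset.notMem_empty _),
      fun P hP => absurd hP (Finset.notMem_empty _)⟩ (fun _ x => f x) n, fun _ => rfl⟩
  have hmono : Monotone fun n => (s n).1 := by
    refine monotone_nat_of_le_succ fun n => ?_
    show (s n).1 ⊆ (s (n + 1)).1
    rw [hs]
    exact hf1 (s n)
  have hfin : ∀ B : Finset (Sp S Sg), ∃ n, ∀ P ∈ B, (∃ m, P ∈ (s m).1) → P ∈ (s n).1 := by
    intro B
    induction B using Finset.induction_on with
    | empty => exact ⟨0, fun P hP => absurd hP (Finset.notMem_empty _)⟩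
    | insert P₀ B hP₀ ih =>
      obtain ⟨n, hn⟩ := ih
      by_cases hex : ∃ m, P₀ ∈ (s m).1
      · obtain ⟨m, hm⟩ := hex
        refine ⟨max n m, fun P hP hPm => ?_⟩
        rcases Finset.mem_insert.1 hP with e | h
        · rw [e]
          exact hmono (le_max_right n m) hm
        · exact hmono (le_max_left n m) (hn P h hPm)
      · refine ⟨n, fun P hP hPm => ?_⟩
        rcases Finset.mem_insert.1 hP with e | h
        · rw [e] at hPm
          exact absurd hPm hex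
        · exact hn P h hPm
  refine ⟨{P | ∃ n, P ∈ (s n).1}, ?_, ?_, ?_⟩
  · rintro P ⟨n, hn⟩ P' ⟨m, hm⟩ he
    exact (s (max n m)).2.1 P (hmono (le_max_left n m) hn) P' (hmono (le_max_right n m) hm) he
  · rintro P ⟨n, hn⟩
    exact (s n).2.2 P hn
  · intro T A hT φ
    obtain ⟨n, hn⟩ := hfin (T ∪ A)
    obtain ⟨P, hP, hPn, hc⟩ := hf2 (s n) φ
    have hPQ : ∃ m, P ∈ (s m).1 := by
      refine ⟨n + 1, ?_⟩
      rw [hs]
      exact hP
    refine ⟨P, hPQ, ?_, ?_, ?_⟩
    · intro h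
      exact hPn (hn P (Finset.mem_union_left _ h) hPQ)
    · intro h
      exact hPn (hn P (Finset.mem_union_right _ h) hPQ)
    · intro c hY
      refine hc c ⟨hY.hh, hY.fin, hY.inf, fun w hw hw' => hY.ev w hw fun hT' => hw' ?_⟩
      obtain ⟨P', hP', he⟩ := Finset.mem_image.1 hT'
      exact Finset.mem_image.2 ⟨P', hn P' (Finset.mem_union_left _ hP') (hT P' hP'), he⟩

end H26OD
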