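import Pool.Agent.H88.OD.Gt
import Pool.Agent.H88.OD.Gb
import Pool.Agent.H26.OD.Sg

/-!
MP_78d38b_OD (helper26): the system of functionals of the quadratic twists (definitions).
-/

set_option autoImplicit false
set_option linter.unusedSectionVars false
open scoped Classical

open WithZero NumberField IsDedekindDomain H38RT
open H38T1 (SC sc scu rep eo la si OddP)
open H76PP (Cub LC ev scm dn)
open H88OD

namespace H26OD

variable {K F L : Type} [Field K] [NumberField K] [Field F] [NumberField F] [Field L]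
  [NumberField L] [Algebra K F] [Algebra F L] {a b : K} {θ : L} {S : Ext K F L a b θ} {D : K}
  {Sg : Finset (HeightOneSpectrum (𝓞 K))}

/-- The action of the Galois group on the square classes. -/
noncomputable abbrev actSC (S : Ext K F L a b θ) : DistribMulAction (F ≃ₐ[K] F) (SC L) :=
  DistribMulAction.compHom (SC L) S.ρ

theorem Y_mono {T T' : Finset (HeightOneSpectrum (𝓞 K))} (h : T ⊆ T') {c : SC L}
    (hc : S.Y D Sg T c) : S.Y D Sg T' c :=
  ⟨hc.hh, hc.fin, hc.inf, fun w h1 h2 => hc.ev w h1 fun h3 => h2 (h h3)⟩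

theorem Y_add (hD : D ≠ 0) {T : Finset (HeightOneSpectrum (𝓞 K))} {c c' : SC L}
    (hc : S.Y D Sg T c) (hc' : S.Y D Sg T c') : S.Y D Sg T (c + c') := by
  obtain ⟨W, -, hW⟩ := exists_YG S hD Sg T
  exact (hW _).1 (W.add_mem ((hW _).2 hc) ((hW _).2 hc'))

theorem Y_zero (hD : D ≠ 0) {T : Finset (HeightOneSpectrum (𝓞 K))} : S.Y D Sg T 0 := by
  obtain ⟨W, -, hW⟩ := exists_YG S hD Sg T
  exact (hW _).1 W.zero_mem

theorem Y_neg (hD : D ≠ 0) {T : Finset (HeightOneSpectrum (𝓞 K))} {c : SC L}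
    (hc : S.Y D Sg T c) : S.Y D Sg T (-c) := by
  obtain ⟨W, -, hW⟩ := exists_YG S hD Sg T
  exact (hW _).1 (W.neg_mem ((hW _).2 hc))

/-- The data of the system: a family `Q` of special primes with the density condition. -/
structure Dat (S : Ext K F L a b θ) (D : K) (Sg : Finset (HeightOneSpectrum (𝓞 K))) where
  ok : S.Ok D Sg
  Q : Set (Sp S Sg)
  inj : ∀ P ∈ Q, ∀ P' ∈ Q, P.q = P'.q → P = P'
  ch : ∀ T A : Finset (Sp S Sg), (∀ P ∈ T, P ∈ Q) → ∀ φ : SC L →+ ZMod 2,
    ∃ P ∈ Q, P ∉ T ∧ P ∉ A ∧ ∀ c, S.Y D Sg (T.image Sp.q) c → la P.t1 c = φ c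

namespace Dat

variable (d : Dat S D Sg)

/-- The primes of `K` of a finite set of special primes. -/
noncomputable def qs (T : Finset d.Q) : Finset (HeightOneSpectrum (𝓞 K)) :=
  T.image fun P => P.1.q

theorem qs_mono {T T' : Finset d.Q} (h : T ⊆ T') : d.qs T ⊆ d.qs T' := Finset.image_subset_image h

theorem mem_qs {T : Finset d.Q} {P : d.Q} : P.1.q ∈ d.qs T ↔ P ∈ T := by
  unfold qs
  rw [Finset.mem_image]
  constructor
  · rintro ⟨P', h1, h2⟩
    have h3 : P'.1 = P.1 := d.inj _ P'.2 _ P.2 h2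
    rwa [← Subtype.ext h3]
  · exact fun h => ⟨P, h, rfl⟩

/-- The classes which satisfy the local conditions at `Sg` and which are even outside `Sg` and finitely
many primes of the family. -/
noncomputable def X : AddSubgroup (SC L) where
  carrier := {c | ∃ T : Finset d.Q, S.Y D Sg (d.qs T) c}
  zero_mem' := ⟨∅, Y_zero d.ok.ne⟩
  add_mem' := by
    rintro c c' ⟨T, hT⟩ ⟨T', hT'⟩
    exact ⟨T ∪ T', Y_add d.ok.ne (Y_mono (d.qs_mono Finset.subset_union_left) hT)
      (Y_mono (d.qs_mono Finset.subset_union_right) hT')⟩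
  neg_mem' := by
    rintro c ⟨T, hT⟩
    exact ⟨T, Y_neg d.ok.ne hT⟩

theorem mem_X {c : SC L} : c ∈ d.X ↔ ∃ T : Finset d.Q, S.Y D Sg (d.qs T) c := Iff.rfl

noncomputable instance : DistribMulAction (F ≃ₐ[K] F) d.X where
  smul g x := ⟨S.ρ g • (x : SC L), by
    obtain ⟨T, hT⟩ := x.2
    exact ⟨T, Y_smul S g hT⟩⟩
  one_smul x := by
    apply Subtype.ext
    change S.ρ 1 • (x : SC L) = x
    rw [map_one, one_smul]
  mul_smul g h x := by
    apply Subtype.ext
    change S.ρ (g * h) • (x : SC L) = S.ρ g • S.ρ h • (x : SC L)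
    rw [map_mul, mul_smul]
  smul_zero g := by
    apply Subtype.ext
    change S.ρ g • (0 : SC L) = 0
    rw [smul_zero]
  smul_add g x y := by
    apply Subtype.ext
    change S.ρ g • ((x : SC L) + (y : SC L)) = S.ρ g • (x : SC L) + S.ρ g • (y : SC L)
    rw [smul_add]

theorem coe_smul (g : F ≃ₐ[K] F) (x : d.X) : ((g • x : d.X) : SC L) = S.ρ g • (x : SC L) := rfl

/-- The first functional: the order at the place `t2`. -/
noncomputable def u (P : d.Q) : d.X →+ ZMod 2 where
  toFun x := (P.1.tr (x : SC L)).coeff 1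
  map_zero' := by
    have h := P.1.tr_add (0 : SC L) 0
    rw [add_zero] at h
    have h2 : P.1.tr (0 : SC L) = 0 := by
      have h3 := rg_two (P.1.tr (0 : SC L))
      rw [← h] at h3
      exact h3
    change (P.1.tr (0 : SC L)).coeff 1 = 0
    rw [h2]
    rfl
  map_add' x y := by
    change (P.1.tr ((x : SC L) + (y : SC L))).coeff 1 = _
    rw [P.1.tr_add, MonoidAlgebra.coeff_add, Finsupp.add_apply]

/-- The second functional. -/
noncomputable def r (P : d.Q) : d.X →+ ZMod 2 where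
  toFun x := (P.1.fl (x : SC L)).coeff 1
  map_zero' := by
    have h := P.1.fl_add d.ok.two (0 : SC L) 0
    rw [add_zero] at h
    have h2 : P.1.fl (0 : SC L) = 0 := by
      have h3 := rg_two (P.1.fl (0 : SC L))
      rw [← h] at h3
      exact h3
    change (P.1.fl (0 : SC L)).coeff 1 = 0
    rw [h2]
    rfl
  map_add' x y := by
    change (P.1.fl ((x : SC L) + (y : SC L))).coeff 1 = _
    rw [P.1.fl_add d.ok.two, MonoidAlgebra.coeff_add, Finsupp.add_apply]

theorem u_smul (P : d.Q) (g : F ≃ₐ[K] F) (x : d.X) :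
    d.u P (g • x) = (P.1.tr (x : SC L)).coeff g⁻¹ := by
  change (P.1.tr (S.ρ g • (x : SC L))).coeff 1 = _
  rw [P.1.tr_smul, coeff_single_mul, mul_one]

theorem r_smul (P : d.Q) (g : F ≃ₐ[K] F) (x : d.X) :
    d.r P (g • x) = (P.1.fl (x : SC L)).coeff g⁻¹ := by
  change (P.1.fl (S.ρ g • (x : SC L))).coeff 1 = _
  rw [P.1.fl_smul, coeff_single_mul, mul_one]

end Dat

end H26OD
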