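import Pool.Agent.H26.OD.Qc
import Pool.Agent.H26.OD.Z2
import Pool.Agent.H26.OD.Mm
import Pool.Agent.H26.OD.Rr
import Pool.Agent.H26.OD.A11
import Pool.Agent.H88.OD.Rc
import Pool.Agent.H30.OD.Nb2
import Pool.Agent.H76.SD.Sw

/-!
MP_78d38b_OD (helper26): the twist with trivial Selmer group over `F`.
-/

set_option autoImplicit false
set_option linter.unusedSectionVars false
open scoped Classical

open WithZero NumberField IsDedekindDomain H38RT
open H38T1 (SC sc scu rep eo la si OddP)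
open H76PP (Cub LC ev scm dn)
open H88OD

namespace H26OD

variable {K F L : Type} [Field K] [NumberField K] [Field F] [NumberField F] [Field L]
  [NumberField L] [Algebra K F] [Algebra F L] {a b : K} {θ : L} {S : Ext K F L a b θ} {D : K}
  {Sg : Finset (HeightOneSpectrum (𝓞 K))}

theorem Qg_mem {Q : Type} {l : List (Q × Q)} {q : Q} :
    q ∈ prs l ↔ (∃ e ∈ l, e.1 = q) ∨ ∃ e ∈ l, e.2 = q := by
  unfold prs
  rw [List.mem_toFinset, List.mem_append, List.mem_map, List.mem_map]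

theorem exists_twistZ (hok : S.Ok D Sg) {Z : Set (HeightOneSpectrum (𝓞 K))} (hZ : Rich S Z)
    (h0 : ∀ c, S.V D c → (∀ g : F ≃ₐ[K] F, S.ρ g • c = c) → c = 0)
    (A : Finset (HeightOneSpectrum (𝓞 K))) :
    ∃ δ : K, δ ≠ 0 ∧ (∀ u ∈ Sg, IsSquare (algebraMap K (u.adicCompletion K) δ)) ∧
      (∀ s : K →+* ℝ, 0 < s δ) ∧ (∀ u, u ∉ Z → u.valuation K δ = 1) ∧
      (∃ u, u ∉ Sg ∧ u ∉ A ∧ Odd (ord (u.valuation K) δ)) ∧ ∀ c, S.V (D * δ) c → c = 0 := by
  obtain ⟨Q, hQ1, hQZ, hQ2⟩ := exists_QQZ S hok.ne Sg hZ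
  let d : Dat S D Sg := ⟨hok, Q, hQ1, hQ2⟩
  have hqs : ∀ T : Finset d.Q, ∀ q ∈ d.qs T, ∃ P : Sp S Sg, P.q = q := by
    intro T q hq
    unfold Dat.qs at hq
    rw [Finset.mem_image] at hq
    obtain ⟨P, -, rfl⟩ := hq
    exact ⟨P.1, rfl⟩
  have hqc : ∀ T : Finset d.Q, (d.qs T).card = T.card := fun T =>
    Finset.card_image_of_injective T fun P P' h => Subtype.ext (d.inj _ P.2 _ P'.2 h)
  have hsys : d.sys.Ok := d.sys_ok
    (fun T => by
      obtain ⟨W, -, hW⟩ := exists_YG S hok.ne Sg (d.qs T)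
      have h1 := (H30OD.card_Yt hok (hqs T) hW).2
      rw [hqc] at h1
      refine h1.trans (le_of_eq (Nat.card_congr (Equiv.subtypeEquivRight fun c => hW c))))
    (fun T W hW hc M _ _ _ h2 => H76SD.sd_T hok (hqs T) hW (by rw [hc, hqc]) M h2)
  obtain ⟨C, hC, rc, hrc⟩ := exists_rc K Sg
  have hqinj : Function.Injective (fun P : d.Q => P.1.q) :=
    fun P P' h => Subtype.ext (d.inj _ P.2 _ P'.2 h)
  have hA : {P : d.Q | P.1.q ∈ A}.Finite := A.finite_toSet.preimage hqinj.injOn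
  have hm0 : ∀ x ∈ d.sys.Y ∅, (∀ g : F ≃ₐ[K] F, g • x = x) → x = 0 := by
    intro x hx hg
    have h1 : S.Y D Sg (d.qs ∅) (x : SC L) := d.mem_sys.1 hx
    have h2 : d.qs ∅ = ∅ := Finset.image_empty _
    rw [h2] at h1
    exact Subtype.ext (h0 (x : SC L) ((V_iff_Y S hok).2 h1)
      fun g => congrArg (Subtype.val : d.X → SC L) (hg g))
  obtain ⟨l, hl0, hlκ, hln, hlA, hlX⟩ :=
    main hsys (fun P : d.Q => rc P.1.q) hm0 hA.toFinset
  have hmem1 : ∀ e ∈ l, e.1 ∈ prs l := fun e he => Qg_mem.2 (Or.inl ⟨e, he, rfl⟩)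
  have hmem2 : ∀ e ∈ l, e.2 ∈ prs l := fun e he => Qg_mem.2 (Or.inr ⟨e, he, rfl⟩)
  obtain ⟨δ, hδ0, hδsq, hδpos, hδout, hδodd⟩ :=
    exists_prod (M := K) (Sg : Set (HeightOneSpectrum (𝓞 K))) (fun P : d.Q => P.1.q) hqinj l hln
      (fun e he hne => hrc _ _ e.1.1.out e.2.1.out (fun h => hne (hqinj h)) (hlκ e he))
  have hT : ((prs l).image (Subtype.val : d.Q → Sp S Sg)).image Sp.q = d.qs (prs l) := by
    rw [Finset.image_image]
    rfl
  refine ⟨δ, hδ0, fun u hu => hδsq u (Finset.mem_coe.2 hu), hδpos, fun u hu => ?_, ?_,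
    fun c hc => ?_⟩
  · refine hδout u fun e _ => ⟨fun h => hu ?_, fun h => hu ?_⟩
    · rw [h]
      exact hQZ _ e.1.2
    · rw [h]
      exact hQZ _ e.2.2
  · obtain ⟨e, he⟩ := List.exists_mem_of_ne_nil l hl0
    exact ⟨e.1.1.q, e.1.1.out, fun h => hlA e.1 (hmem1 e he) (hA.mem_toFinset.2 h),
      (hδodd e he).1⟩
  · obtain ⟨hY, hfl⟩ := multi_mp hok ((prs l).image (Subtype.val : d.Q → Sp S Sg)) hδ0
      (fun u hu => hδsq u (Finset.mem_coe.2 hu)) hδpos (by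
        intro u hu
        rw [hT] at hu
        refine hδout u fun e he => ⟨fun h => hu ?_, fun h => hu ?_⟩
        · rw [h]
          exact d.mem_qs.2 (hmem1 e he)
        · rw [h]
          exact d.mem_qs.2 (hmem2 e he)) (by
        intro P hP
        rw [Finset.mem_image] at hP
        obtain ⟨P', hP', rfl⟩ := hP
        rcases Qg_mem.1 hP' with ⟨e, he, rfl⟩ | ⟨e, he, rfl⟩
        · exact (hδodd e he).1
        · exact (hδodd e he).2) hc
    rw [hT] at hY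
    have hx := hlX ⟨c, prs l, hY⟩ (d.mem_sys.2 hY) (by
      intro P hP g
      change d.r P (g • _) = 0
      rw [d.r_smul, hfl P.1 (Finset.mem_image_of_mem _ hP)]
      rfl)
    exact congrArg (Subtype.val : d.X → SC L) hx

end H26OD
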