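import Pool.Agent.H26.OD.Ri
import Pool.Agent.H88.OD.Ga

/-!
ROW Nc (MP_78d38b_OD, helper26, about 200 lines): a place of `L` of degree one over `K` at which `Δ = -(4 a^3 + 27 b^2)` is a nonsquare gives a special prime.  This is the second half of the PROOF of `H76OD.exists_sp` in Pool/Agent/H76/OD/Ch.lean: copy it (from the definitions of the integral coefficients and of the discriminant; the part after `obtain ⟨w, hwB, hw2, hdeg, hla⟩ := cheb_N ...`).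
`Bd := {v | 3 ∈ v} ∪ ⋃ g ≠ 1, {v | ∃ w, dn K w = v ∧ gO (gq g) (X g) - X g ∈ w}` as there (finite: `hfinK`); the hypotheses `hδ`, `hla` here are about any integral element `δ` with `(δ : L) = image of Δ`.
-/

set_option autoImplicit false
set_option linter.unusedSectionVars false
open scoped Classical

open WithZero NumberField IsDedekindDomain H38RT
open H38T1 (SC sc scu rep eo la si OddP)
open H76PP (Cub LC ev scm dn)
open H88OD

namespace H26OD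

variable {K F L : Type} [Field K] [NumberField K] [Field F] [NumberField F] [Field L]
  [NumberField L] [Algebra K F] [Algebra F L] {a b : K} {θ : L}

theorem exists_core (S : Ext K F L a b θ) : ∃ Bd : Set (HeightOneSpectrum (𝓞 K)), Bd.Finite ∧
    ∀ (Sg : Finset (HeightOneSpectrum (𝓞 K))) (w : HeightOneSpectrum (𝓞 L)),
      dn K (dn F w) ∉ Bd → dn K (dn F w) ∉ Sg → (2 : 𝓞 L) ∉ w.asIdeal →
      (∀ x : 𝓞 L, ∃ n : 𝓞 K,
        algebraMap (𝓞 F) (𝓞 L) (algebraMap (𝓞 K) (𝓞 F) n) - x ∈ w.asIdeal) →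
      ∀ δ : 𝓞 L, (δ : L) = algebraMap F L (algebraMap K F (-(4 * a ^ 3 + 27 * b ^ 2))) →
        δ ∉ w.asIdeal → la w (sc (δ : L)) = 1 →
        ∃ P : Sp S Sg, P.t1 = w ∧ P.q = dn K (dn F w) := by
  -- integral coefficients
  obtain ⟨a₀, ha₀⟩ := H76OD.Lt_int S.ha
  obtain ⟨b₀, hb₀⟩ := H76OD.Lt_int S.hb
  obtain ⟨A, hA⟩ : ∃ A : 𝓞 F, A = algebraMap (𝓞 K) (𝓞 F) a₀ := ⟨_, rfl⟩
  obtain ⟨B, hB⟩ : ∃ B : 𝓞 F, B = algebraMap (𝓞 K) (𝓞 F) b₀ := ⟨_, rfl⟩
  have hA' : (A : F) = algebraMap K F a := by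
    rw [hA, ← ha₀]
    rfl
  have hB' : (B : F) = algebraMap K F b := by
    rw [hB, ← hb₀]
    rfl
  have hcub : Cub F L (A : F) (B : F) θ := by
    rw [hA', hB']
    exact S.cub
  obtain ⟨θ', hθ'⟩ := H76PP.theta_int hcub
  -- the discriminant
  obtain ⟨δ, hδ⟩ : ∃ δ : 𝓞 F, δ = -H76PP.dsc A B := ⟨_, rfl⟩
  have hδF : (δ : F) = algebraMap K F (-(4 * a ^ 3 + 27 * b ^ 2)) := by
    have hA'' : algebraMap (𝓞 F) F A = algebraMap K F a := hA'
    have hB'' : algebraMap (𝓞 F) F B = algebraMap K F b := hB'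
    rw [hδ]
    unfold H76PP.dsc
    simp only [map_neg, map_add, map_mul, map_pow, map_ofNat]
    rw [hA'', hB'']
  -- the bad places
  have hmove : ∀ g : F ≃ₐ[K] F, g ≠ 1 → ∃ x : 𝓞 F, H38T1.gO (gq g) x - x ≠ 0 := by
    intro g hg
    by_contra hcon
    push Not at hcon
    apply hg
    apply AlgEquiv.ext
    intro y
    obtain ⟨α, β, -, hxy⟩ := IsFractionRing.div_surjective (A := 𝓞 F) y
    have h1 : ∀ z : 𝓞 F, g (z : F) = (z : F) := by
      intro z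
      have h2 := sub_eq_zero.1 (hcon z)
      have h3 := congrArg (fun t : 𝓞 F => (t : F)) h2
      exact h3
    change g y = y
    rw [← hxy, map_div₀]
    exact congrArg₂ (· / ·) (h1 α) (h1 β)
  choose! X hX using hmove
  have hfinK : ∀ x : 𝓞 F, x ≠ 0 → {v : HeightOneSpectrum (𝓞 K) |
      ∃ w : HeightOneSpectrum (𝓞 F), dn K w = v ∧ x ∈ w.asIdeal}.Finite := by
    intro x hx
    refine ((H30MQ.fin_mem hx).image (dn K)).subset ?_
    rintro v ⟨w, rfl, hw⟩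
    exact ⟨w, hw, rfl⟩
  refine ⟨{v : HeightOneSpectrum (𝓞 K) | (3 : 𝓞 K) ∈ v.asIdeal} ∪
      ⋃ g : {g : F ≃ₐ[K] F // g ≠ 1}, {v : HeightOneSpectrum (𝓞 K) |
        ∃ w : HeightOneSpectrum (𝓞 F), dn K w = v ∧
          H38T1.gO (gq g.1) (X g.1) - X g.1 ∈ w.asIdeal}, ?_, ?_⟩
  · refine (H30MQ.fin_mem (by norm_num)).union ?_
    exact Set.finite_iUnion fun g => hfinK _ (hX g.1 g.2)
  intro Sg w hwB hwS hw2 hdeg δL hδL' hδw hδla
  obtain ⟨v, hv⟩ : ∃ v : HeightOneSpectrum (𝓞 F), v = dn F w := ⟨_, rfl⟩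
  have hmem : ∀ x : 𝓞 F, x ∈ v.asIdeal ↔ algebraMap (𝓞 F) (𝓞 L) x ∈ w.asIdeal := by
    intro x
    rw [hv]
    rfl
  have hδL : δL = algebraMap (𝓞 F) (𝓞 L) δ := by
    apply RingOfIntegers.coe_injective
    have h1 : algebraMap (𝓞 L) L (algebraMap (𝓞 F) (𝓞 L) δ) = algebraMap F L (δ : F) := rfl
    rw [h1, hδF]
    exact hδL'
  rw [← hv] at hwB hwS ⊢
  have hodd : OddP w := by
    have h3 : w.valuation L ((2 : 𝓞 L) : L) = 1 := w.valuation_eq_one_iff_notMem.mpr hw2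
    have h4 : ((2 : 𝓞 L) : L) = 2 := map_ofNat _ 2
    rw [h4] at h3
    exact h3
  obtain ⟨n, hn⟩ := hdeg θ'
  obtain ⟨t, ht⟩ : ∃ t : 𝓞 F, t = algebraMap (𝓞 K) (𝓞 F) n := ⟨_, rfl⟩
  rw [← ht] at hn
  have hroot : θ' ^ 3 + algebraMap (𝓞 F) (𝓞 L) A * θ' + algebraMap (𝓞 F) (𝓞 L) B = 0 := by
    apply RingOfIntegers.coe_injective
    have h1 := hcub.root
    simp only [map_add, map_mul, map_pow, map_zero, hθ']
    exact h1
  have hroott : t ^ 3 + A * t + B ∈ v.asIdeal := by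
    rw [hmem]
    have h1 : algebraMap (𝓞 F) (𝓞 L) (t ^ 3 + A * t + B) =
        (algebraMap (𝓞 F) (𝓞 L) t - θ') * (algebraMap (𝓞 F) (𝓞 L) t ^ 2 +
          algebraMap (𝓞 F) (𝓞 L) t * θ' + θ' ^ 2 + algebraMap (𝓞 F) (𝓞 L) A) := by
      simp only [map_add, map_mul, map_pow]
      linear_combination hroot
    rw [h1]
    exact w.asIdeal.mul_mem_right _ hn
  have htyp : ∃ t : 𝓞 F, t ^ 3 + A * t + B ∈ v.asIdeal ∧
      ∀ s : 𝓞 F, -3 * t ^ 2 - 4 * A - s ^ 2 ∉ v.asIdeal := by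
    refine ⟨t, hroott, fun s hs => ?_⟩
    have h1 : la w (sc (δL : L)) = 0 := by
      rw [H30MQ.la_iff hodd hδw]
      refine ⟨algebraMap (𝓞 F) (𝓞 L) (s * (3 * t ^ 2 + A)), ?_⟩
      rw [hδL, ← map_pow, ← map_sub, ← hmem]
      have h2 : δ - (s * (3 * t ^ 2 + A)) ^ 2 =
          (-3 * t ^ 2 - 4 * A - s ^ 2) * (3 * t ^ 2 + A) ^ 2 +
          (t ^ 3 + A * t + B) * (54 * (t ^ 3 + A * t) - 27 * (t ^ 3 + A * t + B)) := by
        rw [hδ]
        unfold H76PP.dsc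
        ring
      rw [h2]
      exact v.asIdeal.add_mem (v.asIdeal.mul_mem_right _ hs) (v.asIdeal.mul_mem_right _ hroott)
    rw [hδla] at h1
    exact one_ne_zero h1
  have hdsc : H76PP.dsc A B ∉ v.asIdeal ^ 2 := by
    intro h1
    have h2 : H76PP.dsc A B ∈ v.asIdeal := Ideal.pow_le_self two_ne_zero h1
    apply hδw
    rw [hδL, ← hmem, hδ]
    exact v.asIdeal.neg_mem h2
  have h6 : (6 : 𝓞 F) ∉ v.asIdeal := by
    intro h
    have e1 : (6 : 𝓞 F) = 2 * 3 := by norm_num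
    rw [e1] at h
    rcases v.isPrime.mem_or_mem h with h | h
    · apply hw2
      have h1 := (hmem 2).1 h
      rwa [map_ofNat] at h1
    · apply hwB
      left
      change algebraMap (𝓞 K) (𝓞 F) 3 ∈ v.asIdeal
      rw [map_ofNat]
      exact h
  obtain ⟨w₁, w₂, h2⟩ := H76MQ.exists_TwT hcub hdsc h6 htyp
  have hw1 : w = w₁ := by
    rcases h2.only w hv.symm with h | h
    · exact h
    · exfalso
      have h3 := h2.unit2 (t : F) (v.valuation_le_one t)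
      rw [← h] at h3
      have h4 := (w.valuation_lt_one_iff_mem (K := L) (algebraMap (𝓞 F) (𝓞 L) t - θ')).2 hn
      have h5 : ((algebraMap (𝓞 F) (𝓞 L) t - θ' : 𝓞 L) : L) = algebraMap F L (t : F) - θ := by
        rw [← hθ']
        change algebraMap (𝓞 L) L (algebraMap (𝓞 F) (𝓞 L) t - θ') = _
        rw [map_sub]
        rfl
      have h6 : w.valuation L ((algebraMap (𝓞 F) (𝓞 L) t - θ' : 𝓞 L) : L) < 1 := h4
      rw [h5, h3] at h6
      exact lt_irrefl _ h6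
  rw [← hw1, hA'] at h2
  refine ⟨⟨v, w, w₂, hwS, h2, ?_⟩, rfl, rfl⟩
  intro g hg
  by_contra hg1
  have h3 : gq g • v = v := by
    have h4 := H88OD.dn_smul S g w₂
    rw [hg, h2.dn2] at h4
    exact h4.symm
  obtain ⟨m, hm⟩ := hdeg (algebraMap (𝓞 F) (𝓞 L) (X g))
  have hm1 : algebraMap (𝓞 K) (𝓞 F) m - X g ∈ v.asIdeal := by
    rw [hmem, map_sub]
    exact hm
  have hm2 : H38T1.gO (gq g) (algebraMap (𝓞 K) (𝓞 F) m - X g) ∈ v.asIdeal := by
    rw [← h3]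
    change H38T1.gO (gq g)⁻¹ (H38T1.gO (gq g) (algebraMap (𝓞 K) (𝓞 F) m - X g)) ∈ v.asIdeal
    have h4 : H38T1.gO (gq g)⁻¹ (H38T1.gO (gq g) (algebraMap (𝓞 K) (𝓞 F) m - X g)) =
        algebraMap (𝓞 K) (𝓞 F) m - X g := by
      apply RingOfIntegers.ext
      rw [H38T1.gO_coe, H38T1.gO_coe]
      exact (gq g).symm_apply_apply _
    rw [h4]
    exact hm1
  have h5 : H38T1.gO (gq g) (algebraMap (𝓞 K) (𝓞 F) m) = algebraMap (𝓞 K) (𝓞 F) m := by
    apply RingOfIntegers.ext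
    rw [H38T1.gO_coe]
    exact g.commutes (m : K)
  have h6 : H38T1.gO (gq g) (X g) - X g ∈ v.asIdeal := by
    have h7 : H38T1.gO (gq g) (X g) - X g = (algebraMap (𝓞 K) (𝓞 F) m - X g) -
        H38T1.gO (gq g) (algebraMap (𝓞 K) (𝓞 F) m - X g) := by
      rw [map_sub, h5]
      ring
    rw [h7]
    exact v.asIdeal.sub_mem hm1 hm2
  apply hwB
  right
  exact Set.mem_iUnion.2 ⟨⟨g, hg1⟩, v, rfl, h6⟩

end H26OD
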