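import Pool.Agent.H26.OD.Qb
import Pool.Agent.H24.TD.Bas

/-!
ROW Qc (MP_78d38b_OD, helper26, about 150 lines): the system of functionals is `Ok`.  Use the STATEMENTS of Qb. The cardinality and the self-duality are hypotheses here, formulated in the group `SC L`.

PROOF. odd: `Nat.card (F ≃ₐ[K] F) = finrank K F` (`IsGalois.card_aut_eq_finrank`, `S.gal`), `S.odd`. two: `c + c = 0` in `SC L` (`H38T1.SC.two_smul` or similar).
For every `T` let `W` be the finite group of `exists_YG S d.ok.ne Sg (d.qs T)`. `x ↦ (x : SC L)` is a bijection from `d.sys.Y T` to `W` (mem_sys; every `c ∈ W` lies in `d.X` by `mem_X`). finY, card: from this bijection (`hcard` is about the subtype `{c // S.Y D Sg (d.qs T) c}`).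
cheb: `T A : Finset d.Q`, `φ : d.X →+ ZMod 2`. Extend `φ` to `ψ : SC L →+ ZMod 2` (`ext_fun`: make `SC L` a `ZMod 2`-module by `AddCommGroup.zmodModule`, `LinearMap.exists_extend`; see Pool/Agent/H24/TD/Emb.lean). `d.ch (T.image Subtype.val) (A.image Subtype.val) _ ψ` gives `P ∈ Q`; `q := ⟨P, _⟩`. `(T.image Subtype.val).image Sp.q = d.qs T` (`Finset.image_image`).
For `y ∈ d.sys.Y T`: `d.r q y = (P.fl y).coeff 1 = la P.t1 (S.ρ 1⁻¹ • y) + P.nu * eo P.t2 (S.ρ 1⁻¹ • y)` (definition of `fl`, `coeff_mk`, `map_one`, `one_smul`), and `eo P.t2 y = (P.tr y).coeff 1 = 0` by `tr_eq_zero` (`q ∉ T`).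
sd: `hsd` for the group `W`; `H24TD.hq_iso` with `u := d.X.subtype`, `A := d.sys.Y T`, `B := ⊥`, `A' := W`, `B' := ⊥` (action on `SC L`: `actSC S`; all stable) gives `hq G M (d.sys.Y T) ⊥ = hq G M W ⊥` for `M` and for `Du M`.
-/

set_option autoImplicit false
set_option linter.unusedSectionVars false
open scoped Classical

open WithZero NumberField IsDedekindDomain H38RT
open H38T1 (SC sc scu rep eo la si OddP)
open H76PP (Cub LC ev scm dn)
open H88OD

namespace H26OD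

variable {K F L : Type} [Field K] [NumberField K] [Field F] [NumberField F] [Field L]
  [NumberField L] [Algebra K F] [Algebra F L] {a b : K} {θ : L} {S : Ext K F L a b θ} {D : K}
  {Sg : Finset (HeightOneSpectrum (𝓞 K))}

/-- Functionals extend. -/
theorem ext_fun {V : Type} [AddCommGroup V] (h2 : ∀ x : V, x + x = 0) (X : AddSubgroup V)
    (φ : X →+ ZMod 2) : ∃ ψ : V →+ ZMod 2, ∀ x : X, ψ (x : V) = φ x := by
  let _ : Module (ZMod 2) V := AddCommGroup.zmodModule (fun x => by rw [two_nsmul]; exact h2 x)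
  let p : Submodule (ZMod 2) V := AddSubgroup.toZModSubmodule 2 X
  let χ' : p →ₗ[ZMod 2] ZMod 2 := AddMonoidHom.toZModLinearMap 2 (φ : p →+ ZMod 2)
  obtain ⟨g, hg⟩ := LinearMap.exists_extend χ'
  exact ⟨g.toAddMonoidHom, fun w => LinearMap.congr_fun hg w⟩

private theorem qc_two (x : SC L) : x + x = 0 := by
  have h := H38T1.SC.two_smul x
  rwa [two_nsmul] at h

private theorem qc_W (d : Dat S D Sg) (T : Finset d.Q) : ∃ W : AddSubgroup (SC L), Finite W ∧
    (∀ c, c ∈ W ↔ S.Y D Sg (d.qs T) c) ∧ (d.sys.Y T).map d.X.subtype = W := by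
  obtain ⟨W, h1, h2⟩ := exists_YG S d.ok.ne Sg (d.qs T)
  refine ⟨W, h1, h2, ?_⟩
  ext c
  rw [AddSubgroup.mem_map]
  constructor
  · rintro ⟨x, hx, rfl⟩
    exact (h2 _).2 (d.mem_sys.1 hx)
  · intro hc
    have h3 := (h2 c).1 hc
    exact ⟨⟨c, T, h3⟩, d.mem_sys.2 h3, rfl⟩

private theorem qc_card (d : Dat S D Sg) {T : Finset d.Q} {W : AddSubgroup (SC L)}
    (h : (d.sys.Y T).map d.X.subtype = W) : Nonempty (d.sys.Y T ≃ W) := by
  rw [← h]
  exact ⟨(AddSubgroup.equivMapOfInjective _ _ (AddSubgroup.subtype_injective _)).toEquiv⟩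

private theorem qc_hq (d : Dat S D Sg) {T : Finset d.Q} {W : AddSubgroup (SC L)}
    (h2 : ∀ c, c ∈ W ↔ S.Y D Sg (d.qs T) c) (h3 : (d.sys.Y T).map d.X.subtype = W) (M : Type)
    [AddCommGroup M] [DistribMulAction (F ≃ₐ[K] F) M] :
    H24TD.hq (F ≃ₐ[K] F) M (d.sys.Y T) ⊥ =
      @H24TD.hq (F ≃ₐ[K] F) M (SC L) _ _ (actSC S) _ _ W ⊥ := by
  let _ := actSC S
  refine H24TD.hq_iso d.X.subtype (fun g x => rfl) ?_ ?_ ?_ ?_ ?_ ?_ ?_
  · intro g x hx q hq h
    rw [smul_smul]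
    exact hx q hq (h * g)
  · intro g x hx
    rw [AddSubgroup.mem_bot] at hx ⊢
    rw [hx, smul_zero]
  · intro g c hc
    exact (h2 _).2 (Y_smul S g ((h2 _).1 hc))
  · intro g x hx
    rw [AddSubgroup.mem_bot] at hx ⊢
    rw [hx, smul_zero]
  · rw [h3]
  · rw [h3]
    exact le_sup_right
  · intro x hx
    rw [AddSubgroup.mem_bot, AddSubgroup.mem_bot]
    exact ⟨fun h => Subtype.ext h, fun h => by rw [h]; rfl⟩

theorem Dat.sys_ok (d : Dat S D Sg)
    (hcard : ∀ T : Finset d.Q,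
      2 ^ (Nat.card (F ≃ₐ[K] F) * T.card) ≤ Nat.card {c : SC L // S.Y D Sg (d.qs T) c})
    (hsd : ∀ (T : Finset d.Q) (W : AddSubgroup (SC L)), (∀ c, c ∈ W ↔ S.Y D Sg (d.qs T) c) →
      Nat.card W = 2 ^ (Nat.card (F ≃ₐ[K] F) * T.card) →
      ∀ (M : Type) [AddCommGroup M] [DistribMulAction (F ≃ₐ[K] F) M] [Finite M],
        (∀ m : M, m + m = 0) →
        @H24TD.hq (F ≃ₐ[K] F) M (SC L) _ _ (actSC S) _ _ W ⊥ =
          @H24TD.hq (F ≃ₐ[K] F) (Du M) (SC L) _ _ (actSC S) _ _ W ⊥) :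
    d.sys.Ok := by
  have hgal := S.gal
  have hfd : FiniteDimensional K F := Module.Finite.of_restrictScalars_finite ℚ K F
  refine ⟨?_, ?_, ?_, ?_, ?_, ?_⟩
  · rw [IsGalois.card_aut_eq_finrank]
    exact S.odd
  · intro x
    exact Subtype.ext (qc_two _)
  · intro T
    obtain ⟨W, h1, h2, h3⟩ := qc_W d T
    obtain ⟨e⟩ := qc_card d h3
    exact Finite.of_equiv W e.symm
  · intro T
    obtain ⟨W, h1, h2, h3⟩ := qc_W d T
    obtain ⟨e⟩ := qc_card d h3
    have h4 := hcard T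
    rw [Nat.card_congr e, Nat.card_congr (Equiv.subtypeEquivRight h2)]
    exact h4
  · intro T A φ
    obtain ⟨ψ, hψ⟩ := ext_fun qc_two d.X φ
    obtain ⟨P, hP, h1, h2, h3⟩ := d.ch (T.image Subtype.val) (A.image Subtype.val) (by
      intro P hP
      rw [Finset.mem_image] at hP
      obtain ⟨P', -, rfl⟩ := hP
      exact P'.2) ψ
    have h0 : (⟨P, hP⟩ : d.Q) ∉ T := fun h => h1 (Finset.mem_image.2 ⟨_, h, rfl⟩)
    refine ⟨⟨P, hP⟩, h0, fun h => h2 (Finset.mem_image.2 ⟨_, h, rfl⟩), fun y hy => ?_⟩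
    have h4 : S.Y D Sg (d.qs T) (y : SC L) := d.mem_sys.1 hy
    have e1 : (T.image Subtype.val).image Sp.q = d.qs T := by
      unfold Dat.qs
      rw [Finset.image_image]
      rfl
    have h5 := h3 y (by rw [e1]; exact h4)
    have h6 : P.tr (y : SC L) = 0 := d.tr_eq_zero h4 (P := ⟨P, hP⟩) h0
    have e2 : d.sys.r ⟨P, hP⟩ y = la P.t1 (S.ρ 1⁻¹ • (y : SC L)) +
      P.nu * eo P.t2 (S.ρ 1⁻¹ • (y : SC L)) := rfl
    have e3 : eo P.t2 (S.ρ 1⁻¹ • (y : SC L)) = 0 := by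
      have e4 : eo P.t2 (S.ρ 1⁻¹ • (y : SC L)) = (P.tr (y : SC L)).coeff 1 := rfl
      rw [e4, h6]
      rfl
    rw [e2, e3, mul_zero, add_zero, inv_one, map_one, one_smul, h5, hψ]
  · intro T hc M _ _ _ hM
    obtain ⟨W, h1, h2, h3⟩ := qc_W d T
    obtain ⟨e⟩ := qc_card d h3
    rw [qc_hq d h2 h3 M, qc_hq d h2 h3 (Du M)]
    exact hsd T W h2 (by rw [← Nat.card_congr e]; exact hc) M hM

end H26OD
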