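import Pool.Agent.H26.OD.Df

/-!
Row A1 (MP_78d38b_OD): the central half system.
-/

set_option autoImplicit false
open scoped Classical

namespace H26OD

theorem A1_not_conj {G : Type} [Group G] [Finite G] (hodd : Odd (Nat.card G)) {g : G}
    (hg : g ≠ 1) : ¬ IsConj g g⁻¹ := by
  intro hc
  obtain ⟨h, hh⟩ := isConj_iff.1 hc
  have h2 : h * h * g = g * (h * h) := by
    have e1 : h * g = g⁻¹ * h := by rw [← hh, inv_mul_cancel_right]
    have e2 : h * g⁻¹ = g * h := by
      have e3 : (h * g * h⁻¹)⁻¹ = g := by rw [hh, inv_inv]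
      have e4 : h * g⁻¹ * h⁻¹ = (h * g * h⁻¹)⁻¹ := by group
      rw [e3] at e4
      calc h * g⁻¹ = h * g⁻¹ * h⁻¹ * h := by group
        _ = g * h := by rw [e4]
    rw [mul_assoc, e1, ← mul_assoc, e2, mul_assoc]
  obtain ⟨m, hm⟩ := hodd.of_dvd_nat (orderOf_dvd_natCard h)
  have hcomm : Commute (h * h) g := h2
  have hpow : (h * h) ^ (m + 1) = h := by
    have e1 : (h * h) ^ (m + 1) = h ^ (2 * m + 1) * h := by
      rw [← pow_two, ← pow_mul, ← pow_succ]
      congr 1
    rw [e1, ← hm, pow_orderOf_eq_one, one_mul]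
  have h3 : Commute h g := by
    have := hcomm.pow_left (m + 1)
    rwa [hpow] at this
  have h4 : g = g⁻¹ := by
    rw [← hh, h3.eq, mul_inv_cancel_right]
  have h5 : g * g = 1 := by
    nth_rewrite 1 [h4]
    exact inv_mul_cancel g
  obtain ⟨m', hm'⟩ := hodd.of_dvd_nat (orderOf_dvd_natCard g)
  have h6 : g ^ (2 * m' + 1) = 1 := by rw [← hm', pow_orderOf_eq_one]
  rw [pow_succ, pow_mul, pow_two, h5, one_pow, one_mul] at h6
  exact hg h6

theorem half {G : Type} [Group G] [Finite G] (hodd : Odd (Nat.card G)) :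
    ∃ z : RG G, z + st z = 1 + NN G ∧ ∀ a : RG G, z * a = a * z := by
  obtain ⟨φ, hφ⟩ := exists_injective_nat (ConjClasses G)
  obtain ⟨H, hH⟩ : ∃ H : G → Prop, ∀ g, H g ↔ φ (ConjClasses.mk g) < φ (ConjClasses.mk g⁻¹) :=
    ⟨_, fun _ => Iff.rfl⟩
  have hconj : ∀ a b : G, IsConj a b → (H a ↔ H b) := by
    intro a b hab
    have e1 : ConjClasses.mk a = ConjClasses.mk b := ConjClasses.mk_eq_mk_iff_isConj.2 hab
    have e2 : ConjClasses.mk a⁻¹ = ConjClasses.mk b⁻¹ := by
      rw [ConjClasses.mk_eq_mk_iff_isConj]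
      obtain ⟨c, hc⟩ := isConj_iff.1 hab
      refine isConj_iff.2 ⟨c, ?_⟩
      rw [← hc]
      group
    rw [hH, hH, e1, e2]
  obtain ⟨z, hz⟩ : ∃ z : RG G, ∀ g, z.coeff g = if H g then 1 else 0 :=
    ⟨MonoidAlgebra.ofCoeff (Finsupp.equivFunOnFinite.symm fun g => if H g then 1 else 0),
      fun _ => rfl⟩
  refine ⟨z, ?_, ?_⟩
  · ext g
    have hone : (1 : RG G).coeff g = if 1 = g then 1 else 0 := by
      rw [← map_one (MonoidAlgebra.of (ZMod 2) G), MonoidAlgebra.of_apply,
        MonoidAlgebra.coeff_single, Finsupp.single_apply]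
    rw [MonoidAlgebra.coeff_add, Finsupp.add_apply, MonoidAlgebra.coeff_add, Finsupp.add_apply,
      coeff_st, coeff_NN, hz, hz, hone]
    by_cases hg : g = 1
    · have h1 : ¬ H 1 := by
        rw [hH, inv_one]
        exact lt_irrefl _
      rw [hg, inv_one, if_neg h1, if_pos rfl]
      decide
    · have hne : φ (ConjClasses.mk g) ≠ φ (ConjClasses.mk g⁻¹) := by
        intro e
        exact A1_not_conj hodd hg (ConjClasses.mk_eq_mk_iff_isConj.1 (hφ e))
      rw [if_neg (Ne.symm hg)]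
      rcases lt_or_gt_of_ne hne with h | h
      · have h1 : H g := (hH g).2 h
        have h2 : ¬ H g⁻¹ := by
          rw [hH, inv_inv]
          exact not_lt.2 h.le
        rw [if_pos h1, if_neg h2]
        decide
      · have h1 : ¬ H g := by
          rw [hH]
          exact not_lt.2 h.le
        have h2 : H g⁻¹ := by
          rw [hH, inv_inv]
          exact h
        rw [if_neg h1, if_pos h2]
  · intro a
    induction a using rg_induction with
    | h0 => rw [mul_zero, zero_mul]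
    | hadd a b ha hb => rw [mul_add, ha, hb, add_mul]
    | hof h =>
      ext g
      have e1 : (z * MonoidAlgebra.of (ZMod 2) G h).coeff g = z.coeff (g * h⁻¹) := by
        rw [coeff_eq_tau, ← mul_assoc, tau_mul_comm, ← mul_assoc, ← map_mul,
          coeff_eq_tau z, mul_inv_rev, inv_inv]
      have e2 : (MonoidAlgebra.of (ZMod 2) G h * z).coeff g = z.coeff (h⁻¹ * g) := by
        rw [coeff_eq_tau, ← mul_assoc, ← map_mul, coeff_eq_tau z, mul_inv_rev, inv_inv]
      rw [e1, e2, hz, hz]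
      refine if_congr (hconj _ _ (isConj_iff.2 ⟨h⁻¹, ?_⟩)) rfl rfl
      group


end H26OD
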