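import Pool.Agent.H26.OD.Df

/-!
ROW A3 (MP_78d38b_OD, about 150 lines): a self-adjoint idempotent. Paper: /team-store/H26_78d38b_A.md, 1.3.

PROOF. `I := range b` (a left ideal, `Submodule (RG G) (RG G)`). For a left ideal `P` let `P^⊥ := {a | ∀ x ∈ P, x * st a = 0}` = `{a | ∀ x ∈ P, tau (x * st a) = 0}` (`x * st a = 0` iff `tau (y * x * st a) = 0` for all `y`: `eq_zero_of_tau`, `y * x ∈ P`); it is a left
ideal: `tau (x * st (c * a)) = tau (x * st a * st c) = tau (st c * x * st a) = 0`. The form `(x, y) ↦ tau (x * st y)` is symmetric (`tau_st`, `st_mul`) and nondegenerate.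
`rad := I ⊓ I^⊥`. Maschke: `MonoidAlgebra.Submodule.exists_isCompl`-like statement (the instance needs `NeZero (Nat.card G : ZMod 2)`; see Pool/Agent/H24/TD/Sim.lean, theorem exists_inj, for the exact use) : a left ideal `J` with `rad ⊔ J = I`, `rad ⊓ J = ⊥` (take a complement `J'` of `rad` in `RG G`, `J := J' ⊓ I`, modular law).
`J ≠ ⊥`: otherwise `I = rad`, `tau (b x * st (b y)) = 0`. `J ⊓ J^⊥ = ⊥`: `x ∈ J ⊓ J^⊥` is orthogonal to `J` and to `rad ≤ I^⊥` (`x ∈ I`), so to `I`, so `x ∈ rad ⊓ J`.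
`J ⊔ J^⊥ = ⊤`: dimension over `ZMod 2` (`finrank J + finrank J^⊥ = finrank (RG G)` for the nondegenerate form; e.g. `LinearMap.BilinForm.isCompl_orthogonal_iff_disjoint`, `LinearMap.BilinForm.finrank_orthogonal`), or directly: the map `RG G → (J → ZMod 2)`, ...
`1 = f + f'` with `f ∈ J`, `f' ∈ J^⊥`. For `x ∈ J`: `x = x * f + x * f'`, `x * f' = x - x * f ∈ J ⊓ J^⊥` (both are left ideals), so `x * f' = 0`, `x = x * f`. `f * f = f`. `st f`: `x * st f' = 0` for `x ∈ J`, so `f * st f' = 0`, `f = f * st f + f * st f' = f * st f`, so `st f = f` (`st (f * st f) = f * st f`).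
`f ≠ 0` as `J = J * f ≠ 0`. `J = RG * f`. For `a`: `a * f ∈ J ≤ I`, so `a * f = b v`, `b v * f = a * f * f = a * f`.
-/

set_option autoImplicit false
open scoped Classical

namespace H26OD

theorem A3_zmod (c : ZMod 2) : c = 0 ∨ c = 1 := by
  revert c
  decide

/-- The form `(x, y) ↦ tau (x * st y)`. -/
noncomputable def A3_B (G : Type) [Group G] : LinearMap.BilinForm (ZMod 2) (RG G) :=
  LinearMap.mk₂ (ZMod 2) (fun x y => tau (x * st y))
    (fun x x' y => by rw [add_mul, tau_add])
    (fun c x y => by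
      rcases A3_zmod c with rfl | rfl
      · rw [zero_smul, zero_mul, zero_smul, tau_zero]
      · rw [one_smul, one_smul])
    (fun x y y' => by rw [st_add, mul_add, tau_add])
    (fun c x y => by
      rcases A3_zmod c with rfl | rfl
      · rw [zero_smul, st_zero, mul_zero, zero_smul, tau_zero]
      · rw [one_smul, one_smul])

theorem A3_B_apply {G : Type} [Group G] (x y : RG G) : A3_B G x y = tau (x * st y) := rfl

/-- The orthogonal left ideal. -/
noncomputable def A3_orth {G : Type} [Group G] (P : Submodule (RG G) (RG G)) :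
    Submodule (RG G) (RG G) where
  carrier := {a | ∀ x ∈ P, x * st a = 0}
  zero_mem' := by
    intro x _
    rw [st_zero, mul_zero]
  add_mem' := by
    intro a c ha hc x hx
    rw [st_add, mul_add, ha x hx, hc x hx, add_zero]
  smul_mem' := by
    intro c a ha x hx
    rw [smul_eq_mul, st_mul, ← mul_assoc, ha x hx, zero_mul]

theorem A3_mem {G : Type} [Group G] {P : Submodule (RG G) (RG G)} {a : RG G} :
    a ∈ A3_orth P ↔ ∀ x ∈ P, x * st a = 0 := Iff.rfl

theorem A3_mem_tau {G : Type} [Group G] {P : Submodule (RG G) (RG G)} {a : RG G}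
    (h : ∀ x ∈ P, tau (x * st a) = 0) : a ∈ A3_orth P := by
  intro x hx
  refine eq_zero_of_tau fun y => ?_
  rw [← mul_assoc]
  exact h _ (P.smul_mem y hx)

theorem A3_symm {G : Type} [Group G] (x y : RG G) : tau (x * st y) = tau (y * st x) := by
  rw [← tau_st (x * st y), st_mul, st_st]

theorem A3_top {G : Type} [Group G] [Finite G] (J : Submodule (RG G) (RG G))
    (h : J ⊓ A3_orth J = ⊥) : ∃ f ∈ J, ∃ f' ∈ A3_orth J, f + f' = 1 := by
  have hfin : Module.Finite (ZMod 2) (RG G) := inferInstance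
  have hr : (A3_B G).IsRefl := by
    intro x y hxy
    rw [A3_B_apply] at hxy ⊢
    rw [A3_symm, hxy]
  have hd : Disjoint (J.restrictScalars (ZMod 2))
      ((A3_B G).orthogonal (J.restrictScalars (ZMod 2))) := by
    rw [Submodule.disjoint_def]
    intro x hx hx'
    have h1 : x ∈ A3_orth J := A3_mem_tau fun y hy => hx' y hy
    have h2 : x ∈ J ⊓ A3_orth J := ⟨hx, h1⟩
    rw [h] at h2
    exact h2
  have hc := (LinearMap.BilinForm.isCompl_orthogonal_iff_disjoint hr).2 hd
  have h1 : (1 : RG G) ∈ (J.restrictScalars (ZMod 2)) ⊔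
      ((A3_B G).orthogonal (J.restrictScalars (ZMod 2))) := by
    rw [hc.sup_eq_top]
    exact Submodule.mem_top
  obtain ⟨f, hf, f', hf', e⟩ := Submodule.mem_sup.1 h1
  exact ⟨f, hf, f', A3_mem_tau fun y hy => hf' y hy, e⟩

theorem exists_f {G : Type} [Group G] [Finite G] (hodd : Odd (Nat.card G)) {V : Type}
    [AddCommGroup V] [Module (RG G) V] (b : V →ₗ[RG G] RG G) {x y : V}
    (h : tau (b x * st (b y)) ≠ 0) :
    ∃ f : RG G, f * f = f ∧ st f = f ∧ f ≠ 0 ∧ ∀ a : RG G, ∃ v : V, b v * f = a * f := by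
  have hne : NeZero (Nat.card G : ZMod 2) := by
    refine ⟨fun h0 => ?_⟩
    rw [ZMod.natCast_eq_zero_iff] at h0
    obtain ⟨k, hk⟩ := hodd
    omega
  set I : Submodule (RG G) (RG G) := LinearMap.range b with hI
  obtain ⟨J', hJ'⟩ := exists_isCompl (I ⊓ A3_orth I)
  set J : Submodule (RG G) (RG G) := J' ⊓ I with hJ
  have hsup : (I ⊓ A3_orth I) ⊔ J = I := by
    rw [hJ, ← sup_inf_assoc_of_le _ (inf_le_left : I ⊓ A3_orth I ≤ I), hJ'.sup_eq_top, top_inf_eq]
  have hinf : (I ⊓ A3_orth I) ⊓ J = ⊥ := by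
    rw [← le_bot_iff, ← hJ'.inf_eq_bot]
    exact inf_le_inf_left _ inf_le_left
  have hJI : J ≤ I := inf_le_right
  have hJ0 : J ⊓ A3_orth J = ⊥ := by
    rw [← le_bot_iff]
    intro a ha
    rw [← hinf]
    refine ⟨⟨hJI ha.1, ?_⟩, ha.1⟩
    intro z hz
    rw [← hsup] at hz
    obtain ⟨u, hu, j, hj, rfl⟩ := Submodule.mem_sup.1 hz
    have h1 : a * st u = 0 := hu.2 a (hJI ha.1)
    have h2 : u * st a = 0 := by
      have h3 := congrArg st h1
      rwa [st_mul, st_st, st_zero] at h3
    rw [add_mul, h2, ha.2 j hj, add_zero]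
  obtain ⟨f, hf, f', hf', hff⟩ := A3_top J hJ0
  have hxf : ∀ z ∈ J, z * f = z := by
    intro z hz
    have h1 : z * f' ∈ J := by
      have e : z * f' = z + z * f := by
        calc z * f' = z * f + z * f + z * f' := by rw [add_self, zero_add]
          _ = z * (f + f') + z * f := by rw [mul_add]; abel
          _ = z + z * f := by rw [hff, mul_one]
      rw [e]
      exact J.add_mem hz (J.smul_mem z hf)
    have h2 : z * f' ∈ A3_orth J := (A3_orth J).smul_mem z hf'
    have h3 : z * f' ∈ J ⊓ A3_orth J := ⟨h1, h2⟩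
    rw [hJ0, Submodule.mem_bot] at h3
    calc z * f = z * f + z * f' := by rw [h3, add_zero]
      _ = z := by rw [← mul_add, hff, mul_one]
  have hidem : f * f = f := hxf f hf
  have hst : f * st f = f := by
    have h1 : f * st f' = 0 := hf' f hf
    calc f * st f = f * st f + f * st f' := by rw [h1, add_zero]
      _ = f * st (f + f') := by rw [st_add, mul_add]
      _ = f := by rw [hff, st_one, mul_one]
  refine ⟨f, hidem, ?_, ?_, ?_⟩
  · have h1 := congrArg st hst
    rw [st_mul, st_st, hst] at h1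
    exact h1.symm
  · intro h0
    have hJb : J = ⊥ := by
      rw [← le_bot_iff]
      intro z hz
      rw [Submodule.mem_bot, ← hxf z hz, h0, mul_zero]
    rw [hJb, sup_bot_eq] at hsup
    apply h
    have h1 : b y ∈ I := ⟨y, rfl⟩
    have h2 : b x ∈ I := ⟨x, rfl⟩
    rw [← hsup] at h1
    rw [h1.2 (b x) h2, tau_zero]
  · intro a
    have h1 : a * f ∈ J := J.smul_mem a hf
    obtain ⟨v, hv⟩ := hJI h1
    exact ⟨v, by rw [hv, mul_assoc, hidem]⟩

end H26OD
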