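import Pool.Agent.H26.OD.A8

/-!
ROW A9 (MP_78d38b_OD, about 150 lines): the pair. Paper: /team-store/H26_78d38b_A.md, 3.5. Use the statements of A7, A8.

PROOF. `x ∈ Sel (S' ∪ {q₁, q₂})`, `al := u q₁ x`, `be := u q₂ x`, `y := x + al • y₁ + be • y₂` (signs do not matter: `x + x = 0`, from `add_self (1 : RG G)`). `y ∈ Y T` (`u q₁ y = al + al = 0`, `u q₂ y = 0`; for other `q ∉ T`: `q ∉ S' ∪ {q₁,q₂}`, all zero).
`cc q x = 0` for `q ∈ T` (`q ∈ S'`: `r q x = 0`; `q ∈ T \ S'`: `u q x = 0` since `q ≠ q₁, q₂` (not in `T`)). So (1) `cc q y = (al + be) * γ q` for `q ∈ T` (`map_smul`, `smul_eq_mul`).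
`r q₁ x = 0`: (2) `bh y + al * c + be * st (z + c) = 0` where `r q₁ y₁ = c`, `r q₁ y₂ = st (r q₂ y₁) = st (z + c) = st z + c` (cij, `st c = c` by ci_sym), `r q₁ y = bh y`. `r q₂ x = 0`: (3) `bh y + al * (z + c) + be * c = 0`.
`s := al + be`. (2) + (3): `al * z + be * st z = 0`. `z + st z = f` (`st (f * z₀ * f + (1 + f)) = f * st z₀ * f + (1 + f)`, `f * (z₀ + st z₀) * f = f * (1 + NN) * f = f`). So `s * z + be * f = 0`. Multiply by `(1 + f)` on the right: `z * (1 + f) = 1 + f`, `f * (1 + f) = 0`: `s * (1 + f) = 0`, `s = s * f`.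
For `v ∈ Sel S'`: `recip_cd` for `(y, v)`: `cc v = 0`, so `0 = ∑ cc q y * st (dd q v) = s * ∑ γ q * st (dd q v) = s * st (bh v)`. By `hsurj`: there is `v` with `bh v = f` (a = 1), so `s * f = 0` (`st f = f`), `s = 0`. Then `be * f = 0`, `al = be`, (2): `bh y + be * st z = 0`; times `(1 + f)`: `bh y * (1 + f) = 0`
(`st (γ q) * f = st (f * γ q) = st (γ q)`), `st z * (1 + f) = 1 + f`: `be * (1 + f) = 0`, so `be = 0`, `al = 0`, `x = y`, `cc q x = 0`: `x ∈ Sel S'` (mem_Sel_cc), `bh x = 0`.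
-/

set_option autoImplicit false
open scoped Classical

namespace H26OD

variable {G X Q : Type} [Group G] [Finite G] [AddCommGroup X] [Module (RG G) X]

theorem A9_core {R : Type*} [Ring R] (h2 : ∀ a : R, a + a = 0) {f z z' al be c B : R}
    (hf : f * f = f) (hzz : z + z' = f) (hzf : z * (1 + f) = 1 + f) (hzf' : z' * (1 + f) = 1 + f)
    (e2 : B = al * c + be * (z' + c)) (e3 : B = al * (z + c) + be * c) (hB : B * f = B)
    (hs : (al + be) * f = 0) : al = 0 ∧ be = 0 ∧ B = 0 := by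
  have e4 : al * z = be * z' := by
    have h := e3.symm.trans e2
    rw [mul_add, mul_add] at h
    rw [← sub_eq_zero] at h ⊢
    rw [← h]
    abel
  have e5 : (al + be) * z = be * f := by
    rw [add_mul, e4, ← mul_add, add_comm z' z, hzz]
  have e6 : al + be = 0 := by
    have h : (al + be) * (1 + f) = 0 := by
      rw [← hzf, ← mul_assoc, e5, mul_assoc, mul_add, mul_one, hf, h2, mul_zero]
    rw [mul_add, mul_one, hs, add_zero] at h
    exact h
  have e7 : be * f = 0 := by rw [← e5, e6, zero_mul]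
  have e8 : al = be := by
    have h : al + be + be = be := by rw [e6, zero_add]
    rw [add_assoc, h2, add_zero] at h
    exact h
  have e9 : B = be * z' := by
    rw [e2, e8, mul_add, add_comm (be * z') (be * c), ← add_assoc, h2, zero_add]
  have e10 : be = 0 := by
    have h : B * (1 + f) = 0 := by rw [mul_add, mul_one, hB, h2]
    rw [e9, mul_assoc, hzf', mul_add, mul_one, e7, add_zero] at h
    exact h
  refine ⟨e8.trans e10, e10, ?_⟩
  rw [e9, e10, zero_mul]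

theorem A9_z {f z₀ z : RG G} (hf : f * f = f) (hst : st f = f) (hNf : NN G * f = 0)
    (hz₀ : z₀ + st z₀ = 1 + NN G) (hz : z = f * z₀ * f + (1 + f)) :
    z + st z = f ∧ z * (1 + f) = 1 + f ∧ st z * (1 + f) = 1 + f := by
  have hz' : st z = f * st z₀ * f + (1 + f) := by
    rw [hz, st_add, st_add, st_mul, st_mul, hst, st_one, mul_assoc]
  have hff : f * (1 + f) = 0 := by rw [mul_add, mul_one, hf, add_self]
  have h1 : (1 + f) * (1 + f) = 1 + f := by
    rw [add_mul, one_mul, hff, add_zero]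
  refine ⟨?_, ?_, ?_⟩
  · have h2 : z + st z = f * (z₀ + st z₀) * f + ((1 + f) + (1 + f)) := by
      rw [hz', hz, mul_add, add_mul]
      abel
    rw [h2, add_self, add_zero, hz₀, mul_add, mul_one, add_mul, hf, mul_assoc, hNf, mul_zero,
      add_zero]
  · rw [hz, add_mul, mul_assoc, hff, mul_zero, zero_add, h1]
  · rw [hz', add_mul, mul_assoc, hff, mul_zero, zero_add, h1]

theorem pair_step {S : SysR G X Q} {S' T : Finset Q} (h : S' ⊆ T) {γ : Q → RG G} {f z₀ z : RG G}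
    (hf : f * f = f) (hst : st f = f) (hNf : NN G * f = 0) (hz₀ : z₀ + st z₀ = 1 + NN G)
    (hz : z = f * z₀ * f + (1 + f)) (hγ : ∀ q, f * γ q = γ q)
    (hsurj : ∃ v ∈ S.Sel S', S.bh S' T γ v = f) {q₁ q₂ : Q} {y₁ y₂ : X} (hne : q₁ ≠ q₂)
    (h₁ : S.PR S' T γ q₁ y₁) (h₂ : S.PR S' T γ q₂ y₂) (hc : S.r q₁ y₁ = S.r q₂ y₂)
    (h₁₂ : S.r q₂ y₁ = z + S.r q₁ y₁) :
    ∀ x ∈ S.Sel (insert q₁ (insert q₂ S')), x ∈ S.Sel S' ∧ S.bh S' T γ x = 0 := by
  intro x hx
  obtain ⟨hzz, hzf, hzf'⟩ := A9_z hf hst hNf hz₀ hz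
  have hux : ∀ q, q ≠ q₁ → q ≠ q₂ → q ∉ S' → S.u q x = 0 := by
    intro q h1 h2 h3
    apply hx.1 q
    rw [Finset.mem_insert, Finset.mem_insert]
    rintro (h4 | h4 | h4)
    · exact h1 h4
    · exact h2 h4
    · exact h3 h4
  have hrx1 : S.r q₁ x = 0 := hx.2 q₁ (Finset.mem_insert_self _ _)
  have hrx2 : S.r q₂ x = 0 :=
    hx.2 q₂ (Finset.mem_insert_of_mem (Finset.mem_insert_self _ _))
  have hrx : ∀ q ∈ S', S.r q x = 0 := fun q hq =>
    hx.2 q (Finset.mem_insert_of_mem (Finset.mem_insert_of_mem hq))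
  obtain ⟨al, hal⟩ : ∃ a, a = S.u q₁ x := ⟨_, rfl⟩
  obtain ⟨be, hbe⟩ : ∃ a, a = S.u q₂ x := ⟨_, rfl⟩
  obtain ⟨y, hy⟩ : ∃ y, y = x + al • y₁ + be • y₂ := ⟨_, rfl⟩
  obtain ⟨c, hcc⟩ : ∃ c, c = S.r q₁ y₁ := ⟨_, rfl⟩
  have hmap : ∀ F : X →ₗ[RG G] RG G, F y = F x + al * F y₁ + be * F y₂ := by
    intro F
    rw [hy, map_add, map_add, map_smul, map_smul, smul_eq_mul, smul_eq_mul]
  have hyT : y ∈ S.Y T := by
    intro q hq
    rw [hmap]
    by_cases h1 : q = q₁
    · rw [h1, h₁.one, h₂.mem q₁ h₁.notin hne, mul_one, mul_zero, add_zero, ← hal, add_self]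
    · by_cases h2 : q = q₂
      · rw [h2, h₂.one, h₁.mem q₂ h₂.notin hne.symm, mul_one, mul_zero, add_zero, ← hbe,
          add_self]
      · rw [hux q h1 h2 (fun h3 => hq (h h3)), h₁.mem q hq h1, h₂.mem q hq h2, mul_zero,
          mul_zero, add_zero, add_zero]
  have hccx : ∀ q ∈ T, S.cc S' q x = 0 := by
    intro q hq
    rw [SysR.cc]
    by_cases h3 : q ∈ S'
    · rw [if_pos h3]
      exact hrx q h3
    · rw [if_neg h3]
      refine hux q (fun h1 => ?_) (fun h1 => ?_) h3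
      · exact h₁.notin (h1 ▸ hq)
      · exact h₂.notin (h1 ▸ hq)
  have hccy : ∀ q ∈ T, S.cc S' q y = (al + be) * γ q := by
    intro q hq
    rw [hmap, hccx q hq, h₁.cc q hq, h₂.cc q hq, zero_add, add_mul]
  have hddy : ∀ q ∈ T, S.dd S' q y = S.dd S' q x := by
    intro q hq
    rw [hmap, h₁.dd q hq, h₂.dd q hq, mul_zero, mul_zero, add_zero, add_zero]
  have e2 : S.bh S' T γ y = al * c + be * (st z + c) := by
    rw [← h₁.bh y hyT, hmap, hrx1, zero_add, cij h h₁ h₂ hne, h₁₂, st_add, ci_sym h h₁, ← hcc]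
  have e3 : S.bh S' T γ y = al * (z + c) + be * c := by
    rw [← h₂.bh y hyT, hmap, hrx2, zero_add, h₁₂, ← hc, ← hcc]
  have hB : S.bh S' T γ y * f = S.bh S' T γ y := by
    rw [SysR.bh_apply, Finset.sum_mul]
    refine Finset.sum_congr rfl fun q _ => ?_
    have h1 : st (γ q) * f = st (γ q) := by
      conv_rhs => rw [← hγ q, st_mul, hst]
    rw [mul_assoc, h1]
  have hs : (al + be) * f = 0 := by
    obtain ⟨v, hv, hvf⟩ := hsurj
    have hv2 := (mem_Sel_cc h).1 hv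
    have h1 := recip_cd S S' T hyT hv2.1
    have h2 : ∑ q ∈ T, (S.cc S' q y * st (S.dd S' q v) + S.dd S' q y * st (S.cc S' q v)) =
        (al + be) * st (S.bh S' T γ v) := by
      rw [SysR.bh_apply, st_sum, Finset.mul_sum]
      refine Finset.sum_congr rfl fun q hq => ?_
      rw [hccy q hq, hv2.2 q hq, st_zero, mul_zero, add_zero, st_mul, st_st, mul_assoc]
    rw [h2, hvf, hst] at h1
    exact h1
  obtain ⟨h1, h2, h3⟩ := A9_core (add_self (G := G)) hf hzz hzf hzf' e2 e3 hB hs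
  have hxy : y = x := by rw [hy, h1, h2, zero_smul, zero_smul, add_zero, add_zero]
  rw [hxy] at h3 hyT
  exact ⟨(mem_Sel_cc h).2 ⟨hyT, hccx⟩, h3⟩

end H26OD
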