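import Pool.Agent.H26.OD.A2
import Pool.Agent.H26.OD.A3
import Pool.Agent.H26.OD.A9

/-!
ROW A10 (MP_78d38b_OD, about 170 lines): the induction. Paper: /team-store/H26_78d38b_A.md, 3.4-3.6. Use the statements of A1, A2, A3, A6, A7, A8, A9.

PROOF. step: `S'`, `A`, `κ` given, `NN G • v = 0` for `v ∈ Sel S'`. Claim: there are `q₁ ≠ q₂`, not in `A ∪ S'`, `κ q₁ = κ q₂`, `Sel (insert q₁ (insert q₂ S')) ≤ Sel S'`, and `<` if `Sel S' ≠ ⊥`.
If `Sel S' = ⊥` put `f := 0`, `b := 0`, `γ := 0`. Otherwise `exists_form`, `exists_b` (for `V := Sel S'`, finite: contained in `Y S'`), `exists_f`: `f`, `b' v := b v * f` (`RG G`-linear), `b' v * f = b' v`, `NN G * f = 0` (`f = b v * f` for some `v` (a = 1), `NN G * b v = b (NN G • v) = 0`).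
`T` good containing `S'` (good_exists), `γ` from `exists_gamma`; `hsurj`: `v` with `b' v = 1 * f`. `z₀` from `half`, `z := f * z₀ * f + (1 + f)`.
`seq` with `n := Nat.card (RG G) * Nat.card C + 1` and `A ∪ S'`: the map `Fin n → RG G × C`, `i ↦ (r (q i) (y i), κ (q i))` is not injective (`Finite.exists_ne_map_eq_of_infinite`-like, `Fintype.exists_ne_map_eq_of_card_lt`): `i < j` with the same value. `pair_step`. Strictness: `v` with `b' v = f ≠ 0` is in `Sel S'` but `bh v ≠ 0`.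
main_R: strong induction on `Nat.card (Sel S')` along the pairs (state: a list `l` of pairs with all entries distinct, `S' = (l.map fst ++ l.map snd).toFinset`); start with `l = []`, `Sel ∅ = Y ∅`; every step adds a pair (also one extra step at the end to have `l ≠ []`; do the step at least once). `NN G • v = 0` is inherited (`Sel` only shrinks).
-/

set_option autoImplicit false
open scoped Classical

namespace H26OD

variable {G X Q : Type} [Group G] [Finite G] [AddCommGroup X] [Module (RG G) X]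

theorem A10_finR (G : Type) [Group G] [Finite G] : Finite (RG G) := by
  refine Finite.of_injective (fun a : RG G => (fun g : G => a.coeff g : G → ZMod 2)) ?_
  intro a b h
  ext g
  exact congrFun h g

theorem A10_finSel {S : SysR G X Q} (hS : S.Ok) (S' : Finset Q) : Finite (S.Sel S') := by
  have := hS.finY S'
  refine Finite.of_injective (fun v : S.Sel S' => (⟨v.1, v.2.1⟩ : S.Y S')) ?_
  intro a b h
  exact Subtype.ext (congrArg (fun w : S.Y S' => w.1) h)

/-- The idempotent, the good set and the vector `γ`. -/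
theorem A10_data {S : SysR G X Q} (hS : S.Ok) (S' : Finset Q) (hN : ∀ v ∈ S.Sel S', NN G • v = 0) :
    ∃ (f : RG G) (T : Finset Q) (γ : Q → RG G), f * f = f ∧ st f = f ∧ NN G * f = 0 ∧ S' ⊆ T ∧
      S.Good T ∧ (∀ q, f * γ q = γ q) ∧ (∃ v ∈ S.Sel S', S.bh S' T γ v = f) ∧
      (S.Sel S' ≠ ⊥ → f ≠ 0) := by
  obtain ⟨T, hT1, hT⟩ := good_exists hS S'
  by_cases hne : S.Sel S' = ⊥
  · refine ⟨0, T, fun _ => 0, by rw [mul_zero], st_zero, by rw [mul_zero], hT1, hT,
      fun q => by rw [mul_zero], ⟨0, Submodule.zero_mem _, by rw [map_zero]⟩, fun h => absurd hne h⟩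
  · obtain ⟨B, hB⟩ := exists_form hS S' hne
    have hfin := A10_finSel hS S'
    obtain ⟨b, x, y, hxy⟩ := exists_b hS.odd (V := S.Sel S')
      (fun v => Subtype.ext (hN v.1 v.2)) B hB
    obtain ⟨f, hf, hst, hf0, hsurj⟩ := exists_f hS.odd b hxy
    set b' : S.Sel S' →ₗ[RG G] RG G := (LinearMap.toSpanSingleton (RG G) (RG G) f).comp b with hb'
    have hb1 : ∀ v, b' v = b v * f := fun v => rfl
    have hb2 : ∀ v, b' v * f = b' v := fun v => by rw [hb1, mul_assoc, hf]
    obtain ⟨v, hv⟩ := hsurj 1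
    rw [one_mul] at hv
    have hNf : NN G * f = 0 := by
      have h1 : NN G • v = 0 := Subtype.ext (hN v.1 v.2)
      have h2 : b (NN G • v) = NN G * b v := by rw [map_smul, smul_eq_mul]
      rw [h1, map_zero] at h2
      rw [← hv, ← mul_assoc, ← h2, zero_mul]
    obtain ⟨γ, hγ, hbh⟩ := exists_gamma hS hT1 hT hf hst b' hb2
    exact ⟨f, T, γ, hf, hst, hNf, hT1, hT, hγ, ⟨v.1, v.2, by rw [← hbh, hb1, hv]⟩, fun _ => hf0⟩

theorem step {S : SysR G X Q} (hS : S.Ok) {C : Type} [Finite C] (κ : Q → C) (S' A : Finset Q)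
    (hN : ∀ v ∈ S.Sel S', NN G • v = 0) :
    ∃ q₁ q₂ : Q, q₁ ≠ q₂ ∧ q₁ ∉ A ∧ q₂ ∉ A ∧ q₁ ∉ S' ∧ q₂ ∉ S' ∧ κ q₁ = κ q₂ ∧
      S.Sel (insert q₁ (insert q₂ S')) ≤ S.Sel S' ∧
      (S.Sel S' ≠ ⊥ → S.Sel (insert q₁ (insert q₂ S')) < S.Sel S') := by
  obtain ⟨f, T, γ, hf, hst, hNf, hT1, hT, hγ, hsurj, hf0⟩ := A10_data hS S' hN
  obtain ⟨z₀, hz₀, _⟩ := half (G := G) hS.odd
  have hfinR := A10_finR G
  let _ := Fintype.ofFinite (RG G × C)
  obtain ⟨q, y, hinj, hA, hPR, hr⟩ := seq hS hT1 hT γ (f * z₀ * f + (1 + f)) (A ∪ S')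
    (Fintype.card (RG G × C) + 1)
  obtain ⟨i, j, hij, hval⟩ : ∃ i j : Fin (Fintype.card (RG G × C) + 1), i < j ∧
      ((S.r (q i) (y i), κ (q i)) : RG G × C) = (S.r (q j) (y j), κ (q j)) := by
    obtain ⟨i, j, hne, he⟩ := Fintype.exists_ne_map_eq_of_card_lt
      (fun i : Fin (Fintype.card (RG G × C) + 1) => ((S.r (q i) (y i), κ (q i)) : RG G × C))
      (by rw [Fintype.card_fin]; exact Nat.lt_succ_self _)
    rcases lt_or_gt_of_ne hne with h | h
    · exact ⟨i, j, h, he⟩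
    · exact ⟨j, i, h, he.symm⟩
  have hv1 : S.r (q i) (y i) = S.r (q j) (y j) := congrArg Prod.fst hval
  have hv2 : κ (q i) = κ (q j) := congrArg Prod.snd hval
  have hne : q i ≠ q j := fun h => hij.ne (hinj h)
  have hp := pair_step hT1 hf hst hNf hz₀ rfl hγ hsurj hne (hPR i) (hPR j) hv1 (hr i j hij)
  have hle : S.Sel (insert (q i) (insert (q j) S')) ≤ S.Sel S' := fun x hx => (hp x hx).1
  refine ⟨q i, q j, hne, fun h => hA i (Finset.mem_union_left _ h), fun h => hA j (Finset.mem_union_left _ h),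
    fun h => hA i (Finset.mem_union_right _ h), fun h => hA j (Finset.mem_union_right _ h), hv2, hle, fun hb => ?_⟩
  refine lt_of_le_of_ne hle fun he => ?_
  obtain ⟨v, hv, hvf⟩ := hsurj
  rw [← he] at hv
  exact hf0 hb (hvf.symm.trans (hp v hv).2)

/-- The primes of a list of pairs. -/
noncomputable def prs {Q : Type} (l : List (Q × Q)) : Finset Q :=
  (l.map Prod.fst ++ l.map Prod.snd).toFinset

theorem A10_prs_cons {Q : Type} (e : Q × Q) (l : List (Q × Q)) :
    prs (e :: l) = insert e.1 (insert e.2 (prs l)) := by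
  ext q
  simp only [prs, List.map_cons, List.mem_toFinset, List.mem_append, List.mem_cons, Finset.mem_insert]
  tauto

/-- The state of the induction. -/
def A10_st (S : SysR G X Q) {C : Type} (κ : Q → C) (A : Finset Q) (l : List (Q × Q)) : Prop :=
  (∀ e ∈ l, κ e.1 = κ e.2) ∧ (l.map Prod.fst ++ l.map Prod.snd).Nodup ∧ (∀ q ∈ prs l, q ∉ A) ∧
    ∀ v ∈ S.Sel (prs l), NN G • v = 0

theorem A10_next {S : SysR G X Q} (hS : S.Ok) {C : Type} [Finite C] (κ : Q → C) (A : Finset Q)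
    {l : List (Q × Q)} (hl : A10_st S κ A l) :
    ∃ e : Q × Q, A10_st S κ A (e :: l) ∧ S.Sel (prs (e :: l)) ≤ S.Sel (prs l) ∧
      (S.Sel (prs l) ≠ ⊥ → S.Sel (prs (e :: l)) < S.Sel (prs l)) := by
  obtain ⟨h1, h2, h3, h4⟩ := hl
  obtain ⟨q₁, q₂, hne, ha₁, ha₂, hs₁, hs₂, hκ, hle, hlt⟩ := step hS κ (prs l) A h4
  have hp : prs ((q₁, q₂) :: l) = insert q₁ (insert q₂ (prs l)) := A10_prs_cons _ _
  refine ⟨(q₁, q₂), ⟨?_, ?_, ?_, ?_⟩, ?_, ?_⟩
  · intro e he
    rcases List.mem_cons.mp he with rfl | he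
    · exact hκ
    · exact h1 e he
  · have hperm : (((q₁, q₂) :: l).map Prod.fst ++ ((q₁, q₂) :: l).map Prod.snd).Perm
        (q₁ :: q₂ :: (l.map Prod.fst ++ l.map Prod.snd)) := by
      rw [List.map_cons, List.map_cons, List.cons_append]
      exact List.Perm.cons _ List.perm_middle
    rw [hperm.nodup_iff, List.nodup_cons, List.nodup_cons]
    have m₁ : q₁ ∉ (l.map Prod.fst ++ l.map Prod.snd) := fun h => hs₁ (List.mem_toFinset.mpr h)
    have m₂ : q₂ ∉ (l.map Prod.fst ++ l.map Prod.snd) := fun h => hs₂ (List.mem_toFinset.mpr h)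
    refine ⟨fun h => ?_, m₂, h2⟩
    rcases List.mem_cons.mp h with h | h
    · exact hne h
    · exact m₁ h
  · intro q hq
    rw [hp, Finset.mem_insert, Finset.mem_insert] at hq
    rcases hq with rfl | rfl | hq
    · exact ha₁
    · exact ha₂
    · exact h3 q hq
  · intro v hv
    rw [hp] at hv
    exact h4 v (hle hv)
  · rw [hp]
    exact hle
  · rw [hp]
    exact hlt

theorem A10_loop {S : SysR G X Q} (hS : S.Ok) {C : Type} [Finite C] (κ : Q → C) (A : Finset Q)
    (n : ℕ) : ∀ l : List (Q × Q), A10_st S κ A l → (S.Sel (prs l) : Set X).ncard ≤ n →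
      ∃ l' : List (Q × Q), A10_st S κ A l' ∧ S.Sel (prs l') = ⊥ := by
  induction n with
  | zero =>
    intro l hl hn
    have hfin := A10_finSel hS (prs l)
    have h1 : (S.Sel (prs l) : Set X).Finite := Set.toFinite _
    have h2 : (S.Sel (prs l) : Set X) = ∅ := (Set.ncard_eq_zero h1).mp (Nat.le_zero.mp hn)
    have h3 : (0 : X) ∈ (S.Sel (prs l) : Set X) := Submodule.zero_mem _
    rw [h2] at h3
    exact absurd h3 (Set.notMem_empty _)
  | succ n ih =>
    intro l hl hn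
    by_cases hb : S.Sel (prs l) = ⊥
    · exact ⟨l, hl, hb⟩
    · obtain ⟨e, he, _, hlt⟩ := A10_next hS κ A hl
      have hfin := A10_finSel hS (prs l)
      have h1 : (S.Sel (prs l) : Set X).Finite := Set.toFinite _
      have h2 : (S.Sel (prs (e :: l)) : Set X).ncard < (S.Sel (prs l) : Set X).ncard :=
        Set.ncard_lt_ncard (hlt hb) h1
      exact ih (e :: l) he (by omega)

theorem main_R {S : SysR G X Q} (hS : S.Ok) {C : Type} [Finite C] (κ : Q → C)
    (h0 : ∀ x ∈ S.Y ∅, NN G • x = 0) (A : Finset Q) :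
    ∃ l : List (Q × Q), l ≠ [] ∧ (∀ e ∈ l, κ e.1 = κ e.2) ∧
      (l.map Prod.fst ++ l.map Prod.snd).Nodup ∧ (∀ q ∈ prs l, q ∉ A) ∧ S.Sel (prs l) = ⊥ := by
  have hempty : prs ([] : List (Q × Q)) = ∅ := rfl
  have hst : A10_st S κ A [] := by
    refine ⟨fun e he => absurd he List.not_mem_nil, List.nodup_nil, fun q hq => ?_, fun v hv => ?_⟩
    · rw [hempty] at hq
      exact absurd hq (Finset.notMem_empty _)
    · rw [hempty] at hv
      exact h0 v hv.1
  obtain ⟨l, hl, hb⟩ := A10_loop hS κ A _ [] hst le_rfl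
  obtain ⟨e, he, hle, _⟩ := A10_next hS κ A hl
  rw [hb, le_bot_iff] at hle
  exact ⟨e :: l, List.cons_ne_nil _ _, he.1, he.2.1, he.2.2.1, hle⟩

end H26OD
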