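import Pool.Agent.H26.OD.A1

/-!
ROW A2 (MP_78d38b_OD, about 130 lines): a functional with a nonzero form. Paper: /team-store/H26_78d38b_A.md, 1.2. Use `half` (A1) as a statement.

PROOF. For an additive `l : V →+ ZMod 2` let `bl l : V →ₗ[RG G] RG G`, `bl l x = ∑ g, l (g⁻¹ • x) of g` (`(g⁻¹ • x)` means `of g⁻¹ • x`); linearity over `of h`: reindex; over `RG G`: `rg_induction`
(every additive map commuting with all `of h` is `RG G`-linear). `t l m x y := tau (bl l x * st (bl m y)) = ∑ g, l (of g • x) * m (of g • y)` (`tau_mul_st` of Df.lean, reindex `g ↦ g⁻¹`).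
Suppose the claim is false: `t l l x y = 0` for all `l, x, y`. Then (linearity in `l`: `t (l+m) (l+m) x y = t l l + t l m + t m l + t m m`) `t l m x y = t m l x y`, and `t m l x y = t l m y x` (commutativity of the product), so
(i) `t l m x y = t m l x y = t l m y x`.
(ii) `t l m (z • x) y = t l m x (st z • y)` for every `z : RG G` (for `z = of h`: `∑ g, l (gh x) m (g y)`, reindex `g ↦ g h⁻¹`; additive in `z`: `rg_induction`).
(iii) for central `z`: with `l' := l ∘ (z • ·)`: `t l' m x y = t l m (z • x) y` (`z * of g = of g * z`).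
So `t l m (z • x) y = t l' m x y = t m l' x y = t l' m y x [(i)] = t l m (z • y) x = t l m x (z • y)` [(i)], and by (ii) `t l m x ((z + st z) • y) = 0`. With `z` from `half`: `(1 + NN G) • y = y` by `hN`. So `t = 0`.
But `B ≠ 0`: `B x y ≠ 0` for some `x y`. `B (of g • x) (of g • y) = B x y` (`B` is `RG G`-linear into `DuR V`: `B (of g • x) (of g • y) = (of g • B x) (of g • y) = B x (st (of g) • of g • y) = B x y`, `DuR_smul`).
`V` is a finite vector space over `ZMod 2` (`Module.compHom` / `AddCommGroup.zmodModule`, `x + x = 0` from `add_self (1 : RG G)`): choose a basis `e_i` with coordinate functionals `l_i`; `B x y = ∑ i, l_i x * B (e_i) y`, `m_i := B e_i`.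
`∑ g, B (of g • x) (of g • y) = (Nat.card G) • B x y = B x y` (odd) and it is `∑ i, t l_i m_i x y = 0`. Contradiction.
-/

set_option autoImplicit false
open scoped Classical

namespace H26OD

theorem A2_coeff_of_mul {G : Type} [Group G] (h g : G) (a : RG G) :
    (MonoidAlgebra.of (ZMod 2) G h * a).coeff g = a.coeff (h⁻¹ * g) := by
  rw [coeff_eq_tau, ← mul_assoc, ← map_mul, coeff_eq_tau a, mul_inv_rev, inv_inv]

/-- the `RG G`-linear map given by an additive functional -/
noncomputable def A2_bl {G : Type} [Group G] [Finite G] {V : Type} [AddCommGroup V] [Module (RG G) V]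
    (l : V →+ ZMod 2) : V →ₗ[RG G] RG G where
  toFun x := MonoidAlgebra.ofCoeff (Finsupp.equivFunOnFinite.symm
    (fun g : G => l (MonoidAlgebra.of (ZMod 2) G g⁻¹ • x)))
  map_add' x y := by
    ext g
    rw [MonoidAlgebra.coeff_add, Finsupp.add_apply]
    change l (MonoidAlgebra.of (ZMod 2) G g⁻¹ • (x + y)) =
      l (MonoidAlgebra.of (ZMod 2) G g⁻¹ • x) + l (MonoidAlgebra.of (ZMod 2) G g⁻¹ • y)
    rw [smul_add, map_add]
  map_smul' a x := by
    rw [RingHom.id_apply, smul_eq_mul]
    induction a using rg_induction with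
    | h0 =>
      rw [zero_smul, zero_mul]
      ext g
      change l (MonoidAlgebra.of (ZMod 2) G g⁻¹ • (0 : V)) = 0
      rw [smul_zero, map_zero]
    | hadd a b ha hb =>
      rw [add_mul, ← ha, ← hb]
      ext g
      rw [MonoidAlgebra.coeff_add, Finsupp.add_apply]
      change l (MonoidAlgebra.of (ZMod 2) G g⁻¹ • ((a + b) • x)) =
        l (MonoidAlgebra.of (ZMod 2) G g⁻¹ • (a • x)) + l (MonoidAlgebra.of (ZMod 2) G g⁻¹ • (b • x))
      rw [add_smul, smul_add, map_add]
    | hof h =>
      ext g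
      rw [A2_coeff_of_mul]
      change l (MonoidAlgebra.of (ZMod 2) G g⁻¹ • (MonoidAlgebra.of (ZMod 2) G h • x)) =
        l (MonoidAlgebra.of (ZMod 2) G (h⁻¹ * g)⁻¹ • x)
      rw [← mul_smul, ← map_mul, mul_inv_rev, inv_inv]

theorem A2_bl_coeff {G : Type} [Group G] [Finite G] {V : Type} [AddCommGroup V] [Module (RG G) V]
    (l : V →+ ZMod 2) (x : V) (g : G) :
    (A2_bl (G := G) l x).coeff g = l (MonoidAlgebra.of (ZMod 2) G g⁻¹ • x) := rfl

/-- the form of two functionals -/
noncomputable def A2_T {G : Type} [Group G] [Fintype G] {V : Type} [AddCommGroup V] [Module (RG G) V]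
    (l m : V →+ ZMod 2) (x y : V) : ZMod 2 :=
  ∑ g : G, l (MonoidAlgebra.of (ZMod 2) G g • x) * m (MonoidAlgebra.of (ZMod 2) G g • y)

theorem A2_tau {G : Type} [Group G] [Fintype G] {V : Type} [AddCommGroup V] [Module (RG G) V]
    (l m : V →+ ZMod 2) (x y : V) :
    tau (A2_bl (G := G) l x * st (A2_bl (G := G) m y)) = A2_T (G := G) l m x y := by
  rw [tau_mul_st]
  simp only [A2_bl_coeff]
  exact Fintype.sum_equiv (Equiv.inv G) _
    (fun g : G => l (MonoidAlgebra.of (ZMod 2) G g • x) * m (MonoidAlgebra.of (ZMod 2) G g • y))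
    (fun g => rfl)

theorem A2_comm {G : Type} [Group G] [Fintype G] {V : Type} [AddCommGroup V] [Module (RG G) V]
    (l m : V →+ ZMod 2) (x y : V) : A2_T (G := G) l m x y = A2_T (G := G) m l y x := by
  unfold A2_T
  exact Finset.sum_congr rfl fun g _ => mul_comm _ _

theorem A2_z2 {a b : ZMod 2} (h : a + b = 0) : a = b := by
  revert a b
  decide

theorem A2_z2' (a : ZMod 2) : a + a = 0 := by
  revert a
  decide

theorem A2_addr {G : Type} [Group G] [Fintype G] {V : Type} [AddCommGroup V] [Module (RG G) V]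
    (l m : V →+ ZMod 2) (x y y' : V) :
    A2_T (G := G) l m x (y + y') = A2_T (G := G) l m x y + A2_T (G := G) l m x y' := by
  unfold A2_T
  rw [← Finset.sum_add_distrib]
  refine Finset.sum_congr rfl fun g _ => ?_
  rw [smul_add, map_add, mul_add]

theorem A2_addl {G : Type} [Group G] [Fintype G] {V : Type} [AddCommGroup V] [Module (RG G) V]
    (l m : V →+ ZMod 2) (x x' y : V) :
    A2_T (G := G) l m (x + x') y = A2_T (G := G) l m x y + A2_T (G := G) l m x' y := by
  unfold A2_T
  rw [← Finset.sum_add_distrib]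
  refine Finset.sum_congr rfl fun g _ => ?_
  rw [smul_add, map_add, add_mul]

theorem A2_zero_r {G : Type} [Group G] [Fintype G] {V : Type} [AddCommGroup V] [Module (RG G) V]
    (l m : V →+ ZMod 2) (x : V) : A2_T (G := G) l m x 0 = 0 := by
  unfold A2_T
  refine Finset.sum_eq_zero fun g _ => ?_
  rw [smul_zero, map_zero, mul_zero]

theorem A2_zero_l {G : Type} [Group G] [Fintype G] {V : Type} [AddCommGroup V] [Module (RG G) V]
    (l m : V →+ ZMod 2) (y : V) : A2_T (G := G) l m 0 y = 0 := by
  unfold A2_T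
  refine Finset.sum_eq_zero fun g _ => ?_
  rw [smul_zero, map_zero, zero_mul]

theorem A2_adj {G : Type} [Group G] [Fintype G] {V : Type} [AddCommGroup V] [Module (RG G) V]
    (l m : V →+ ZMod 2) (x y : V) (z : RG G) :
    A2_T (G := G) l m (z • x) y = A2_T (G := G) l m x (st z • y) := by
  induction z using rg_induction with
  | h0 => rw [st_zero, zero_smul, zero_smul, A2_zero_l, A2_zero_r]
  | hadd a b ha hb => rw [add_smul, st_add, add_smul, A2_addl, A2_addr, ha, hb]
  | hof h =>
    rw [st_of]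
    unfold A2_T
    refine Fintype.sum_equiv (Equiv.mulRight h) _ _ fun g => ?_
    rw [Equiv.coe_mulRight, ← mul_smul, ← mul_smul, ← map_mul, ← map_mul, mul_inv_cancel_right]

theorem A2_central {G : Type} [Group G] [Fintype G] {V : Type} [AddCommGroup V] [Module (RG G) V]
    (l m : V →+ ZMod 2) (x y : V) (z : RG G) (hz : ∀ a : RG G, z * a = a * z) :
    A2_T (G := G) (l.comp (DistribSMul.toAddMonoidHom V z)) m x y = A2_T (G := G) l m (z • x) y := by
  unfold A2_T
  refine Finset.sum_congr rfl fun g _ => ?_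
  congr 1
  change l (z • (MonoidAlgebra.of (ZMod 2) G g • x)) = l (MonoidAlgebra.of (ZMod 2) G g • (z • x))
  rw [← mul_smul, ← mul_smul, hz]

theorem A2_T_zero {G : Type} [Group G] [Fintype G] (hodd : Odd (Nat.card G)) {V : Type}
    [AddCommGroup V] [Module (RG G) V] (hN : ∀ v : V, NN G • v = 0)
    (h : ∀ (l : V →+ ZMod 2) (x y : V), A2_T (G := G) l l x y = 0)
    (l m : V →+ ZMod 2) (x y : V) : A2_T (G := G) l m x y = 0 := by
  have hsym : ∀ (l m : V →+ ZMod 2) (x y : V), A2_T (G := G) l m x y = A2_T (G := G) m l x y := by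
    intro l m x y
    apply A2_z2
    have h1 := h (l + m) x y
    have h2 : A2_T (G := G) (l + m) (l + m) x y = A2_T (G := G) l l x y + A2_T (G := G) l m x y +
        (A2_T (G := G) m l x y + A2_T (G := G) m m x y) := by
      unfold A2_T
      rw [← Finset.sum_add_distrib, ← Finset.sum_add_distrib, ← Finset.sum_add_distrib]
      refine Finset.sum_congr rfl fun g _ => ?_
      rw [AddMonoidHom.add_apply, AddMonoidHom.add_apply]
      ring
    rw [h2, h l x y, h m x y, zero_add, add_zero] at h1
    exact h1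
  obtain ⟨z, hz1, hz2⟩ := half hodd
  have h3 : A2_T (G := G) l m (z • x) y = A2_T (G := G) l m x (z • y) := by
    rw [← A2_central l m x y z hz2, hsym, A2_comm, A2_central _ m y x z hz2, A2_comm, hsym]
  have h4 := A2_adj l m x y z
  have h5 : A2_T (G := G) l m x ((z + st z) • y) = 0 := by
    rw [add_smul, A2_addr, ← h3, ← h4]
    exact A2_z2' _
  rw [hz1, add_smul, one_smul, hN, add_zero] at h5
  exact h5

theorem A2_tensor {G : Type} [Group G] {V : Type} [AddCommGroup V] [Module (RG G) V] [Finite V]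
    (B : V →ₗ[RG G] DuR V) :
    ∃ (ι : Type) (_ : Fintype ι) (l m : ι → (V →+ ZMod 2)), ∀ x y : V, B x y = ∑ i, l i x * m i y := by
  have h2 : ∀ x : V, 2 • x = 0 := by
    intro x
    rw [two_nsmul]
    have h1 : (1 : RG G) • x + (1 : RG G) • x = 0 := by
      rw [← add_smul, add_self, zero_smul]
    rwa [one_smul] at h1
  let _ : Module (ZMod 2) V := AddCommGroup.zmodModule h2
  let b := Module.finBasis (ZMod 2) V
  refine ⟨Fin (Module.finrank (ZMod 2) V), inferInstance, fun i => (b.coord i).toAddMonoidHom,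
    fun i => (B (b i) : V →+ ZMod 2), fun x y => ?_⟩
  have hc : ∀ (c : ZMod 2) (e : V), B (c • e) y = c * B e y := by
    intro c e
    have hr : c = 0 ∨ c = 1 := by revert c; decide
    rcases hr with rfl | rfl
    · rw [zero_smul, map_zero, zero_mul]
      rfl
    · rw [one_smul, one_mul]
  have hs : ∀ (s : Finset (Fin (Module.finrank (ZMod 2) V))) (f : Fin (Module.finrank (ZMod 2) V) → V),
      B (∑ i ∈ s, f i) y = ∑ i ∈ s, B (f i) y := by
    intro s f
    induction s using Finset.induction_on with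
    | empty => rw [Finset.sum_empty, Finset.sum_empty, map_zero]; rfl
    | insert a s ha ih =>
      rw [Finset.sum_insert ha, Finset.sum_insert ha, map_add, ← ih]
      rfl
  conv_lhs => rw [← b.sum_repr x]
  rw [hs]
  refine Finset.sum_congr rfl fun i _ => ?_
  rw [hc]
  rfl

theorem exists_b {G : Type} [Group G] [Finite G] (hodd : Odd (Nat.card G)) {V : Type}
    [AddCommGroup V] [Module (RG G) V] [Finite V] (hN : ∀ v : V, NN G • v = 0)
    (B : V →ₗ[RG G] DuR V) (hB : B ≠ 0) :
    ∃ (b : V →ₗ[RG G] RG G) (x y : V), tau (b x * st (b y)) ≠ 0 := by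
  by_contra hcon
  push Not at hcon
  let _ := Fintype.ofFinite G
  have hT := A2_T_zero hodd hN (fun l x y => by rw [← A2_tau]; exact hcon _ _ _)
  obtain ⟨ι, _, l, m, hlm⟩ := A2_tensor B
  apply hB
  ext x
  apply DFunLike.ext
  intro y
  have h1 : ∀ g : G, B (MonoidAlgebra.of (ZMod 2) G g • x) (MonoidAlgebra.of (ZMod 2) G g • y) = B x y := by
    intro g
    have e1 : B (MonoidAlgebra.of (ZMod 2) G g • x) = MonoidAlgebra.of (ZMod 2) G g • B x :=
      LinearMap.map_smul B _ _
    rw [e1, DuR_smul, st_of, ← mul_smul, ← map_mul, inv_mul_cancel, map_one, one_smul]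
  have h2 : ∑ g : G, B (MonoidAlgebra.of (ZMod 2) G g • x) (MonoidAlgebra.of (ZMod 2) G g • y) =
      ∑ i, A2_T (G := G) (l i) (m i) x y := by
    unfold A2_T
    rw [Finset.sum_comm]
    exact Finset.sum_congr rfl fun g _ => hlm _ _
  rw [Finset.sum_congr rfl (fun g _ => h1 g), Finset.sum_const, Finset.card_univ,
    Finset.sum_eq_zero (fun i _ => hT (l i) (m i) x y), nsmul_eq_mul] at h2
  have h3 : ((Fintype.card G : ℕ) : ZMod 2) = 1 := by
    rw [← Nat.card_eq_fintype_card]
    exact ZMod.natCast_eq_one_iff_odd.2 hodd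
  rw [h3, one_mul] at h2
  exact h2

end H26OD
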