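import Pool.Agent.H26.OD.Df
import Pool.Agent.H24.TD.Sim

/-!
ROW A4 (MP_78d38b_OD, about 150 lines): counting homomorphisms over `RG G`, `G` of odd order. Paper: /team-store/H26_78d38b_A.md, 1.4.

PROOFS. See Pool/Agent/H24/TD/Sim.lean (`Sim_card_prod`, `Sim_card_congr`, the instance for Maschke in `exists_inj`) - import it.
hc_mul: `A'` has a complement `C` in `A` (Maschke), `C ≃ A ⧸ A'`, `A ≃ A' × C`.
hc_R: `M →ₗ[RG G] RG G` is in bijection with `M →+ ZMod 2` (coefficient of one; inverse `l ↦ (x ↦ ∑ g, l (of g⁻¹ • x) of g)`), and `Nat.card (M →+ ZMod 2) = Nat.card M` for a finite `M` killed by two (`ZMod 2`-vector space of finite dimension: `M →+ ZMod 2` = dual space: `Subspace.dual_finrank_eq`, `Module.card_eq_pow_finrank`; `x + x = 0` in `M` from `add_self (1 : RG G)`).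
hc_pi: `M →ₗ (ι → RG G)` is in bijection with `ι → (M →ₗ RG G)`.
du_du: evaluation `x ↦ (φ ↦ φ x)` is `RG G`-linear, injective (functionals separate points), cardinalities agree.
hc_swap: `Nat.card (V →ₗ W) > 1 → Nat.card (W →ₗ V) > 1`, i.e. a nonzero `ψ : W → V` gives a nonzero `V → W`: `W = ker ψ ⊕ C`, `ψ : C ≃ ψ(C) = range ψ`, `V = range ψ ⊕ D`, `V → range ψ ≃ C ⊂ W` is not zero.
-/

set_option autoImplicit false
open scoped Classical

namespace H26OD

variable {G : Type} [Group G] [Finite G]

omit [Group G] [Finite G] in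
theorem A4_ne (hodd : Odd (Nat.card G)) : NeZero (Nat.card G : ZMod 2) := by
  refine ⟨fun h0 => ?_⟩
  rw [ZMod.natCast_eq_zero_iff] at h0
  obtain ⟨k, hk⟩ := hodd
  omega

theorem hc_mul (hodd : Odd (Nat.card G)) {M A : Type} [AddCommGroup M] [Module (RG G) M]
    [AddCommGroup A] [Module (RG G) A] (A' : Submodule (RG G) A) :
    Nat.card (M →ₗ[RG G] A) = Nat.card (M →ₗ[RG G] A') * Nat.card (M →ₗ[RG G] (A ⧸ A')) := by
  have hne := A4_ne hodd
  obtain ⟨C, hC⟩ := exists_isCompl A'
  rw [H24TD.Sim_card_prod (M := M) (Submodule.prodEquivOfIsCompl A' C hC),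
    H24TD.Sim_card_congr (M := M) (Submodule.quotientEquivOfIsCompl A' C hC)]

omit [Finite G] in
theorem A4_add_self {M : Type} [AddCommGroup M] [Module (RG G) M] (x : M) : x + x = 0 := by
  have h := add_self (1 : RG G)
  have h2 : ((1 : RG G) + 1) • x = 0 := by rw [h, zero_smul]
  rw [add_smul, one_smul] at h2
  exact h2

theorem card_du {M : Type} [AddCommGroup M] [Module (RG G) M] [Finite M] :
    Nat.card (DuR M) = Nat.card M := by
  let iM : Module (ZMod 2) M :=
    AddCommGroup.zmodModule (fun x => by rw [two_nsmul]; exact A4_add_self (G := G) x)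
  have h1 : Nat.card (DuR M) = Nat.card (Module.Dual (ZMod 2) M) :=
    Nat.card_congr (AddMonoidHom.toZModLinearMapEquiv (M := M) (M₁ := ZMod 2) 2).toEquiv
  rw [h1]
  have hf : Module.Finite (ZMod 2) M := Module.Finite.of_finite
  rw [Module.natCard_eq_pow_finrank (K := ZMod 2) (V := M),
    Module.natCard_eq_pow_finrank (K := ZMod 2) (V := Module.Dual (ZMod 2) M),
    Subspace.dual_finrank_eq]

omit [Finite G] in
theorem A4_coeff_mul (g h : G) (a : RG G) :
    (MonoidAlgebra.of (ZMod 2) G h * a).coeff g = a.coeff (h⁻¹ * g) := by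
  rw [coeff_eq_tau, coeff_eq_tau a, ← mul_assoc, ← map_mul, mul_inv_rev, inv_inv]

/-- The linear map with given coefficient functional. -/
noncomputable def A4_inv {M : Type} [AddCommGroup M] [Module (RG G) M] (l : M →+ ZMod 2) :
    M →ₗ[RG G] RG G where
  toFun x := MonoidAlgebra.ofCoeff (Finsupp.equivFunOnFinite.symm
    (fun g => l (MonoidAlgebra.of (ZMod 2) G g⁻¹ • x)))
  map_add' x y := by
    ext g
    rw [MonoidAlgebra.coeff_add, Finsupp.add_apply]
    change l _ = l _ + l _
    rw [smul_add, map_add]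
  map_smul' a x := by
    rw [RingHom.id_apply, smul_eq_mul]
    induction a using rg_induction with
    | h0 =>
      ext g
      change l _ = _
      rw [zero_smul, smul_zero, map_zero, zero_mul]
      rfl
    | hadd a b ha hb =>
      rw [add_mul, ← ha, ← hb]
      ext g
      rw [MonoidAlgebra.coeff_add, Finsupp.add_apply]
      change l _ = l _ + l _
      rw [add_smul, smul_add, map_add]
    | hof h =>
      ext g
      rw [A4_coeff_mul]
      change l _ = l _
      rw [← mul_smul, ← map_mul, mul_inv_rev, inv_inv]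

theorem A4_inv_coeff {M : Type} [AddCommGroup M] [Module (RG G) M] (l : M →+ ZMod 2) (x : M)
    (g : G) : (A4_inv l x).coeff g = l (MonoidAlgebra.of (ZMod 2) G g⁻¹ • x) := rfl

theorem hc_R {M : Type} [AddCommGroup M] [Module (RG G) M] [Finite M] :
    Nat.card (M →ₗ[RG G] RG G) = Nat.card M := by
  rw [← card_du (G := G) (M := M)]
  refine Nat.card_congr
    { toFun := fun f =>
        ({ toFun := fun x => tau (f x)
           map_zero' := by rw [map_zero, tau_zero]
           map_add' := fun x y => by rw [map_add, tau_add] } : M →+ ZMod 2)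
      invFun := fun l => A4_inv (G := G) (l : M →+ ZMod 2)
      left_inv := fun f => ?_
      right_inv := fun l => ?_ }
  · refine LinearMap.ext fun x => ?_
    ext g
    rw [A4_inv_coeff, coeff_eq_tau (f x)]
    change tau (f _) = _
    rw [map_smul, smul_eq_mul]
  · refine AddMonoidHom.ext fun x => ?_
    have key : ∀ l : M →+ ZMod 2, tau (A4_inv (G := G) l x) = l x := by
      intro l
      rw [tau, A4_inv_coeff, inv_one, map_one, one_smul]
    exact key l

theorem hc_pi {M ι : Type} [Finite ι] [AddCommGroup M] [Module (RG G) M] [Finite M] :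
    Nat.card (M →ₗ[RG G] (ι → RG G)) = Nat.card M ^ Nat.card ι := by
  rw [← hc_R (G := G) (M := M), ← Nat.card_fun]
  refine Nat.card_congr
    { toFun := fun f i => (LinearMap.proj i).comp f
      invFun := fun f => LinearMap.pi f
      left_inv := fun f => ?_
      right_inv := fun f => ?_ }
  · refine LinearMap.ext fun x => ?_
    rfl
  · refine funext fun i => LinearMap.ext fun x => ?_
    rfl

theorem A4_sep {M : Type} [AddCommGroup M] [Module (RG G) M] (x : M)
    (h : ∀ φ : M →+ ZMod 2, φ x = 0) : x = 0 := by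
  let iM : Module (ZMod 2) M :=
    AddCommGroup.zmodModule (fun x => by rw [two_nsmul]; exact A4_add_self (G := G) x)
  rw [← Module.forall_dual_apply_eq_zero_iff (ZMod 2)]
  intro φ
  exact h φ.toAddMonoidHom

/-- Evaluation. -/
noncomputable def A4_ev {M : Type} [AddCommGroup M] [Module (RG G) M] :
    M →ₗ[RG G] DuR (DuR M) where
  toFun x := ({ toFun := fun φ : DuR M => φ x
                map_zero' := rfl
                map_add' := fun φ ψ => rfl } : DuR M →+ ZMod 2)
  map_add' x y := by
    apply DFunLike.ext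
    intro φ
    exact map_add φ x y
  map_smul' a x := by
    apply DFunLike.ext
    intro φ
    exact show φ (a • x) = φ (st (st a) • x) by rw [st_st]

theorem du_du {M : Type} [AddCommGroup M] [Module (RG G) M] [Finite M] :
    Nonempty (M ≃ₗ[RG G] DuR (DuR M)) := by
  have hinj : Function.Injective (A4_ev (G := G) (M := M)) := by
    rw [injective_iff_map_eq_zero]
    intro x hx
    refine A4_sep (G := G) x fun φ => ?_
    exact DFunLike.congr_fun hx φ
  refine ⟨LinearEquiv.ofBijective A4_ev
    (Function.Injective.bijective_of_nat_card_le hinj ?_)⟩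
  rw [card_du (G := G) (M := DuR M), card_du (G := G) (M := M)]

theorem hc_swap (hodd : Odd (Nat.card G)) {V W : Type} [AddCommGroup V] [Module (RG G) V]
    [AddCommGroup W] [Module (RG G) W] (ψ : W →ₗ[RG G] V) (h : ψ ≠ 0) :
    ∃ φ : V →ₗ[RG G] W, φ ≠ 0 := by
  have hne := A4_ne hodd
  obtain ⟨C, hC⟩ := exists_isCompl (LinearMap.ker ψ)
  obtain ⟨D, hD⟩ := exists_isCompl (LinearMap.range ψ)
  let e1 := Submodule.quotientEquivOfIsCompl (LinearMap.ker ψ) C hC
  let e2 := ψ.quotKerEquivRange
  let π := Submodule.projectionOnto (LinearMap.range ψ) D hD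
  refine ⟨C.subtype.comp (e1.toLinearMap.comp (e2.symm.toLinearMap.comp π)), fun h0 => h ?_⟩
  refine LinearMap.ext fun w => ?_
  have h1 := DFunLike.congr_fun h0 (ψ w)
  have h2 : π (ψ w) = ⟨ψ w, LinearMap.mem_range_self ψ w⟩ :=
    Submodule.projectionOnto_apply_left hD ⟨ψ w, LinearMap.mem_range_self ψ w⟩
  have h3 : e1 (e2.symm (π (ψ w))) = 0 := Subtype.ext h1
  rw [map_eq_zero_iff e1 e1.injective, map_eq_zero_iff e2.symm e2.symm.injective, h2] at h3
  exact congrArg Subtype.val h3

end H26OD
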