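import Pool.Agent.H26.OD.A4

/-!
ROW A5 (MP_78d38b_OD, about 130 lines): a nonzero invariant form on the Selmer group. Paper: /team-store/H26_78d38b_A.md, 2.4. Use the statements of A4.

PROOF. `h M A := Nat.card (M →ₗ[RG G] A)`. `A := range c ≤ (ι → RG G)`. `Y ⧸ V ≃ range c` (`hV`: `V = ker c`), so `h M Y = h M V * h M (range c)` (hc_mul). `(ι → RG G) ⧸ range c ≃ DuR V`: the map `a ↦ (v ↦ tau (∑ i, a i * st (d v i)))` is `RG G`-linear into `DuR V`
(`tau (r * w) = tau (w * r)`, `d (st r • v) i = st r * d v i`), its kernel is `range c` (`rng`; `tau (∑ a_i st (d v i)) = 0` for all `v ∈ V` implies `∑ a_i st (d v i) = 0`: `eq_zero_of_tau` and stability of `V`), it is onto by counting or: `d` is injective on `V`, so every functional on `V` is `μ ∘ d` with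
`μ : (ι → RG G) → ZMod 2` additive (extension of functionals of `ZMod 2`-vector spaces) and every such `μ` is `a ↦ ∑ i, tau (a i * st (γ i))`. (Only the cardinality is needed: `h M (DuR V)`; an isomorphism is needed.)
So `h M Y * h M (DuR V) = h M V * h M (range c) * h M (DuR V) = h M V * h M (ι → RG G) = h M V * (card M) ^ card ι` (hc_pi). Take `M = V` and `M = DuR V` (`card_du`), `sd V`: `h V Y = h (DuR V) Y`. All numbers are positive (finite sets of maps). Hence
`h V (DuR V) * h (DuR V) V = h V V * h (DuR V) (DuR V)`. `h V V ≥ 2`, `h (DuR V) (DuR V) ≥ 2` as `V ≠ 0` (identity and zero). So one of the factors on the left is at least two. If `h V (DuR V) ≥ 2` there is a nonzero `B`. If `h (DuR V) V ≥ 2` use `hc_swap`.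
-/

set_option autoImplicit false
open scoped Classical

namespace H26OD

/-- Composition with an isomorphism. -/
private theorem A5_congr {G : Type} [Group G] {M A B : Type} [AddCommGroup M] [Module (RG G) M]
    [AddCommGroup A] [Module (RG G) A] [AddCommGroup B] [Module (RG G) B] (e : A ≃ₗ[RG G] B) :
    Nat.card (M →ₗ[RG G] A) = Nat.card (M →ₗ[RG G] B) := by
  refine Nat.card_congr ⟨fun f => e.toLinearMap ∘ₗ f, fun f => e.symm.toLinearMap ∘ₗ f, ?_, ?_⟩
  · intro f
    ext x
    simp
  · intro f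
    ext x
    simp

private theorem A5_fin {G : Type} [Group G] (M A : Type) [AddCommGroup M] [Module (RG G) M]
    [AddCommGroup A] [Module (RG G) A] [Finite M] [Finite A] : Finite (M →ₗ[RG G] A) :=
  Finite.of_injective (fun f : M →ₗ[RG G] A => (f : M → A)) DFunLike.coe_injective

private theorem A5_pos {G : Type} [Group G] (M A : Type) [AddCommGroup M] [Module (RG G) M]
    [AddCommGroup A] [Module (RG G) A] [Finite M] [Finite A] : 0 < Nat.card (M →ₗ[RG G] A) := by
  have := A5_fin (G := G) M A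
  exact Nat.card_pos

private theorem A5_id {G : Type} [Group G] (M : Type) [AddCommGroup M] [Module (RG G) M]
    [Finite M] [Nontrivial M] : 2 ≤ Nat.card (M →ₗ[RG G] M) := by
  have := A5_fin (G := G) M M
  have h : Nontrivial (M →ₗ[RG G] M) := by
    obtain ⟨x, hx⟩ := exists_ne (0 : M)
    refine ⟨LinearMap.id, 0, fun h => hx ?_⟩
    have := LinearMap.congr_fun h x
    exact this
  exact Finite.one_lt_card_iff_nontrivial.2 h

private theorem A5_smul {G ι : Type} [Group G] {Y : Type} [AddCommGroup Y] [Module (RG G) Y]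
    [Fintype ι] (d : Y →ₗ[RG G] (ι → RG G)) (a : ι → RG G) (r : RG G) (v : Y) :
    ∑ i, a i * st (d (r • v) i) = (∑ i, a i * st (d v i)) * st r := by
  rw [Finset.sum_mul]
  refine Finset.sum_congr rfl fun i _ => ?_
  rw [map_smul, Pi.smul_apply, smul_eq_mul, st_mul, mul_assoc]

/-- The map to the dual module. -/
private noncomputable def A5_phi {G ι : Type} [Group G] {Y : Type} [AddCommGroup Y]
    [Module (RG G) Y] [Fintype ι] (V : Submodule (RG G) Y) (d : Y →ₗ[RG G] (ι → RG G)) :
    (ι → RG G) →ₗ[RG G] DuR V where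
  toFun a := (⟨⟨fun v => tau (∑ i, a i * st (d v i)), by
      simp [st_zero, tau_zero]⟩, by
      intro v w
      change tau (∑ i, a i * st (d (v + w : Y) i)) = _
      rw [map_add, ← tau_add, ← Finset.sum_add_distrib]
      congr 1
      refine Finset.sum_congr rfl fun i _ => ?_
      rw [Pi.add_apply, st_add, mul_add]⟩ : V →+ ZMod 2)
  map_add' a b := by
    apply DFunLike.ext
    intro v
    change tau (∑ i, (a + b) i * st (d v i)) = tau (∑ i, a i * st (d v i)) +
      tau (∑ i, b i * st (d v i))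
    rw [← tau_add, ← Finset.sum_add_distrib]
    congr 1
    refine Finset.sum_congr rfl fun i _ => ?_
    rw [Pi.add_apply, add_mul]
  map_smul' r a := by
    apply DFunLike.ext
    intro v
    change tau (∑ i, (r • a) i * st (d v i)) = tau (∑ i, a i * st (d ((st r • v : V) : Y) i))
    rw [Submodule.coe_smul, A5_smul, st_st, ← tau_mul_comm, Finset.mul_sum]
    congr 1
    refine Finset.sum_congr rfl fun i _ => ?_
    rw [Pi.smul_apply, smul_eq_mul, mul_assoc]

private theorem A5_phi_apply {G ι : Type} [Group G] {Y : Type} [AddCommGroup Y]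
    [Module (RG G) Y] [Fintype ι] (V : Submodule (RG G) Y) (d : Y →ₗ[RG G] (ι → RG G))
    (a : ι → RG G) (v : V) : A5_phi V d a v = tau (∑ i, a i * st (d v i)) := rfl

/-- The kernel. -/
private theorem A5_ker {G ι : Type} [Group G] {Y : Type} [AddCommGroup Y]
    [Module (RG G) Y] [Fintype ι] (V : Submodule (RG G) Y) (c d : Y →ₗ[RG G] (ι → RG G))
    (rng : ∀ a : ι → RG G, (∀ v ∈ V, ∑ i, a i * st (d v i) = 0) ↔ ∃ y, c y = a) :
    LinearMap.ker (A5_phi V d) = LinearMap.range c := by
  ext a
  rw [LinearMap.mem_ker, LinearMap.mem_range, ← rng a]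
  constructor
  · intro h v hv
    apply eq_zero_of_tau
    intro x
    have h1 : A5_phi V d a (st x • (⟨v, hv⟩ : V)) = 0 := by rw [h]; rfl
    rw [A5_phi_apply, Submodule.coe_smul, A5_smul, st_st] at h1
    rw [← tau_mul_comm]
    exact h1
  · intro h
    apply DFunLike.ext
    intro v
    rw [A5_phi_apply, h v v.2]
    rfl

/-- Every additive functional on `ι → RG G` is given by an element. -/
private theorem A5_repr {G ι : Type} [Group G] [Finite G] [Fintype ι]
    (μ : (ι → RG G) →+ ZMod 2) : ∃ a : ι → RG G, ∀ w, μ w = tau (∑ i, a i * st (w i)) := by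
  let _ := Fintype.ofFinite G
  refine ⟨fun i => MonoidAlgebra.ofCoeff (Finsupp.equivFunOnFinite.symm
    (fun g => μ (Pi.single i (MonoidAlgebra.of (ZMod 2) G g)))), fun w => ?_⟩
  have h1 : ∀ (i : ι) (x : RG G), μ (Pi.single i x) =
      ∑ g : G, μ (Pi.single i (MonoidAlgebra.of (ZMod 2) G g)) * x.coeff g := by
    intro i x
    induction x using rg_induction with
    | h0 =>
      rw [Pi.single_zero, map_zero]
      exact (Finset.sum_eq_zero fun g _ => mul_zero _).symm
    | hadd x y hx hy =>
      rw [Pi.single_add, map_add, hx, hy, ← Finset.sum_add_distrib]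
      refine Finset.sum_congr rfl fun g _ => ?_
      rw [MonoidAlgebra.coeff_add, Finsupp.add_apply, mul_add]
    | hof h =>
      rw [Finset.sum_eq_single h]
      · rw [MonoidAlgebra.of_apply, MonoidAlgebra.coeff_single, Finsupp.single_apply, if_pos rfl,
          mul_one]
      · intro g _ hg
        have h3 : (MonoidAlgebra.of (ZMod 2) G h).coeff g = 0 := by
          rw [MonoidAlgebra.of_apply, MonoidAlgebra.coeff_single, Finsupp.single_apply,
            if_neg (Ne.symm hg)]
        rw [h3, mul_zero]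
      · intro h2
        exact absurd (Finset.mem_univ _) h2
  have h2 : ∀ s : Finset ι, ∀ f : ι → RG G, tau (∑ i ∈ s, f i) = ∑ i ∈ s, tau (f i) := by
    intro s f
    induction s using Finset.induction_on with
    | empty => rw [Finset.sum_empty, Finset.sum_empty, tau_zero]
    | insert a s ha ih => rw [Finset.sum_insert ha, Finset.sum_insert ha, tau_add, ih]
  rw [h2]
  conv_lhs => rw [← Finset.univ_sum_single w]
  rw [map_sum]
  refine Finset.sum_congr rfl fun i _ => ?_
  rw [tau_mul_st, h1]
  rfl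

/-- The map to the dual module is onto. -/
private theorem A5_surj {G ι : Type} [Group G] [Finite G] {Y : Type} [AddCommGroup Y]
    [Module (RG G) Y] [Fintype ι] (V : Submodule (RG G) Y) (d : Y →ₗ[RG G] (ι → RG G))
    (inj : ∀ v ∈ V, d v = 0 → v = 0) : Function.Surjective (A5_phi V d) := by
  intro φ
  have two : ∀ v : V, 2 • v = 0 := by
    intro v
    have h : (1 : RG G) + 1 = 0 := add_self 1
    have h2 := congrArg (fun r : RG G => r • v) h
    simp only [add_smul, one_smul, zero_smul] at h2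
    rw [two_nsmul, h2]
  let _ : Module (ZMod 2) V := AddCommGroup.zmodModule two
  let D : V →ₗ[ZMod 2] (ι → RG G) :=
    AddMonoidHom.toZModLinearMap 2 (AddMonoidHom.mk' (fun v : V => d v) (fun v w => by
      rw [Submodule.coe_add, map_add]))
  have hD : LinearMap.ker D = ⊥ := by
    rw [LinearMap.ker_eq_bot']
    intro v hv
    have : d v = 0 := hv
    exact Subtype.ext (inj v v.2 this)
  obtain ⟨g, hg⟩ := LinearMap.exists_leftInverse_of_injective D hD
  obtain ⟨a, ha⟩ := A5_repr (G := G) (ι := ι)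
    ((φ : V →+ ZMod 2).comp g.toAddMonoidHom)
  refine ⟨a, ?_⟩
  apply DFunLike.ext
  intro v
  rw [A5_phi_apply, ← ha]
  have h3 : g (D v) = v := by
    have := LinearMap.congr_fun hg v
    exact this
  change φ (g (D v)) = φ v
  rw [h3]

/-- Counting. -/
private theorem A5_count {G : Type} [Group G] [Finite G] (hodd : Odd (Nat.card G)) {Y ι : Type}
    [Fintype ι] [AddCommGroup Y] [Module (RG G) Y] [Finite Y] (V : Submodule (RG G) Y)
    (c d : Y →ₗ[RG G] (ι → RG G)) (hV : ∀ y, y ∈ V ↔ c y = 0) (inj : ∀ v ∈ V, d v = 0 → v = 0)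
    (rng : ∀ a : ι → RG G, (∀ v ∈ V, ∑ i, a i * st (d v i) = 0) ↔ ∃ y, c y = a)
    (M : Type) [AddCommGroup M] [Module (RG G) M] [Finite M] :
    Nat.card (M →ₗ[RG G] Y) * Nat.card (M →ₗ[RG G] DuR V) =
      Nat.card (M →ₗ[RG G] V) * Nat.card M ^ Nat.card ι := by
  have hker : V = LinearMap.ker c := by
    ext y
    rw [hV, LinearMap.mem_ker]
  have h1 := hc_mul hodd (M := M) V
  have h2 : Nat.card (M →ₗ[RG G] (Y ⧸ V)) = Nat.card (M →ₗ[RG G] LinearMap.range c) :=
    A5_congr ((Submodule.quotEquivOfEq _ _ hker).trans c.quotKerEquivRange)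
  have h3 := hc_mul hodd (M := M) (A := ι → RG G) (LinearMap.range c)
  have h4 : Nat.card (M →ₗ[RG G] ((ι → RG G) ⧸ LinearMap.range c)) =
      Nat.card (M →ₗ[RG G] DuR V) :=
    A5_congr ((Submodule.quotEquivOfEq _ _ (A5_ker V c d rng).symm).trans
      ((A5_phi V d).quotKerEquivOfSurjective (A5_surj V d inj)))
  have h5 := hc_pi (G := G) (M := M) (ι := ι)
  rw [h1, h2, mul_assoc, ← h4, ← h3, h5]

theorem exists_B {G : Type} [Group G] [Finite G] (hodd : Odd (Nat.card G)) {Y ι : Type} [Fintype ι]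
    [AddCommGroup Y] [Module (RG G) Y] [Finite Y] (V : Submodule (RG G) Y)
    (c d : Y →ₗ[RG G] (ι → RG G)) (hV : ∀ y, y ∈ V ↔ c y = 0) (inj : ∀ v ∈ V, d v = 0 → v = 0)
    (rng : ∀ a : ι → RG G, (∀ v ∈ V, ∑ i, a i * st (d v i) = 0) ↔ ∃ y, c y = a)
    (sd : ∀ (M : Type) [AddCommGroup M] [Module (RG G) M] [Finite M],
      Nat.card (M →ₗ[RG G] Y) = Nat.card (DuR M →ₗ[RG G] Y)) (hne : V ≠ ⊥) :
    ∃ B : V →ₗ[RG G] DuR V, B ≠ 0 := by
  have hnt : Nontrivial V := Submodule.nontrivial_iff_ne_bot.2 hne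
  have hcd : Nat.card (DuR V) = Nat.card V := card_du (G := G)
  have hnd : Nontrivial (DuR V) := by
    rw [← Finite.one_lt_card_iff_nontrivial, hcd]
    exact Finite.one_lt_card_iff_nontrivial.2 hnt
  have e1 := A5_count hodd V c d hV inj rng V
  have e2 := A5_count hodd V c d hV inj rng (DuR V)
  rw [← sd V, hcd] at e2
  have hk : 0 < Nat.card V ^ Nat.card ι := pow_pos Nat.card_pos _
  have hy : 0 < Nat.card (V →ₗ[RG G] Y) := A5_pos V Y
  have hb := A5_id (G := G) V
  have he := A5_id (G := G) (DuR V)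
  set y := Nat.card (V →ₗ[RG G] Y)
  set k := Nat.card V ^ Nat.card ι
  set a := Nat.card (V →ₗ[RG G] DuR V) with ha
  set b := Nat.card (V →ₗ[RG G] V)
  set e := Nat.card (DuR V →ₗ[RG G] DuR V)
  set f := Nat.card (DuR V →ₗ[RG G] V) with hf
  have hab : a * f = b * e := by
    have h1 : (y * k) * (a * f) = (y * k) * (b * e) := by
      calc (y * k) * (a * f) = (y * a) * (f * k) := by ring
        _ = (b * k) * (y * e) := by rw [e1, e2]
        _ = (y * k) * (b * e) := by ring
    exact Nat.eq_of_mul_eq_mul_left (Nat.mul_pos hy hk) h1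
  have hcase : 2 ≤ a ∨ 2 ≤ f := by
    by_contra hcon
    push Not at hcon
    have h1 : a * f ≤ 1 * 1 := Nat.mul_le_mul (by omega) (by omega)
    have h2 : 2 * 2 ≤ b * e := Nat.mul_le_mul hb he
    omega
  rcases hcase with h | h
  · have hfin := A5_fin (G := G) V (DuR V)
    have h1 : Nontrivial (V →ₗ[RG G] DuR V) := Finite.one_lt_card_iff_nontrivial.1 h
    exact exists_ne 0
  · have hfin := A5_fin (G := G) (DuR V) V
    have h1 : Nontrivial (DuR V →ₗ[RG G] V) := Finite.one_lt_card_iff_nontrivial.1 h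
    obtain ⟨ψ, hψ⟩ := exists_ne (0 : DuR V →ₗ[RG G] V)
    exact hc_swap hodd ψ hψ

end H26OD
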