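import Pool.Agent.H26.OD.Sy

/-!
ROW A6 (MP_78d38b_OD, about 200 lines): the Lagrangian. Paper: /team-store/H26_78d38b_A.md, 2.1, 2.2.

PROOFS. good_mono: `x ∈ Y T'` with `u q x = 0`, `r q x = 0` for `q ∈ T'` is in `Y ∅ ≤ Y T`.
good_exists: `Y ∅` is finite. For each `y ∈ Y ∅`, `y ≠ 0`, there is an `RG G`-linear `φ : X →ₗ RG G` with `φ y ≠ 0` (an additive functional `l : X →+ ZMod 2` with `l y ≠ 0` exists since `X` is a `ZMod 2`-vector space (`x + x = 0` from `add_self 1`, `AddCommGroup.zmodModule`); `φ x := ∑ g, l (of g⁻¹ • x) of g`), so by `cheb` a `q` with `r q y ≠ 0`.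
Add these `q` to `T₁` (induction over the finite set).
loc_bound + orth: on `V₂ := (T → RG G) × (T → RG G)` (`ZMod 2`-dimension `2 |T| dim RG G`) the bilinear form `⟨(a,b),(a',b')⟩ := ∑ q, tau (a q * st (b' q) + b q * st (a' q))` is symmetric and nondegenerate; `loc x := (u q x, r q x)` is injective on `Y T` (Good), and its image `W` is isotropic: `recip` (the finsum
reduces to the sum over `T`: `finsum_eq_sum_of_support_subset`, outside `T` both `u q x = u q y = 0`). So `|W| ≤ |W^⊥| = |V₂| / |W|`, `|Y T|^2 ≤ |RG|^(2|T|)`; with `card`: equality `Nat.card (Y T) = |RG|^|T|` and `W = W^⊥` (cardinalities). Use `LinearMap.BilinForm.finrank_orthogonal`-like lemmas, or count directly: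
for an additive subgroup `W` of a finite `ZMod 2`-space with a nondegenerate form the map `V₂ → (W →+ ZMod 2)` is onto with kernel `W^⊥`. Convert the `tau`-condition into the `RG`-condition: if `tau (∑ (a q * st (r q y) + b q * st (u q y))) = 0` for all `y` in the stable `Y T` then the sum is zero (`eq_zero_of_tau`, replace `y` by `st x • y`).
orth: the hypothesis says `(a,b) ∈ W^⊥ = W`.
u_surj: `T' := insert q T` is good; `Nat.card (Y T') = |RG| * Nat.card (Y T)`, the kernel of `u q` on `Y T'` is `Y T`, so `u q` maps `Y T'` onto `RG G`.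
-/

set_option autoImplicit false
open scoped Classical

namespace H26OD

variable {G X Q : Type} [Group G] [Finite G] [AddCommGroup X] [Module (RG G) X]

theorem good_mono {S : SysR G X Q} {T T' : Finset Q} (h : T ⊆ T') (hT : S.Good T) : S.Good T' := by
  intro x hx h0
  refine hT x (fun q hq => ?_) (fun q hq => h0 q (h hq))
  by_cases hq' : q ∈ T'
  · exact (h0 q hq').1
  · exact hx q hq'

private theorem A6_dual {Y : Type} [AddCommGroup Y] (h2 : ∀ x : Y, x + x = 0) {y : Y} (hy : y ≠ 0) :
    ∃ l : Y →+ ZMod 2, l y ≠ 0 := by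
  let _ : Module (ZMod 2) Y := AddCommGroup.zmodModule (fun x => by rw [two_nsmul]; exact h2 x)
  by_contra hcon
  push Not at hcon
  apply hy
  rw [← Module.forall_dual_apply_eq_zero_iff (ZMod 2) y]
  intro f
  exact hcon f.toAddMonoidHom

private theorem A6_coeff (b : RG G) (h g : G) :
    (MonoidAlgebra.of (ZMod 2) G h * b).coeff g = b.coeff (h⁻¹ * g) := by
  rw [coeff_eq_tau, coeff_eq_tau b, ← mul_assoc, ← map_mul, mul_inv_rev, inv_inv]

private noncomputable def A6_f (l : X →+ ZMod 2) (x : X) : RG G :=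
  MonoidAlgebra.ofCoeff (Finsupp.equivFunOnFinite.symm
    (fun g : G => l (MonoidAlgebra.of (ZMod 2) G g⁻¹ • x)))

private theorem A6_f_coeff (l : X →+ ZMod 2) (x : X) (g : G) :
    (A6_f l x : RG G).coeff g = l (MonoidAlgebra.of (ZMod 2) G g⁻¹ • x) := rfl

private noncomputable def A6_phi (l : X →+ ZMod 2) : X →ₗ[RG G] RG G where
  toFun x := A6_f l x
  map_add' x y := by
    ext g
    rw [MonoidAlgebra.coeff_add, Finsupp.add_apply, A6_f_coeff, A6_f_coeff, A6_f_coeff, smul_add, map_add]
  map_smul' a x := by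
    rw [RingHom.id_apply, smul_eq_mul]
    induction a using rg_induction with
    | h0 =>
      rw [zero_smul, zero_mul]
      ext g
      rw [A6_f_coeff, smul_zero, map_zero]
      rfl
    | hadd a b ha hb =>
      rw [add_mul, ← ha, ← hb]
      ext g
      rw [MonoidAlgebra.coeff_add, Finsupp.add_apply, A6_f_coeff, A6_f_coeff, A6_f_coeff, add_smul, smul_add, map_add]
    | hof h =>
      ext g
      rw [A6_coeff, A6_f_coeff, A6_f_coeff, mul_inv_rev, inv_inv, map_mul, mul_smul]

theorem good_exists {S : SysR G X Q} (hS : S.Ok) (T₁ : Finset Q) :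
    ∃ T : Finset Q, T₁ ⊆ T ∧ S.Good T := by
  have h2 : ∀ x : X, x + x = 0 := fun x => by
    have h1 : ((1 : RG G) + 1) • x = 0 := by rw [add_self, zero_smul]
    rw [add_smul, one_smul] at h1
    exact h1
  have hex : ∀ y : S.Y ∅, (y : X) ≠ 0 → ∃ q, S.r q y ≠ 0 := by
    intro y hy
    obtain ⟨l, hl⟩ := A6_dual h2 hy
    obtain ⟨q, -, -, hq⟩ := hS.cheb ∅ ∅ (A6_phi l)
    refine ⟨q, ?_⟩
    rw [hq y y.2]
    intro h
    apply hl
    have h3 := congrArg (fun a : RG G => a.coeff 1) h
    have h4 : l (MonoidAlgebra.of (ZMod 2) G (1 : G)⁻¹ • (y : X)) = l (y : X) := by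
      rw [inv_one, map_one, one_smul]
    rw [← h4]
    exact h3
  haveI := hS.finY ∅
  letI := Fintype.ofFinite (S.Y ∅)
  refine ⟨T₁ ∪ Finset.univ.biUnion
    (fun y : S.Y ∅ => if h : (y : X) ≠ 0 then {(hex y h).choose} else ∅), Finset.subset_union_left, ?_⟩
  intro x hx h0
  by_contra hne
  have hx0 : x ∈ S.Y ∅ := by
    intro q _
    by_cases hq : q ∈ T₁ ∪ Finset.univ.biUnion
      (fun y : S.Y ∅ => if h : (y : X) ≠ 0 then {(hex y h).choose} else ∅)
    · exact (h0 q hq).1
    · exact hx q hq
  have hne' : ((⟨x, hx0⟩ : S.Y ∅) : X) ≠ 0 := hne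
  have hq := (hex ⟨x, hx0⟩ hne').choose_spec
  apply hq
  refine (h0 _ (Finset.mem_union_right _ (Finset.mem_biUnion.2 ⟨⟨x, hx0⟩, Finset.mem_univ _, ?_⟩))).2
  rw [dif_pos hne']
  exact Finset.mem_singleton_self _

private theorem A6_finRG : Finite (RG G) :=
  Finite.of_injective (fun a : RG G => (a.coeff : G → ZMod 2)) (fun a b h => by
    ext g
    exact congrFun h g)

/-- The symplectic form. -/
private noncomputable def A6_B (G : Type) [Group G] (T : Finset Q) :
    LinearMap.BilinForm (ZMod 2) ((T → RG G) × (T → RG G)) :=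
  LinearMap.mk₂ (ZMod 2)
    (fun v w => ∑ q, tau (v.1 q * st (w.2 q) + v.2 q * st (w.1 q)))
    (fun v v' w => by
      rw [← Finset.sum_add_distrib]
      refine Finset.sum_congr rfl fun q _ => ?_
      rw [Prod.fst_add, Prod.snd_add, Pi.add_apply, Pi.add_apply, add_mul, add_mul, ← tau_add]
      congr 1
      abel)
    (fun r v w => by
      have hr : r = 0 ∨ r = 1 := by revert r; decide
      rcases hr with rfl | rfl
      · rw [zero_smul, zero_smul]
        refine Finset.sum_eq_zero fun q _ => ?_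
        rw [Prod.fst_zero, Prod.snd_zero, Pi.zero_apply, zero_mul, zero_mul, add_zero, tau_zero]
      · rw [one_smul, one_smul])
    (fun v w w' => by
      rw [← Finset.sum_add_distrib]
      refine Finset.sum_congr rfl fun q _ => ?_
      rw [Prod.fst_add, Prod.snd_add, Pi.add_apply, Pi.add_apply, st_add, st_add, mul_add, mul_add, ← tau_add]
      congr 1
      abel)
    (fun r v w => by
      have hr : r = 0 ∨ r = 1 := by revert r; decide
      rcases hr with rfl | rfl
      · rw [zero_smul, zero_smul]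
        refine Finset.sum_eq_zero fun q _ => ?_
        rw [Prod.fst_zero, Prod.snd_zero, Pi.zero_apply, st_zero, mul_zero, mul_zero, add_zero, tau_zero]
      · rw [one_smul, one_smul])

private theorem A6_B_apply (T : Finset Q) (v w : (T → RG G) × (T → RG G)) :
    A6_B G T v w = ∑ q, tau (v.1 q * st (w.2 q) + v.2 q * st (w.1 q)) := rfl

private theorem A6_B_nd (T : Finset Q) : (A6_B G T).Nondegenerate := by
  have h1 : ∀ a : RG G, (∀ c : RG G, tau (a * st c) = 0) → a = 0 := fun a h =>
    eq_zero_of_tau fun x => by rw [tau_mul_comm, ← st_st x]; exact h (st x)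
  have h2 : ∀ a : RG G, (∀ c : RG G, tau (c * st a) = 0) → a = 0 := fun a h => by
    rw [← st_st a, eq_zero_of_tau h, st_zero]
  constructor
  · intro v hv
    refine Prod.ext (funext fun q₀ => ?_) (funext fun q₀ => ?_)
    · refine h1 _ fun c => ?_
      have := hv (0, Pi.single q₀ c)
      rw [A6_B_apply, Finset.sum_eq_single q₀] at this
      · dsimp only at this
        rw [Pi.single_eq_same, Pi.zero_apply, st_zero, mul_zero, add_zero] at this
        exact this
      · intro q _ hq
        dsimp only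
        rw [Pi.single_eq_of_ne hq, Pi.zero_apply, st_zero, mul_zero, mul_zero, add_zero, tau_zero]
      · intro h; exact absurd (Finset.mem_univ _) h
    · refine h1 _ fun c => ?_
      have := hv (Pi.single q₀ c, 0)
      rw [A6_B_apply, Finset.sum_eq_single q₀] at this
      · dsimp only at this
        rw [Pi.single_eq_same, Pi.zero_apply, st_zero, mul_zero, zero_add] at this
        exact this
      · intro q _ hq
        dsimp only
        rw [Pi.single_eq_of_ne hq, Pi.zero_apply, st_zero, mul_zero, mul_zero, add_zero, tau_zero]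
      · intro h; exact absurd (Finset.mem_univ _) h
  · intro w hw
    refine Prod.ext (funext fun q₀ => ?_) (funext fun q₀ => ?_)
    · refine h2 _ fun c => ?_
      have := hw (0, Pi.single q₀ c)
      rw [A6_B_apply, Finset.sum_eq_single q₀] at this
      · dsimp only at this
        rw [Pi.single_eq_same, Pi.zero_apply, zero_mul, zero_add] at this
        exact this
      · intro q _ hq
        dsimp only
        rw [Pi.single_eq_of_ne hq, Pi.zero_apply, zero_mul, zero_mul, add_zero, tau_zero]
      · intro h; exact absurd (Finset.mem_univ _) h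
    · refine h2 _ fun c => ?_
      have := hw (Pi.single q₀ c, 0)
      rw [A6_B_apply, Finset.sum_eq_single q₀] at this
      · dsimp only at this
        rw [Pi.single_eq_same, Pi.zero_apply, zero_mul, add_zero] at this
        exact this
      · intro q _ hq
        dsimp only
        rw [Pi.single_eq_of_ne hq, Pi.zero_apply, zero_mul, zero_mul, add_zero, tau_zero]
      · intro h; exact absurd (Finset.mem_univ _) h

/-- The localization. -/
private noncomputable def A6_loc (S : SysR G X Q) (T : Finset Q) (y : X) : (T → RG G) × (T → RG G) :=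
  (fun q => S.u q y, fun q => S.r q y)

private theorem A6_loc_add (S : SysR G X Q) (T : Finset Q) (x y : X) :
    A6_loc S T (x + y) = A6_loc S T x + A6_loc S T y :=
  Prod.ext (funext fun q => map_add (S.u q) x y) (funext fun q => map_add (S.r q) x y)

private theorem A6_loc_zero (S : SysR G X Q) (T : Finset Q) : A6_loc S T 0 = 0 :=
  Prod.ext (funext fun q => map_zero (S.u q)) (funext fun q => map_zero (S.r q))

private def A6_W (S : SysR G X Q) (T : Finset Q) :
    Submodule (ZMod 2) ((T → RG G) × (T → RG G)) where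
  carrier := {v | ∃ y ∈ S.Y T, A6_loc S T y = v}
  add_mem' := by
    rintro _ _ ⟨x, hx, rfl⟩ ⟨y, hy, rfl⟩
    exact ⟨x + y, (S.Y T).add_mem hx hy, A6_loc_add S T x y⟩
  zero_mem' := ⟨0, (S.Y T).zero_mem, A6_loc_zero S T⟩
  smul_mem' := by
    rintro r _ ⟨x, hx, rfl⟩
    have hr : r = 0 ∨ r = 1 := by revert r; decide
    rcases hr with rfl | rfl
    · rw [zero_smul]; exact ⟨0, (S.Y T).zero_mem, A6_loc_zero S T⟩
    · rw [one_smul]; exact ⟨x, hx, rfl⟩

private theorem A6_recip {S : SysR G X Q} {T : Finset Q} {x y : X} (hx : x ∈ S.Y T) (hy : y ∈ S.Y T) :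
    ∑ q ∈ T, (S.u q x * st (S.r q y) + S.r q x * st (S.u q y)) = 0 := by
  rw [← S.recip x y]
  refine (finsum_eq_sum_of_support_subset _ ?_).symm
  intro q hq
  by_contra h
  apply hq
  change S.u q x * st (S.r q y) + S.r q x * st (S.u q y) = 0
  rw [hx q h, hy q h, zero_mul, st_zero, mul_zero, add_zero]

private theorem A6_B_W {S : SysR G X Q} {T : Finset Q} (a b : Q → RG G)
    (h : ∀ y ∈ S.Y T, ∑ q ∈ T, (a q * st (S.r q y) + b q * st (S.u q y)) = 0) :
    (((fun q : T => a q), (fun q : T => b q)) : (T → RG G) × (T → RG G)) ∈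
      (A6_B G T).orthogonal (A6_W S T) := by
  rw [LinearMap.BilinForm.mem_orthogonal_iff]
  rintro _ ⟨y, hy, rfl⟩
  change A6_B G T _ _ = 0
  rw [A6_B_apply]
  have e : ∀ q : T, tau ((A6_loc S T y).1 q * st (b q) + (A6_loc S T y).2 q * st (a q)) =
      tau (a q * st (S.r q y) + b q * st (S.u q y)) := by
    intro q
    rw [← tau_st (a q * st (S.r q y) + b q * st (S.u q y)), st_add, st_mul, st_mul, st_st, st_st, add_comm]
    rfl
  rw [Finset.sum_congr rfl fun q _ => e q]
  have e2 : ∀ (s : Finset Q) (f : Q → RG G), ∑ q ∈ s, tau (f q) = tau (∑ q ∈ s, f q) := by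
    intro s f
    induction s using Finset.induction_on with
    | empty => rw [Finset.sum_empty, Finset.sum_empty, tau_zero]
    | insert c s hc ih => rw [Finset.sum_insert hc, Finset.sum_insert hc, tau_add, ih]
  rw [Finset.sum_coe_sort T (fun q => tau (a q * st (S.r q y) + b q * st (S.u q y))), e2, h y hy, tau_zero]

private theorem A6_card_W {S : SysR G X Q} {T : Finset Q} (hT : S.Good T) :
    Nat.card (S.Y T) = Nat.card (A6_W S T) := by
  refine Nat.card_congr (Equiv.ofBijective (fun y : S.Y T => (⟨A6_loc S T y, y, y.2, rfl⟩ : A6_W S T)) ⟨?_, ?_⟩)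
  · intro x y hxy
    have h1 : A6_loc S T (x : X) = A6_loc S T (y : X) := congrArg Subtype.val hxy
    have h2 : ((x : X) - y) = 0 := by
      refine hT _ ((S.Y T).sub_mem x.2 y.2) fun q hq => ?_
      have h3 := congrFun (congrArg Prod.fst h1) ⟨q, hq⟩
      have h4 := congrFun (congrArg Prod.snd h1) ⟨q, hq⟩
      rw [map_sub, map_sub, sub_eq_zero, sub_eq_zero]
      exact ⟨h3, h4⟩
    exact Subtype.ext (sub_eq_zero.1 h2)
  · rintro ⟨_, y, hy, rfl⟩
    exact ⟨⟨y, hy⟩, rfl⟩

private theorem A6_main {S : SysR G X Q} (hS : S.Ok) {T : Finset Q} (hT : S.Good T) :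
    Nat.card (S.Y T) = Nat.card (RG G) ^ T.card ∧ (A6_B G T).orthogonal (A6_W S T) = A6_W S T := by
  haveI : Finite (RG G) := A6_finRG
  haveI : Finite (T → RG G) := inferInstance
  have hiso : A6_W S T ≤ (A6_B G T).orthogonal (A6_W S T) := by
    rintro _ ⟨x, hx, rfl⟩
    exact A6_B_W (fun q => S.u q x) (fun q => S.r q x) fun y hy => A6_recip hx hy
  have hfr := LinearMap.BilinForm.finrank_orthogonal (A6_B_nd (G := G) T) (A6_W S T)
  have hV : Module.finrank (ZMod 2) ((T → RG G) × (T → RG G)) =
      T.card * Module.finrank (ZMod 2) (RG G) + T.card * Module.finrank (ZMod 2) (RG G) := by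
    rw [Module.finrank_prod, Module.finrank_pi_fintype, Finset.sum_const, Finset.card_univ,
      Fintype.card_coe, smul_eq_mul]
  have hle := Submodule.finrank_mono hiso
  have h2 : Nat.card (ZMod 2) = 2 := by rw [Nat.card_eq_fintype_card, ZMod.card]
  have hcW : Nat.card (A6_W S T) = 2 ^ Module.finrank (ZMod 2) (A6_W S T) := by
    rw [Module.natCard_eq_pow_finrank (K := ZMod 2), h2]
  have hcR : Nat.card (RG G) = 2 ^ Module.finrank (ZMod 2) (RG G) := by
    rw [Module.natCard_eq_pow_finrank (K := ZMod 2), h2]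
  have hge : T.card * Module.finrank (ZMod 2) (RG G) ≤ Module.finrank (ZMod 2) (A6_W S T) := by
    have := hS.card T
    rw [A6_card_W hT, hcW, hcR, ← pow_mul] at this
    rw [mul_comm]
    exact (Nat.pow_le_pow_iff_right (by norm_num)).1 this
  have hW : Module.finrank (ZMod 2) (A6_W S T) = T.card * Module.finrank (ZMod 2) (RG G) := by omega
  constructor
  · rw [A6_card_W hT, hcW, hW, hcR, ← pow_mul, mul_comm]
  · exact (Submodule.eq_of_le_of_finrank_eq hiso (by omega)).symm

theorem card_eq {S : SysR G X Q} (hS : S.Ok) {T : Finset Q} (hT : S.Good T) :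
    Nat.card (S.Y T) = Nat.card (RG G) ^ T.card := (A6_main hS hT).1

theorem orth {S : SysR G X Q} (hS : S.Ok) {T : Finset Q} (hT : S.Good T) (a b : Q → RG G)
    (h : ∀ y ∈ S.Y T, ∑ q ∈ T, (a q * st (S.r q y) + b q * st (S.u q y)) = 0) :
    ∃ y₀ ∈ S.Y T, ∀ q ∈ T, S.u q y₀ = a q ∧ S.r q y₀ = b q := by
  have h1 := A6_B_W a b h
  rw [(A6_main hS hT).2] at h1
  obtain ⟨y, hy, hv⟩ := h1
  exact ⟨y, hy, fun q hq => ⟨congrFun (congrArg Prod.fst hv) ⟨q, hq⟩, congrFun (congrArg Prod.snd hv) ⟨q, hq⟩⟩⟩

theorem u_surj {S : SysR G X Q} (hS : S.Ok) {T : Finset Q} (hT : S.Good T) {q : Q} (hq : q ∉ T)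
    (a : RG G) : ∃ y ∈ S.Y (insert q T), S.u q y = a := by
  have hT' : S.Good (insert q T) := good_mono (Finset.subset_insert q T) hT
  haveI : Finite (RG G) := A6_finRG
  haveI := hS.finY (insert q T)
  let f : S.Y (insert q T) →+ RG G := ((S.u q).comp (S.Y (insert q T)).subtype).toAddMonoidHom
  have hf : ∀ y : S.Y (insert q T), f y = S.u q y := fun _ => rfl
  have hk : Nat.card f.ker = Nat.card (S.Y T) := by
    refine Nat.card_congr (Equiv.ofBijective (fun y : f.ker =>
      (⟨(y : S.Y (insert q T)), fun q' hq' => ?_⟩ : S.Y T)) ⟨?_, ?_⟩)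
    · by_cases he : q' = q
      · rw [he]; exact y.2
      · exact (y : S.Y (insert q T)).2 q' (fun h => (Finset.mem_insert.1 h).elim he hq')
    · intro x y hxy
      have h0 : ((x : S.Y (insert q T)) : X) = ((y : S.Y (insert q T)) : X) :=
        congrArg (fun z : S.Y T => (z : X)) hxy
      exact Subtype.ext (Subtype.ext h0)
    · rintro ⟨y, hy⟩
      exact ⟨⟨⟨y, fun q' hq' => hy q' fun h => hq' (Finset.mem_insert_of_mem h)⟩, hy q hq⟩, rfl⟩
  have h1 := f.ker.card_mul_index
  rw [AddSubgroup.index_ker, hk, card_eq hS hT, card_eq hS hT', Finset.card_insert_of_notMem hq, pow_succ] at h1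
  have h2 : Nat.card f.range = Nat.card (RG G) :=
    Nat.eq_of_mul_eq_mul_left (pow_pos Nat.card_pos _) h1
  have h3 : f.range = ⊤ := AddSubgroup.eq_top_of_card_eq _ h2
  have h4 : a ∈ f.range := by rw [h3]; exact AddSubgroup.mem_top a
  obtain ⟨y, hy⟩ := h4
  exact ⟨y, y.2, hy⟩

end H26OD
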