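import Pool.Agent.H26.OD.A5
import Pool.Agent.H26.OD.A6

/-!
ROW A7 (MP_78d38b_OD, about 170 lines): the coordinates `c`, `d`. Paper: /team-store/H26_78d38b_A.md, 2.3, 2.4, 3.1. Use the statements of A5, A6.

PROOFS. recip_cd: `recip` (finsum = sum over `T`), for `q ∈ S'` the two summands are exchanged.
mem_Sel_cc: definition (`q ∈ T \ S'`: `cc = u`; `q ∉ T`: `q ∉ S'`).
dd_inj: `x ∈ Sel S'`, all `dd = 0`: then `u q x = r q x = 0` for all `q ∈ T`; `Good`.
range_c: (←) recip_cd with `v`. (→) `a` with `∑ a q * st (dd q v) = 0` for `v ∈ Sel S'`. Counting: the map `c : Y T → (T → RG G)` has kernel `Sel S'`, so `|range| = |RG|^|T| / |Sel S'|` (card_eq). The set of the `a : T → RG G` as in the hypothesis is the kernel of the map `(T → RG G) → DuR (Sel S')`, `a ↦ (v ↦ tau (∑ a q * st (dd q v)))`,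
which is onto (dd_inj; functionals extend), so it has `|RG|^|T| / |Sel S'|` elements and contains the range: equality. (Alternatively: by `orth` + the double orthogonal.)
exists_form: `exists_B` with `Y := S.Y T`, `V := (Sel S').comap` (as a submodule of `S.Y T`), `ι := T` (subtype), `c`, `d` the maps `cc`, `dd`; `sd` from `hS.sd T (card_eq ..)`. Transport `B` to `Sel S'`.
exists_gamma: the functional `v ↦ tau (b v)` on `Sel S'` is `μ ∘ dd` with an additive `μ : (T → RG G) →+ ZMod 2` (dd_inj, extension of functionals of `ZMod 2`-vector spaces), `μ a = ∑ tau (a q * st (γ q))` (nondegeneracy of `tau (x * st y)`: `(γ q).coeff g := μ (of g at q)`, `tau_mul_st`). Then `tau (b v) = tau (∑ dd q v * st (γ q))` for all `v`, so `b v = ∑ ...`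
(replace `v` by `x • v`, `eq_zero_of_tau`). Replace `γ` by `f * γ`: `st (f * γ q) = st (γ q) * f`, `b v * f = b v`.
-/

set_option autoImplicit false
open scoped Classical

namespace H26OD

theorem A7_smul {G ι : Type} [Group G] {Y : Type} [AddCommGroup Y] [Module (RG G) Y]
    [Fintype ι] (d : Y →ₗ[RG G] (ι → RG G)) (a : ι → RG G) (r : RG G) (v : Y) :
    ∑ i, a i * st (d (r • v) i) = (∑ i, a i * st (d v i)) * st r := by
  rw [Finset.sum_mul]
  refine Finset.sum_congr rfl fun i _ => ?_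
  rw [map_smul, Pi.smul_apply, smul_eq_mul, st_mul, mul_assoc]

/-- The map to the dual module. -/
noncomputable def A7_phi {G ι : Type} [Group G] {Y : Type} [AddCommGroup Y]
    [Module (RG G) Y] [Fintype ι] (V : Submodule (RG G) Y) (d : Y →ₗ[RG G] (ι → RG G)) :
    (ι → RG G) →ₗ[RG G] DuR V where
  toFun a := (⟨⟨fun v => tau (∑ i, a i * st (d v i)), by
      simp [st_zero, tau_zero]⟩, by
      intro v w
      change tau (∑ i, a i * st (d (v + w : Y) i)) = _
      rw [map_add, ← tau_add, ← Finset.sum_add_distrib]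
      congr 1
      refine Finset.sum_congr rfl fun i _ => ?_
      rw [Pi.add_apply, st_add, mul_add]⟩ : V →+ ZMod 2)
  map_add' a b := by
    apply DFunLike.ext
    intro v
    change tau (∑ i, (a + b) i * st (d v i)) = tau (∑ i, a i * st (d v i)) +
      tau (∑ i, b i * st (d v i))
    rw [← tau_add, ← Finset.sum_add_distrib]
    congr 1
    refine Finset.sum_congr rfl fun i _ => ?_
    rw [Pi.add_apply, add_mul]
  map_smul' r a := by
    apply DFunLike.ext
    intro v
    change tau (∑ i, (r • a) i * st (d v i)) = tau (∑ i, a i * st (d ((st r • v : V) : Y) i))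
    rw [Submodule.coe_smul, A7_smul, st_st, ← tau_mul_comm, Finset.mul_sum]
    congr 1
    refine Finset.sum_congr rfl fun i _ => ?_
    rw [Pi.smul_apply, smul_eq_mul, mul_assoc]

theorem A7_phi_apply {G ι : Type} [Group G] {Y : Type} [AddCommGroup Y]
    [Module (RG G) Y] [Fintype ι] (V : Submodule (RG G) Y) (d : Y →ₗ[RG G] (ι → RG G))
    (a : ι → RG G) (v : V) : A7_phi V d a v = tau (∑ i, a i * st (d v i)) := rfl

/-- Every additive functional on `ι → RG G` is given by an element. -/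
theorem A7_repr {G ι : Type} [Group G] [Finite G] [Fintype ι]
    (μ : (ι → RG G) →+ ZMod 2) : ∃ a : ι → RG G, ∀ w, μ w = tau (∑ i, a i * st (w i)) := by
  let _ := Fintype.ofFinite G
  refine ⟨fun i => MonoidAlgebra.ofCoeff (Finsupp.equivFunOnFinite.symm
    (fun g => μ (Pi.single i (MonoidAlgebra.of (ZMod 2) G g)))), fun w => ?_⟩
  have h1 : ∀ (i : ι) (x : RG G), μ (Pi.single i x) =
      ∑ g : G, μ (Pi.single i (MonoidAlgebra.of (ZMod 2) G g)) * x.coeff g := by
    intro i x
    induction x using rg_induction with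
    | h0 =>
      rw [Pi.single_zero, map_zero]
      exact (Finset.sum_eq_zero fun g _ => mul_zero _).symm
    | hadd x y hx hy =>
      rw [Pi.single_add, map_add, hx, hy, ← Finset.sum_add_distrib]
      refine Finset.sum_congr rfl fun g _ => ?_
      rw [MonoidAlgebra.coeff_add, Finsupp.add_apply, mul_add]
    | hof h =>
      rw [Finset.sum_eq_single h]
      · rw [MonoidAlgebra.of_apply, MonoidAlgebra.coeff_single, Finsupp.single_apply, if_pos rfl,
          mul_one]
      · intro g _ hg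
        have h3 : (MonoidAlgebra.of (ZMod 2) G h).coeff g = 0 := by
          rw [MonoidAlgebra.of_apply, MonoidAlgebra.coeff_single, Finsupp.single_apply,
            if_neg (Ne.symm hg)]
        rw [h3, mul_zero]
      · intro h2
        exact absurd (Finset.mem_univ _) h2
  have h2 : ∀ s : Finset ι, ∀ f : ι → RG G, tau (∑ i ∈ s, f i) = ∑ i ∈ s, tau (f i) := by
    intro s f
    induction s using Finset.induction_on with
    | empty => rw [Finset.sum_empty, Finset.sum_empty, tau_zero]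
    | insert a s ha ih => rw [Finset.sum_insert ha, Finset.sum_insert ha, tau_add, ih]
  rw [h2]
  conv_lhs => rw [← Finset.univ_sum_single w]
  rw [map_sum]
  refine Finset.sum_congr rfl fun i _ => ?_
  rw [tau_mul_st, h1]
  rfl

/-- The map to the dual module is onto. -/
theorem A7_surj {G ι : Type} [Group G] [Finite G] {Y : Type} [AddCommGroup Y]
    [Module (RG G) Y] [Fintype ι] (V : Submodule (RG G) Y) (d : Y →ₗ[RG G] (ι → RG G))
    (inj : ∀ v ∈ V, d v = 0 → v = 0) : Function.Surjective (A7_phi V d) := by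
  intro φ
  have two : ∀ v : V, 2 • v = 0 := by
    intro v
    have h : (1 : RG G) + 1 = 0 := add_self 1
    have h2 := congrArg (fun r : RG G => r • v) h
    simp only [add_smul, one_smul, zero_smul] at h2
    rw [two_nsmul, h2]
  let _ : Module (ZMod 2) V := AddCommGroup.zmodModule two
  let D : V →ₗ[ZMod 2] (ι → RG G) :=
    AddMonoidHom.toZModLinearMap 2 (AddMonoidHom.mk' (fun v : V => d v) (fun v w => by
      rw [Submodule.coe_add, map_add]))
  have hD : LinearMap.ker D = ⊥ := by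
    rw [LinearMap.ker_eq_bot']
    intro v hv
    have : d v = 0 := hv
    exact Subtype.ext (inj v v.2 this)
  obtain ⟨g, hg⟩ := LinearMap.exists_leftInverse_of_injective D hD
  obtain ⟨a, ha⟩ := A7_repr (G := G) (ι := ι)
    ((φ : V →+ ZMod 2).comp g.toAddMonoidHom)
  refine ⟨a, ?_⟩
  apply DFunLike.ext
  intro v
  rw [A7_phi_apply, ← ha]
  have h3 : g (D v) = v := by
    have := LinearMap.congr_fun hg v
    exact this
  change φ (g (D v)) = φ v
  rw [h3]


/-- The kernel. -/
theorem A7_ker {G ι : Type} [Group G] {Y : Type} [AddCommGroup Y]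
    [Module (RG G) Y] [Fintype ι] (V : Submodule (RG G) Y) (d : Y →ₗ[RG G] (ι → RG G)) (a : ι → RG G) :
    A7_phi V d a = 0 ↔ ∀ v ∈ V, ∑ i, a i * st (d v i) = 0 := by
  constructor
  · intro h v hv
    apply eq_zero_of_tau
    intro x
    have h1 : A7_phi V d a (st x • (⟨v, hv⟩ : V)) = 0 := by rw [h]; rfl
    rw [A7_phi_apply, Submodule.coe_smul, A7_smul, st_st] at h1
    rw [← tau_mul_comm]
    exact h1
  · intro h
    apply DFunLike.ext
    intro v
    rw [A7_phi_apply, h v v.2]
    rfl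

theorem A7_fin {G : Type} [Group G] [Finite G] : Finite (RG G) :=
  Finite.of_injective (fun a : RG G => (fun g : G => a.coeff g)) (by
    intro a b h
    ext g
    exact congrFun h g)

/-- The double orthogonal, by counting. -/
theorem A7_rng {G ι : Type} [Group G] [Finite G] {Y : Type} [Fintype ι] [AddCommGroup Y]
    [Module (RG G) Y] [Finite Y] (V : Submodule (RG G) Y) (c d : Y →ₗ[RG G] (ι → RG G))
    (hV : ∀ y, y ∈ V ↔ c y = 0) (inj : ∀ v ∈ V, d v = 0 → v = 0)
    (iso : ∀ v ∈ V, ∀ y, ∑ i, c y i * st (d v i) = 0)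
    (hc : Nat.card Y = Nat.card (RG G) ^ Nat.card ι) (a : ι → RG G) :
    (∀ v ∈ V, ∑ i, a i * st (d v i) = 0) ↔ ∃ y, c y = a := by
  have hfin : Finite (RG G) := A7_fin
  have hcd : Nat.card (DuR V) = Nat.card V := card_du (G := G)
  have h1 : Nat.card (ι → RG G) = Nat.card (RG G) ^ Nat.card ι := by
    rw [Nat.card_fun]
  have hle : LinearMap.range c ≤ LinearMap.ker (A7_phi V d) := by
    rintro _ ⟨y, rfl⟩
    rw [LinearMap.mem_ker, A7_ker]
    intro v hv
    exact iso v hv y
  have hker : V = LinearMap.ker c := by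
    ext y
    rw [hV, LinearMap.mem_ker]
  have hVp : 0 < Nat.card V := Nat.card_pos
  have e1 : Nat.card V * Nat.card (LinearMap.range c) = Nat.card Y := by
    have e := Submodule.card_eq_card_quotient_mul_card (LinearMap.ker c)
    have e' : Nat.card (Y ⧸ LinearMap.ker c) = Nat.card (LinearMap.range c) :=
      Nat.card_congr c.quotKerEquivRange.toEquiv
    rw [e, e', ← hker, mul_comm]
  have e2 : Nat.card (LinearMap.ker (A7_phi V d)) * Nat.card (DuR V) = Nat.card (ι → RG G) := by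
    have e := Submodule.card_eq_card_quotient_mul_card (LinearMap.ker (A7_phi V d))
    have e' : Nat.card ((ι → RG G) ⧸ LinearMap.ker (A7_phi V d)) = Nat.card (DuR V) :=
      Nat.card_congr ((A7_phi V d).quotKerEquivOfSurjective (A7_surj V d inj)).toEquiv
    rw [e, e', mul_comm]
  have e3 : Nat.card (LinearMap.range c) = Nat.card (LinearMap.ker (A7_phi V d)) := by
    rw [hcd, h1, ← hc, ← e1, mul_comm] at e2
    exact (Nat.eq_of_mul_eq_mul_left hVp e2).symm
  have e4 : LinearMap.range c = LinearMap.ker (A7_phi V d) := by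
    apply SetLike.coe_injective
    exact Set.eq_of_subset_of_ncard_le hle (by
      rw [← Nat.card_coe_set_eq, ← Nat.card_coe_set_eq]
      exact e3.symm.le) (Set.toFinite _)
  rw [← A7_ker, ← LinearMap.mem_ker, ← e4]
  rfl

/-- The dual of a linear map. -/
noncomputable def A7_dual {G V W : Type} [Group G] [AddCommGroup V] [Module (RG G) V] [AddCommGroup W]
    [Module (RG G) W] (e : W →ₗ[RG G] V) : DuR V →ₗ[RG G] DuR W where
  toFun φ := (AddMonoidHom.comp (φ : V →+ ZMod 2) (e : W →+ V) : W →+ ZMod 2)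
  map_add' φ ψ := rfl
  map_smul' a φ := by
    apply DFunLike.ext
    intro x
    exact (congrArg φ (e.map_smul (st a) x)).symm

theorem A7_dual_apply {G V W : Type} [Group G] [AddCommGroup V] [Module (RG G) V] [AddCommGroup W]
    [Module (RG G) W] (e : W →ₗ[RG G] V) (φ : DuR V) (x : W) : A7_dual e φ x = φ (e x) := rfl

variable {G X Q : Type} [Group G] [Finite G] [AddCommGroup X] [Module (RG G) X]

/-- A family of functionals on `Y T`. -/
noncomputable def A7_pi (S : SysR G X Q) (T : Finset Q) (F : Q → X →ₗ[RG G] RG G) :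
    S.Y T →ₗ[RG G] (T → RG G) :=
  LinearMap.pi (fun q : T => (F q.1).domRestrict (S.Y T))

theorem A7_pi_apply (S : SysR G X Q) (T : Finset Q) (F : Q → X →ₗ[RG G] RG G) (y : S.Y T) (q : T) :
    A7_pi S T F y q = F q.1 y := rfl

theorem A7_sum (T : Finset Q) (f : Q → RG G) : ∑ q : T, f q.1 = ∑ q ∈ T, f q :=
  Finset.sum_coe_sort T f

theorem recip_cd (S : SysR G X Q) (S' T : Finset Q) {x y : X} (hx : x ∈ S.Y T) (hy : y ∈ S.Y T) :
    ∑ q ∈ T, (S.cc S' q x * st (S.dd S' q y) + S.dd S' q x * st (S.cc S' q y)) = 0 := by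
  have h1 := S.recip x y
  have h2 : Function.support (fun q => S.u q x * st (S.r q y) + S.r q x * st (S.u q y)) ⊆ (T : Set Q) := by
    intro q hq
    by_contra hqT
    apply hq
    show S.u q x * st (S.r q y) + S.r q x * st (S.u q y) = 0
    rw [hx q hqT, hy q hqT, st_zero, zero_mul, mul_zero, add_zero]
  rw [finsum_eq_sum_of_support_subset _ h2] at h1
  rw [← h1]
  refine Finset.sum_congr rfl fun q _ => ?_
  unfold SysR.cc SysR.dd
  by_cases h : q ∈ S'
  · rw [if_pos h, if_pos h, add_comm]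
  · rw [if_neg h, if_neg h]

theorem mem_Sel_cc {S : SysR G X Q} {S' T : Finset Q} (h : S' ⊆ T) {x : X} :
    x ∈ S.Sel S' ↔ x ∈ S.Y T ∧ ∀ q ∈ T, S.cc S' q x = 0 := by
  rw [SysR.mem_Sel, SysR.mem_Y]
  constructor
  · rintro ⟨h1, h2⟩
    refine ⟨fun q hq => h1 q fun h3 => hq (h h3), fun q _ => ?_⟩
    unfold SysR.cc
    by_cases h3 : q ∈ S'
    · rw [if_pos h3]
      exact h2 q h3
    · rw [if_neg h3]
      exact h1 q h3
  · rintro ⟨h1, h2⟩
    refine ⟨fun q hq => ?_, fun q hq => ?_⟩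
    · by_cases h3 : q ∈ T
      · have h4 := h2 q h3
        unfold SysR.cc at h4
        rwa [if_neg hq] at h4
      · exact h1 q h3
    · have h4 := h2 q (h hq)
      unfold SysR.cc at h4
      rwa [if_pos hq] at h4

theorem dd_inj {S : SysR G X Q} {S' T : Finset Q} (h : S' ⊆ T) (hT : S.Good T) {x : X}
    (hx : x ∈ S.Sel S') (h0 : ∀ q ∈ T, S.dd S' q x = 0) : x = 0 := by
  obtain ⟨h1, h2⟩ := (mem_Sel_cc h).1 hx
  refine hT x h1 fun q hq => ?_
  have h3 := h2 q hq
  have h4 := h0 q hq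
  unfold SysR.cc at h3
  unfold SysR.dd at h4
  by_cases h5 : q ∈ S'
  · rw [if_pos h5] at h3 h4
    exact ⟨h4, h3⟩
  · rw [if_neg h5] at h3 h4
    exact ⟨h3, h4⟩

theorem A7_card {Q : Type} (T : Finset Q) : Nat.card T = T.card := by
  rw [Nat.card_eq_fintype_card, Fintype.card_coe]

theorem A7_hV {S : SysR G X Q} {S' T : Finset Q} (h : S' ⊆ T) (y : S.Y T) :
    y ∈ (S.Sel S').comap (S.Y T).subtype ↔ A7_pi S T (S.cc S') y = 0 := by
  rw [Submodule.mem_comap, Submodule.subtype_apply, mem_Sel_cc h]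
  constructor
  · rintro ⟨-, h1⟩
    funext q
    exact h1 q.1 q.2
  · intro h1
    exact ⟨y.2, fun q hq => congrFun h1 ⟨q, hq⟩⟩

theorem A7_inj {S : SysR G X Q} {S' T : Finset Q} (h : S' ⊆ T) (hT : S.Good T) (v : S.Y T)
    (hv : v ∈ (S.Sel S').comap (S.Y T).subtype) (h0 : A7_pi S T (S.dd S') v = 0) : v = 0 :=
  Subtype.ext (dd_inj h hT hv fun q hq => congrFun h0 ⟨q, hq⟩)

theorem A7_iso {S : SysR G X Q} {S' T : Finset Q} (h : S' ⊆ T) (v : S.Y T)
    (hv : v ∈ (S.Sel S').comap (S.Y T).subtype) (y : S.Y T) :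
    ∑ q : T, A7_pi S T (S.cc S') y q * st (A7_pi S T (S.dd S') v q) = 0 := by
  have h1 := recip_cd S S' T y.2 v.2
  have h2 := ((mem_Sel_cc h).1 (show (v : X) ∈ S.Sel S' from hv)).2
  rw [← h1]
  rw [← A7_sum T (fun q => S.cc S' q y * st (S.dd S' q v) + S.dd S' q y * st (S.cc S' q v))]
  refine Finset.sum_congr rfl fun q _ => ?_
  rw [A7_pi_apply, A7_pi_apply, h2 q.1 q.2, st_zero, mul_zero, add_zero]

/-- The coefficient of one as an element of the dual module. -/
noncomputable def A7_tau {G : Type} [Group G] : DuR (RG G) :=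
  (⟨⟨tau, tau_zero⟩, tau_add⟩ : RG G →+ ZMod 2)

theorem range_c {S : SysR G X Q} (hS : S.Ok) {S' T : Finset Q} (h : S' ⊆ T) (hT : S.Good T)
    (a : Q → RG G) : (∀ v ∈ S.Sel S', ∑ q ∈ T, a q * st (S.dd S' q v) = 0) ↔
      ∃ y ∈ S.Y T, ∀ q ∈ T, S.cc S' q y = a q := by
  have := hS.finY T
  have key := A7_rng (G := G) (ι := T) ((S.Sel S').comap (S.Y T).subtype) (A7_pi S T (S.cc S')) (A7_pi S T (S.dd S'))
    (A7_hV h) (A7_inj h hT) (A7_iso h)
    (by rw [card_eq hS hT, A7_card]) (fun q => a q.1)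
  constructor
  · intro h1
    obtain ⟨y, hy⟩ := key.1 (by
      intro v hv
      have h2 := h1 v hv
      rw [← A7_sum T (fun q => a q * st (S.dd S' q v))] at h2
      exact h2)
    exact ⟨y, y.2, fun q hq => congrFun hy ⟨q, hq⟩⟩
  · rintro ⟨y, hy, h1⟩ v hv
    have h2 := key.2 ⟨⟨y, hy⟩, funext fun q => h1 q.1 q.2⟩ ⟨v, ((mem_Sel_cc h).1 hv).1⟩ hv
    rw [← A7_sum T (fun q => a q * st (S.dd S' q v))]
    exact h2

theorem exists_form {S : SysR G X Q} (hS : S.Ok) (S' : Finset Q) (hne : S.Sel S' ≠ ⊥) :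
    ∃ B : S.Sel S' →ₗ[RG G] DuR (S.Sel S'), B ≠ 0 := by
  obtain ⟨T, h, hT⟩ := good_exists hS S'
  have := hS.finY T
  have hle : S.Sel S' ≤ S.Y T := fun x hx => ((mem_Sel_cc h).1 hx).1
  have hne' : (S.Sel S').comap (S.Y T).subtype ≠ ⊥ := by
    intro h1
    apply hne
    rw [Submodule.eq_bot_iff]
    intro x hx
    have h2 : (⟨x, hle hx⟩ : S.Y T) ∈ (S.Sel S').comap (S.Y T).subtype := hx
    rw [h1, Submodule.mem_bot] at h2
    exact congrArg Subtype.val h2
  obtain ⟨B, hB⟩ := exists_B hS.odd (ι := T) ((S.Sel S').comap (S.Y T).subtype) (A7_pi S T (S.cc S'))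
    (A7_pi S T (S.dd S')) (A7_hV h) (A7_inj h hT)
    (A7_rng _ _ _ (A7_hV h) (A7_inj h hT) (A7_iso h)
      (by rw [card_eq hS hT, A7_card]))
    (fun M _ _ _ => hS.sd T (card_eq hS hT) M) hne'
  obtain ⟨e, -⟩ : ∃ e : (S.Sel S').comap (S.Y T).subtype ≃ₗ[RG G] S.Sel S', True :=
    ⟨Submodule.comapSubtypeEquivOfLe hle, trivial⟩
  refine ⟨(A7_dual e.symm.toLinearMap).comp (B.comp e.symm.toLinearMap), fun h0 => hB ?_⟩
  apply LinearMap.ext
  intro v
  apply DFunLike.ext
  intro w
  have h1 : ((A7_dual e.symm.toLinearMap).comp (B.comp e.symm.toLinearMap)) (e v) (e w) = 0 := by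
    rw [h0]
    rfl
  rw [LinearMap.comp_apply, LinearMap.comp_apply, A7_dual_apply, LinearEquiv.coe_coe, e.symm_apply_apply,
    e.symm_apply_apply] at h1
  rw [h1]
  rfl

theorem exists_gamma {S : SysR G X Q} (hS : S.Ok) {S' T : Finset Q} (h : S' ⊆ T) (hT : S.Good T)
    {f : RG G} (hf : f * f = f) (hst : st f = f) (b : S.Sel S' →ₗ[RG G] RG G)
    (hb : ∀ v, b v * f = b v) :
    ∃ γ : Q → RG G, (∀ q, f * γ q = γ q) ∧ ∀ v : S.Sel S', b v = S.bh S' T γ v := by
  have := hS.finY T
  have hle : S.Sel S' ≤ S.Y T := fun x hx => ((mem_Sel_cc h).1 hx).1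
  obtain ⟨a, ha⟩ := A7_surj ((S.Sel S').comap (S.Y T).subtype) (A7_pi S T (S.dd S')) (A7_inj h hT)
    (A7_dual (b.comp (Submodule.comapSubtypeEquivOfLe hle).toLinearMap) A7_tau)
  obtain ⟨γ, hγ⟩ : ∃ γ : Q → RG G, ∀ q : T, γ q.1 = a q :=
    ⟨fun q => if hq : q ∈ T then a ⟨q, hq⟩ else 0, fun q => dif_pos q.2⟩
  have h1 : ∀ v : S.Sel S', tau (S.bh S' T γ v) = tau (b v) := by
    intro v
    have h2 := DFunLike.congr_fun ha (⟨⟨v, hle v.2⟩, v.2⟩ : (S.Sel S').comap (S.Y T).subtype)
    rw [A7_phi_apply, A7_dual_apply] at h2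
    have h3 : tau (∑ q : T, a q * st (A7_pi S T (S.dd S') (⟨v, hle v.2⟩ : S.Y T) q)) = tau (b v) := h2
    rw [← h3, SysR.bh_apply, ← A7_sum T (fun q => S.dd S' q v * st (γ q)), ← tau_st, st_sum]
    congr 1
    refine Finset.sum_congr rfl fun q _ => ?_
    rw [A7_pi_apply, hγ, st_mul, st_st]
  have h2 : ∀ v : S.Sel S', S.bh S' T γ v = b v := by
    intro v
    have h3 : S.bh S' T γ v + b v = 0 := by
      apply eq_zero_of_tau
      intro x
      rw [mul_add, tau_add]
      have h4 := h1 (x • v)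
      rw [Submodule.coe_smul, map_smul, map_smul, smul_eq_mul, smul_eq_mul] at h4
      rw [h4]
      exact CharTwo.add_self_eq_zero _
    have h5 := congrArg (fun z => z + b v) h3
    simp only [add_assoc, add_self, add_zero, zero_add] at h5
    exact h5
  refine ⟨fun q => f * γ q, fun q => by rw [← mul_assoc, hf], fun v => ?_⟩
  rw [SysR.bh_apply]
  have h3 : ∑ q ∈ T, S.dd S' q v * st (f * γ q) = S.bh S' T γ v * f := by
    rw [SysR.bh_apply, Finset.sum_mul]
    refine Finset.sum_congr rfl fun q _ => ?_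
    rw [st_mul, hst, mul_assoc]
  rw [h3, h2, hb]

end H26OD
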