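import Mathlib

/-!
ROW Ja (MP_78d38b_OD, helper26, about 150 lines): Kummer theory in a Galois extension which contains the roots of several cubics.  Only Mathlib.

PROOF of kummer (by induction on `J`, for all `x ≠ 0`, `y`).  `J = ∅`: `hfix` says that `y` is fixed by all `g : Ω ≃ₐ[K] Ω` fixing `N` pointwise. Ω / N is Galois (`IsGalois.tower_top_of_isGalois K N Ω`), so `y = algebraMap N Ω z` (`IsGalois.mem_range_algebraMap_iff_fixed`: an automorphism over `N` restricts to one over `K`, `AlgEquiv.restrictScalars K`), `z² = x` in `N`, `I' = ∅`.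
`J = insert k J0` (`k ∉ J0`). Let `H0` be the set of the `g` fixing `N` and the roots `r j m`, `j ∈ J0`. (1) Let `g ∈ H0` with `g (dl k) = dl k`, `dl k := (r k 0 - r k 1) (r k 0 - r k 2) (r k 1 - r k 2) ≠ 0` (`disc`: `(dl k)² = Δ k ≠ 0`). `g` permutes the three different roots `r k 0, r k 1, r k 2` (`perm`); the three transpositions map `dl k` to `- dl k ≠ dl k`
(compute), so `g` acts as the identity or a 3-cycle and `g (g (g (r k m))) = r k m`. So `g³ ∈ H` fixes `y`. As `g y = ± y` (`(g y)² = x = y²`), `g y = y`  (if `g y = -y` then `g³ y = -y`, `y = 0`, contradiction).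
(2) If all `g ∈ H0` fix `y`: induction with `y`. Otherwise there is `h0 ∈ H0` with `h0 y = -y`, so `h0 (dl k) = - dl k` by (1) (as `g (dl k) = ± dl k` for all `g`, because `(dl k)² ∈ K`). Then every `g ∈ H0` fixes `y * dl k`: if `g (dl k) = dl k` by (1); if `g (dl k) = - dl k` then `g * h0 ∈ H0` fixes `dl k`, so it fixes `y`, `g (-y) = y`, `g y = -y`.
`(y * dl k)² = x * Δ k`; induction with `x * Δ k`, `I' ∪ {k}`.
disc: from the identity `x³ + a x + b = (x - r0)(x - r1)(x - r2)` for all `x` (`roots`; at `x = 0, 1, -1`): `r0 + r1 + r2 = 0`, `r0 r1 + r0 r2 + r1 r2 = a`, `r0 r1 r2 = -b`, then ring (see `Ex_disc`, `noroot` in Pool/Agent/H88/OD/Ex.lean). perm: `g (r k m)` is a root.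
-/

set_option autoImplicit false
set_option linter.unusedSectionVars false
open scoped Classical

namespace H26OD

/-- The field `Ω` is Galois over `K` and contains the roots `r j m` of the cubics `x^3 + a j x + b j`. -/
structure Big (K Ω : Type) [Field K] [Field Ω] [Algebra K Ω] {ι : Type} (a b : ι → K)
    (r : ι → Fin 3 → Ω) : Prop where
  gal : IsGalois K Ω
  roots : ∀ (j : ι) (x : Ω), x ^ 3 + algebraMap K Ω (a j) * x + algebraMap K Ω (b j) =
    (x - r j 0) * (x - r j 1) * (x - r j 2)

/-- Minus the number `4 a^3 + 27 b^2`. -/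
def dd3 {R : Type} [CommRing R] (a b : R) : R := -(4 * a ^ 3 + 27 * b ^ 2)

variable {K N Ω : Type} [Field K] [CharZero K] [Field N] [Field Ω] [Algebra K N] [Algebra N Ω]
  [Algebra K Ω] [IsScalarTower K N Ω] [FiniteDimensional K Ω] {ι : Type} {a b : ι → K}
  {r : ι → Fin 3 → Ω}

omit [CharZero K] [FiniteDimensional K Ω] in
private lemma ja_root (B : Big K Ω a b r) (j : ι) (m : Fin 3) :
    (r j m) ^ 3 + algebraMap K Ω (a j) * (r j m) + algebraMap K Ω (b j) = 0 := by
  rw [B.roots j (r j m)]
  fin_cases m <;> simp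

private lemma ja_two (K Ω : Type) [Field K] [CharZero K] [Field Ω] [Algebra K Ω] :
    (2 : Ω) ≠ 0 := by
  have : CharZero Ω := charZero_of_injective_algebraMap (algebraMap K Ω).injective
  exact two_ne_zero

theorem Big.disc (B : Big K Ω a b r) (j : ι) :
    ((r j 0 - r j 1) * (r j 0 - r j 2) * (r j 1 - r j 2)) ^ 2 =
      algebraMap K Ω (dd3 (a j) (b j)) := by
  have h0 := B.roots j 0
  have h1 := B.roots j 1
  have h2 := B.roots j (-1)
  have h2ne : (2 : Ω) ≠ 0 := ja_two K Ω
  unfold dd3
  rw [map_neg, map_add, map_mul, map_mul, map_pow, map_pow, map_ofNat, map_ofNat]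
  generalize algebraMap K Ω (a j) = A at *
  generalize algebraMap K Ω (b j) = C at *
  generalize r j 0 = x at *
  generalize r j 1 = y at *
  generalize r j 2 = z at *
  have hs : 2 * (x + y + z) = 0 := by linear_combination h1 + h2 - 2 * h0
  have hs' : z = -x - y := by
    have h3 := (mul_eq_zero.mp hs).resolve_left h2ne
    linear_combination h3
  subst hs'
  have hC : C = x * y * (x + y) := by linear_combination h0
  have hA : A = -(x ^ 2 + x * y + y ^ 2) := by
    linear_combination h1 - hC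
  subst hC
  subst hA
  ring

theorem Big.perm (B : Big K Ω a b r) (g : Ω ≃ₐ[K] Ω) (j : ι) (m : Fin 3) :
    ∃ m' : Fin 3, g (r j m) = r j m' := by
  have h1 := congrArg g (ja_root B j m)
  rw [map_add, map_add, map_mul, map_pow, AlgEquiv.commutes, AlgEquiv.commutes, map_zero,
    B.roots j (g (r j m))] at h1
  rcases mul_eq_zero.mp h1 with h | h
  · rcases mul_eq_zero.mp h with h | h
    · exact ⟨0, sub_eq_zero.mp h⟩
    · exact ⟨1, sub_eq_zero.mp h⟩
  · exact ⟨2, sub_eq_zero.mp h⟩

private lemma ja_cube (B : Big K Ω a b r) (k : ι)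
    (hne : (r k 0 - r k 1) * (r k 0 - r k 2) * (r k 1 - r k 2) ≠ 0) (g : Ω ≃ₐ[K] Ω)
    (hg : g ((r k 0 - r k 1) * (r k 0 - r k 2) * (r k 1 - r k 2)) =
      (r k 0 - r k 1) * (r k 0 - r k 2) * (r k 1 - r k 2)) (m : Fin 3) :
    g (g (g (r k m))) = r k m := by
  have h2ne : (2 : Ω) ≠ 0 := ja_two K Ω
  obtain ⟨s0, e0⟩ := B.perm g k 0
  obtain ⟨s1, e1⟩ := B.perm g k 1
  obtain ⟨s2, e2⟩ := B.perm g k 2
  rw [map_mul, map_mul, map_sub, map_sub, map_sub, e0, e1, e2] at hg
  have hneg : (r k 0 - r k 1) * (r k 0 - r k 2) * (r k 1 - r k 2) ≠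
      -((r k 0 - r k 1) * (r k 0 - r k 2) * (r k 1 - r k 2)) := by
    intro h
    have h3 : 2 * ((r k 0 - r k 1) * (r k 0 - r k 2) * (r k 1 - r k 2)) = 0 := by
      linear_combination h
    exact hne ((mul_eq_zero.mp h3).resolve_left h2ne)
  have hF : ∀ t : Fin 3, t = 0 ∨ t = 1 ∨ t = 2 := by decide
  rcases hF s0 with rfl | rfl | rfl <;> rcases hF s1 with rfl | rfl | rfl <;>
    rcases hF s2 with rfl | rfl | rfl <;>
    first
    | (exfalso; apply hne; linear_combination (-1 : Ω) * hg)
    | (exfalso; apply hneg; linear_combination (-1 : Ω) * hg)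
    | (rcases hF m with rfl | rfl | rfl <;> simp only [e0, e1, e2])

theorem Big.kummer (B : Big K Ω a b r) (hne : ∀ j, dd3 (a j) (b j) ≠ 0) (J : Finset ι) {y : Ω}
    {x : K} (hx : x ≠ 0) (hy : y ^ 2 = algebraMap K Ω x)
    (hfix : ∀ g : Ω ≃ₐ[K] Ω, (∀ z : N, g (algebraMap N Ω z) = algebraMap N Ω z) →
      (∀ j ∈ J, ∀ m, g (r j m) = r j m) → g y = y) :
    ∃ I' ⊆ J, IsSquare (algebraMap K N (x * ∏ j ∈ I', dd3 (a j) (b j))) := by
  have h2ne : (2 : Ω) ≠ 0 := ja_two K Ω
  induction J using Finset.induction_on generalizing y x with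
  | empty =>
    have : IsGalois K Ω := B.gal
    have : IsGalois N Ω := IsGalois.tower_top_of_isGalois K N Ω
    have : FiniteDimensional N Ω := FiniteDimensional.right K N Ω
    have h1 : y ∈ Set.range (algebraMap N Ω) := by
      rw [IsGalois.mem_range_algebraMap_iff_fixed]
      intro f
      have h2 := hfix (f.restrictScalars K) (fun z => f.commutes z) (fun j hj => by simp at hj)
      exact h2
    obtain ⟨z, rfl⟩ := h1
    refine ⟨∅, Finset.Subset.refl _, z, ?_⟩
    rw [Finset.prod_empty, mul_one]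
    apply (algebraMap N Ω).injective
    rw [← IsScalarTower.algebraMap_apply, ← hy, map_mul, sq]
  | insert k J0 hk ih =>
    obtain ⟨dl, hdl⟩ : ∃ dl, dl = (r k 0 - r k 1) * (r k 0 - r k 2) * (r k 1 - r k 2) := ⟨_, rfl⟩
    have hdl2 : dl ^ 2 = algebraMap K Ω (dd3 (a k) (b k)) := by rw [hdl]; exact B.disc k
    have hdl0 : dl ≠ 0 := by
      intro h0
      rw [h0, zero_pow two_ne_zero] at hdl2
      exact hne k ((map_eq_zero (algebraMap K Ω)).mp hdl2.symm)
    have hy0 : y ≠ 0 := by
      intro h0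
      rw [h0, zero_pow two_ne_zero] at hy
      exact hx ((map_eq_zero (algebraMap K Ω)).mp hy.symm)
    have hpm : ∀ (g : Ω ≃ₐ[K] Ω) (u : Ω) (v : K), u ^ 2 = algebraMap K Ω v → g u = u ∨ g u = -u := by
      intro g u v hu
      have h1 : (g u) ^ 2 = u ^ 2 := by rw [← map_pow, hu, AlgEquiv.commutes]
      exact sq_eq_sq_iff_eq_or_eq_neg.mp h1
    -- (1)
    have key1 : ∀ g : Ω ≃ₐ[K] Ω, (∀ z : N, g (algebraMap N Ω z) = algebraMap N Ω z) →
        (∀ j ∈ J0, ∀ m, g (r j m) = r j m) → g dl = dl → g y = y := by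
      intro g hgN hgJ hgd
      have h3 := hfix (g * g * g) (fun z => by simp only [AlgEquiv.mul_apply, hgN]) (fun j hj m => by
        rcases Finset.mem_insert.mp hj with rfl | hj
        · simp only [AlgEquiv.mul_apply]
          rw [hdl] at hgd hdl0
          exact ja_cube B j hdl0 g hgd m
        · simp only [AlgEquiv.mul_apply, hgJ j hj])
      simp only [AlgEquiv.mul_apply] at h3
      rcases hpm g y x hy with h | h
      · exact h
      · exfalso
        rw [h, map_neg, h, neg_neg, h] at h3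
        apply hy0
        have h4 : 2 * y = 0 := by linear_combination -h3
        exact (mul_eq_zero.mp h4).resolve_left h2ne
    by_cases hall : ∀ g : Ω ≃ₐ[K] Ω, (∀ z : N, g (algebraMap N Ω z) = algebraMap N Ω z) →
        (∀ j ∈ J0, ∀ m, g (r j m) = r j m) → g y = y
    · obtain ⟨I', hI, hs⟩ := ih hx hy hall
      exact ⟨I', hI.trans (Finset.subset_insert k J0), hs⟩
    · push Not at hall
      obtain ⟨h0, h0N, h0J, h0y⟩ := hall
      have h0y' : h0 y = -y := (hpm h0 y x hy).resolve_left h0y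
      have h0d : h0 dl = -dl := by
        rcases hpm h0 dl _ hdl2 with h | h
        · exact absurd (key1 h0 h0N h0J h) h0y
        · exact h
      have hx' : x * dd3 (a k) (b k) ≠ 0 := mul_ne_zero hx (hne k)
      have hy' : (y * dl) ^ 2 = algebraMap K Ω (x * dd3 (a k) (b k)) := by
        rw [mul_pow, hy, hdl2, map_mul]
      obtain ⟨I', hI, hs⟩ := ih hx' hy' (by
        intro g hgN hgJ
        rw [map_mul]
        rcases hpm g dl _ hdl2 with h | h
        · rw [key1 g hgN hgJ h, h]
        · have h5 := key1 (g * h0) (fun z => by simp only [AlgEquiv.mul_apply, h0N, hgN])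
            (fun j hj m => by simp only [AlgEquiv.mul_apply, h0J j hj, hgJ j hj])
            (by rw [AlgEquiv.mul_apply, h0d, map_neg, h, neg_neg])
          rw [AlgEquiv.mul_apply, h0y', map_neg] at h5
          have h6 : g y = -y := by linear_combination -h5
          rw [h6, h]
          ring)
      refine ⟨insert k I', Finset.insert_subset_insert k hI, ?_⟩
      rw [Finset.prod_insert (fun h => hk (hI h)), ← mul_assoc]
      exact hs

end H26OD
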