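import Pool.Agent.H26.OD.Ja

/-!
ROW Jb (MP_78d38b_OD, helper26, about 150 lines): automorphisms which act as a 3-cycle on the roots of one cubic and fix the roots of the others.  Use the STATEMENTS of Ja (`Big`, `disc`, `perm`, `kummer`).  Only Mathlib.

PROOF of cycle. `H := {g | g fixes N pointwise and the roots r j m for j ≠ k}`. H is a normal subgroup: for `s : Ω ≃ₐ[K] Ω`, `h ∈ H`: `s⁻¹ h s` fixes `N`: `s` maps the image of `N` to itself (`N / K` normal: `AlgEquiv.restrictNormal`, or `s (algebraMap N Ω z) = algebraMap N Ω (s.restrictNormal N z)`: `AlgEquiv.restrictNormal_commutes`), and `s` permutes the roots of each cubic (perm).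
(1) No root `r k m` is fixed by all of `H`. Suppose `r k m` is. For every `s` and `h ∈ H`: `h (s (r k m)) = s ((s⁻¹ h s) (r k m)) = s (r k m)`. `f_k = x³ + a_k x + b_k` has no root in `K`, so it is irreducible over `K` (degree three: `Polynomial.Monic.irreducible_iff_roots_eq_zero_of_degree_le_three` or see noroot in Pool/Agent/H88/OD/Ex.lean), and `Ω / K` is normal,
so the group acts transitively on its roots (`minpoly K (r k m) = f_k = minpoly K (r k m')`; `Normal.exists_algEquiv..`, `IsConjRoot`/`isConjRoot_iff_exists_algEquiv` ): every root `r k m'` is `s (r k m)`. So all roots of `f_k` are fixed by `H`, hence `y := (r k 0 - r k 1)(r k 0 - r k 2)(r k 1 - r k 2)` is fixed by `H`,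
`y² = dd3 (a k) (b k)` (disc). `kummer` with `J := Finset.univ.erase k`, `x := dd3 (a k) (b k)`: `x * ∏_{I'} = ∏_{insert k I'}` is a square in `N`: contradiction to `hind`.
(2) So for every `m` there is `g ∈ H` with `g (r k m) ≠ r k m`. Then some `h ∈ H` moves all three roots: take `g1 ∈ H` with `g1 r0 ≠ r0`. If `g1` moves all roots done. Otherwise it is the transposition of `r0` and another root `ri`, fixing the third `rl`. Take `g2 ∈ H` with `g2 rl ≠ rl`; if `g2` moves all roots done; otherwise `g2` is a transposition of `rl` with `r0` or `ri`, and `g1 * g2` moves all roots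
(case check; `g` permutes the three different roots injectively).
cube: an automorphism which moves all three roots is a 3-cycle on them, so its cube fixes them (case check).
-/

set_option autoImplicit false
set_option linter.unusedSectionVars false
open scoped Classical

namespace H26OD

variable {K N Ω : Type} [Field K] [CharZero K] [Field N] [Field Ω] [Algebra K N] [Algebra N Ω]
  [Algebra K Ω] [IsScalarTower K N Ω] [FiniteDimensional K Ω] {ι : Type} {a b : ι → K}
  {r : ι → Fin 3 → Ω}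

lemma Jb_prod_ne (B : Big K Ω a b r) {k : ι} (hne : dd3 (a k) (b k) ≠ 0) :
    (r k 0 - r k 1) * (r k 0 - r k 2) * (r k 1 - r k 2) ≠ 0 := by
  intro h
  have h1 := B.disc k
  rw [h, zero_pow two_ne_zero] at h1
  exact hne ((map_eq_zero (algebraMap K Ω)).1 h1.symm)

lemma Jb_inj (B : Big K Ω a b r) {k : ι} (hne : dd3 (a k) (b k) ≠ 0) :
    Function.Injective (r k) := by
  have h1 := Jb_prod_ne B hne
  have h01 : r k 0 ≠ r k 1 := by
    intro h
    apply h1
    rw [h]
    ring
  have h02 : r k 0 ≠ r k 2 := by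
    intro h
    apply h1
    rw [h]
    ring
  have h12 : r k 1 ≠ r k 2 := by
    intro h
    apply h1
    rw [h]
    ring
  intro m m' h
  fin_cases m <;> fin_cases m'
  · rfl
  · exact absurd h h01
  · exact absurd h h02
  · exact absurd h.symm h01
  · rfl
  · exact absurd h h12
  · exact absurd h.symm h02
  · exact absurd h.symm h12
  · rfl

lemma Jb_perm (B : Big K Ω a b r) {k : ι} (hd : Function.Injective (r k)) (g : Ω ≃ₐ[K] Ω) :
    ∃ σ : Equiv.Perm (Fin 3), ∀ m, g (r k m) = r k (σ m) := by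
  choose f hf using fun m => B.perm g k m
  have hf' : Function.Injective f := fun m m' h => hd (g.injective (by rw [hf, hf, h]))
  exact ⟨Equiv.ofBijective f (Finite.injective_iff_bijective.1 hf'), hf⟩

lemma Jb_dec1 : ∀ σ : Equiv.Perm (Fin 3), (∀ m, σ m ≠ m) → ∀ m, σ (σ (σ m)) = m := by decide

lemma Jb_dec2 : ∀ σ : Equiv.Perm (Fin 3), (∀ m, σ (σ (σ m)) = m) ∨
    (σ 0 = 1 ∧ σ 1 = 0 ∧ σ 2 = 2) ∨ (σ 0 = 2 ∧ σ 1 = 1 ∧ σ 2 = 0) ∨
    (σ 0 = 0 ∧ σ 1 = 2 ∧ σ 2 = 1) := by decide

lemma Jb_dec3 : ∀ (σ τ : Equiv.Perm (Fin 3)) (l m0 : Fin 3), σ 0 ≠ 0 → σ l = l → τ l ≠ l →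
    τ m0 = m0 → ∀ m, σ (τ m) ≠ m := by decide

lemma Jb_root (B : Big K Ω a b r) (j : ι) (m : Fin 3) :
    (r j m) ^ 3 + algebraMap K Ω (a j) * r j m + algebraMap K Ω (b j) = 0 := by
  rw [B.roots]
  fin_cases m <;> simp

/-- The group acts transitively on the roots of an irreducible cubic. -/
lemma Jb_trans (B : Big K Ω a b r) (j : ι) (hir : ∀ t : K, t ^ 3 + a j * t + b j ≠ 0)
    (m m' : Fin 3) : ∃ s : Ω ≃ₐ[K] Ω, s (r j m) = r j m' := by
  have := B.gal
  have hnat : (Polynomial.X ^ 3 + Polynomial.C (a j) * Polynomial.X + Polynomial.C (b j) :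
      Polynomial K).natDegree = 3 := by compute_degree!
  have hmon : (Polynomial.X ^ 3 + Polynomial.C (a j) * Polynomial.X + Polynomial.C (b j) :
      Polynomial K).Monic := by monicity!
  have hirr : Irreducible (Polynomial.X ^ 3 + Polynomial.C (a j) * Polynomial.X +
      Polynomial.C (b j) : Polynomial K) := by
    rw [hmon.irreducible_iff_roots_eq_zero_of_degree_le_three (by rw [hnat]; norm_num)
      (by rw [hnat])]
    refine Multiset.eq_zero_of_forall_notMem fun t ht => ?_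
    rw [Polynomial.mem_roots hmon.ne_zero, Polynomial.IsRoot.def] at ht
    apply hir t
    simpa using ht
  have hmin : ∀ m : Fin 3, (Polynomial.X ^ 3 + Polynomial.C (a j) * Polynomial.X +
      Polynomial.C (b j) : Polynomial K) = minpoly K (r j m) := by
    intro m
    refine minpoly.eq_of_irreducible_of_monic hirr ?_ hmon
    simpa using Jb_root B j m
  have hc : IsConjRoot K (r j m) (r j m') := (hmin m).symm.trans (hmin m')
  obtain ⟨s, hs⟩ := isConjRoot_iff_exists_algEquiv.1 hc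
  exact ⟨s⁻¹, by
    rw [← hs]
    exact s.symm_apply_apply _⟩

theorem Big.cycle (B : Big K Ω a b r) [Fintype ι] [IsGalois K N]
    (hir : ∀ (j : ι) (t : K), t ^ 3 + a j * t + b j ≠ 0)
    (hind : ∀ I : Finset ι, I.Nonempty →
      ¬ IsSquare (algebraMap K N (∏ j ∈ I, dd3 (a j) (b j)))) (k : ι) :
    ∃ h : Ω ≃ₐ[K] Ω, (∀ z : N, h (algebraMap N Ω z) = algebraMap N Ω z) ∧
      (∀ j, j ≠ k → ∀ m, h (r j m) = r j m) ∧ ∀ m, h (r k m) ≠ r k m := by
  have hgal := B.gal
  have hne : ∀ j, dd3 (a j) (b j) ≠ 0 := by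
    intro j h
    apply hind {j} (Finset.singleton_nonempty j)
    rw [Finset.prod_singleton, h, map_zero]
    exact ⟨0, (mul_zero 0).symm⟩
  have hd : ∀ j, Function.Injective (r j) := fun j => Jb_inj B (hne j)
  let H : (Ω ≃ₐ[K] Ω) → Prop := fun g => (∀ z : N, g (algebraMap N Ω z) = algebraMap N Ω z) ∧
    ∀ j, j ≠ k → ∀ m, g (r j m) = r j m
  have hmul : ∀ g h, H g → H h → H (g * h) := by
    rintro g h ⟨h1, h2⟩ ⟨h3, h4⟩
    refine ⟨fun z => ?_, fun j hj m => ?_⟩
    · rw [AlgEquiv.mul_apply, h3, h1]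
    · rw [AlgEquiv.mul_apply, h4 j hj, h2 j hj]
  have hconj : ∀ s h : Ω ≃ₐ[K] Ω, H h → H (s⁻¹ * h * s) := by
    rintro s h ⟨h1, h2⟩
    have hs : ∀ x, s⁻¹ (s x) = x := fun x => s.symm_apply_apply x
    refine ⟨fun z => ?_, fun j hj m => ?_⟩
    · rw [AlgEquiv.mul_apply, AlgEquiv.mul_apply, ← AlgEquiv.restrictNormal_commutes s N z, h1,
        AlgEquiv.restrictNormal_commutes s N z, hs]
    · rw [AlgEquiv.mul_apply, AlgEquiv.mul_apply]
      obtain ⟨m', hm'⟩ := B.perm s j m
      rw [hm', h2 j hj, ← hm', hs]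
  have hmove : ∀ m, ∃ g, H g ∧ g (r k m) ≠ r k m := by
    intro m
    by_contra hcon
    push Not at hcon
    have hall : ∀ g, H g → ∀ m', g (r k m') = r k m' := by
      intro g hg m'
      obtain ⟨s, hs⟩ := Jb_trans B k (hir k) m m'
      have h1 := hcon (s⁻¹ * g * s) (hconj s g hg)
      rw [AlgEquiv.mul_apply, AlgEquiv.mul_apply, hs] at h1
      have h2 : s (s⁻¹ (g (r k m'))) = g (r k m') := s.apply_symm_apply _
      rw [← h2, h1, hs]
    obtain ⟨I', hI', hsq⟩ := B.kummer (N := N) hne (Finset.univ.erase k) (hne k) (B.disc k) (by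
      intro g h1 h2
      have hg : H g := ⟨h1, fun j hj m => h2 j (Finset.mem_erase.2 ⟨hj, Finset.mem_univ j⟩) m⟩
      simp only [map_mul, map_sub, hall g hg])
    have hk : k ∉ I' := fun h => (Finset.mem_erase.1 (hI' h)).1 rfl
    rw [← Finset.prod_insert (f := fun j => dd3 (a j) (b j)) hk] at hsq
    exact hind _ (Finset.insert_nonempty k I') hsq
  obtain ⟨g1, hg1, h1⟩ := hmove 0
  obtain ⟨σ, hσ⟩ := Jb_perm B (hd k) g1
  by_cases hf1 : ∀ m, g1 (r k m) ≠ r k m
  · exact ⟨g1, hg1.1, hg1.2, hf1⟩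
  push Not at hf1
  obtain ⟨l, hl⟩ := hf1
  obtain ⟨g2, hg2, h2⟩ := hmove l
  obtain ⟨τ, hτ⟩ := Jb_perm B (hd k) g2
  by_cases hf2 : ∀ m, g2 (r k m) ≠ r k m
  · exact ⟨g2, hg2.1, hg2.2, hf2⟩
  push Not at hf2
  obtain ⟨m0, hm0⟩ := hf2
  have hg12 := hmul g1 g2 hg1 hg2
  refine ⟨g1 * g2, hg12.1, hg12.2, fun m hm => ?_⟩
  rw [AlgEquiv.mul_apply, hτ, hσ] at hm
  refine Jb_dec3 σ τ l m0 ?_ ?_ ?_ ?_ m (hd k hm)
  · intro h
    apply h1
    rw [hσ, h]
  · rw [hσ] at hl
    exact hd k hl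
  · intro h
    apply h2
    rw [hτ, h]
  · rw [hτ] at hm0
    exact hd k hm0

theorem Big.cube (B : Big K Ω a b r) {h : Ω ≃ₐ[K] Ω} {k : ι}
    (hne : dd3 (a k) (b k) ≠ 0) (hh : ∀ m, h (r k m) ≠ r k m) (m : Fin 3) :
    h (h (h (r k m))) = r k m := by
  obtain ⟨σ, hσ⟩ := Jb_perm B (Jb_inj B hne) h
  rw [hσ, hσ, hσ, Jb_dec1 σ]
  intro m hm
  apply hh m
  rw [hσ, hm]

/-- An automorphism which fixes the square root of the discriminant and one which moves all roots. -/
theorem Big.even (B : Big K Ω a b r) {h : Ω ≃ₐ[K] Ω} {k : ι}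
    (hne : dd3 (a k) (b k) ≠ 0)
    (hh : h ((r k 0 - r k 1) * (r k 0 - r k 2) * (r k 1 - r k 2)) =
      (r k 0 - r k 1) * (r k 0 - r k 2) * (r k 1 - r k 2)) (m : Fin 3) :
    h (h (h (r k m))) = r k m := by
  obtain ⟨σ, hσ⟩ := Jb_perm B (Jb_inj B hne) h
  have h2 : (2 : Ω) ≠ 0 := by
    have : CharZero Ω := charZero_of_injective_algebraMap (algebraMap K Ω).injective
    exact two_ne_zero
  have hp := Jb_prod_ne B hne
  simp only [map_mul, map_sub, hσ] at hh
  have key : ((r k 0 - r k 1) * (r k 0 - r k 2) * (r k 1 - r k 2)) =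
      -((r k 0 - r k 1) * (r k 0 - r k 2) * (r k 1 - r k 2)) → False := by
    intro h3
    apply hp
    have h4 : 2 * ((r k 0 - r k 1) * (r k 0 - r k 2) * (r k 1 - r k 2)) = 0 := by
      linear_combination h3
    exact (mul_eq_zero.1 h4).resolve_left h2
  rcases Jb_dec2 σ with h3 | ⟨h3, h4, h5⟩ | ⟨h3, h4, h5⟩ | ⟨h3, h4, h5⟩
  · rw [hσ, hσ, hσ, h3]
  · exfalso
    rw [h3, h4, h5] at hh
    exact key (by linear_combination -hh)
  · exfalso
    rw [h3, h4, h5] at hh
    exact key (by linear_combination -hh)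
  · exfalso
    rw [h3, h4, h5] at hh
    exact key (by linear_combination -hh)

end H26OD
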