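import Pool.Agent.H26.OD.Jb
import Pool.Agent.H76.OD.Cha

/-!
ROW Jc (MP_78d38b_OD, helper26, about 200 lines): an automorphism with prescribed signs which acts as a 3-cycle on the roots of the cubics `j ≠ i`.  Use the STATEMENTS of Ja, Jb and `H76OD.exists_fieldM` (Pool/Agent/H76/OD/Cha.lean), `H30MQ.exists_sigma`.

PROOF. (1) Field: let `P := ∏ j, (X³ + a j X + b j) ∈ N'[X]`, `N₁ := P.SplittingField` (over `N'`; a number field). `exists_fieldM (K := K) N₁ D₁` with `D₁` the image of `D ∪ {Δ_j}` in `𝓞 N₁` gives `Ω`, Galois over `K`, with square roots; `s d := ` the square root of the image of `d` (`Algebra N' Ω` := the composition, scalar towers by `IsScalarTower.of_algebraMap_eq`),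
and the roots `r j m` (images of the roots in `N₁`: the cubic splits in `N₁`, it divides `P`; see `noroot` in Pool/Agent/H88/OD/Ex.lean for `x³ + a x + b = (x - r0)(x - r1)(x - r2)` from `Splits`). `Big K Ω (fun j => (a j : K)) (fun j => (b j : K)) r`. (`Algebra N Ω` := composition.)
(2) `σ0 : Ω ≃ₐ[N'] Ω` from `H30MQ.exists_sigma (K := N') (L := Ω) D' hD' s hs φ` with `D' := D ∪ {Δ_j : 𝓞 N'}` (Δ_j ≠ 0 integral): `σ0 (s d) = if φ (sc d) = 0 then s d else - s d` for `d ∈ D'`. For `j ≠ i`: `φ (sc Δ_j) = 0`, so `σ0` fixes `s Δ_j`; `δ_j := (r j 0 - r j 1)(r j 0 - r j 2)(r j 1 - r j 2)` has `δ_j² = Δ_j = (s Δ_j)²`, so `δ_j = ± s Δ_j` is fixed, so (Big.even) `σ0³` fixes the roots of `f_j`.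
(3) For `k ≠ i` let `h_k` from `Big.cycle`; it fixes `N` and `θ` (the image of `θ` is a root of `f_i`, so it is one of the `r i m`, and `i ≠ k`), so it fixes `N'` (hgen). `h_k (s d) = ± s d` since `(s d)²` is in `N'`, so `h_k⁴` fixes `s d`, `d ∈ D`; `h_k⁴ = h_k` on the roots of `f_k` (Big.cube), so it moves all roots of `f_k`, and it fixes the roots of `f_j`, `j ≠ k`.
(4) `τ := σ0³ ∘ ∏_{k ≠ i} h_k⁴` (in any order: e.g. prove by induction on a finset `J` of indices `k ≠ i`: there is `ρ_J` fixing `N'`, all `s d`, the roots of `f_j` for `j ∉ J`, and moving all roots of `f_k` for `k ∈ J`: `ρ_{insert k J} := ρ_J * h_k⁴`). Then `τ = σ0³ * ρ`: on `N'` trivial; `τ (s d) = σ0³ (s d)` = the sign cubed = the sign; on the roots of `f_k`, `k ≠ i`: `σ0³` is trivial so `τ` moves all roots.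
-/

set_option autoImplicit false
set_option linter.unusedSectionVars false
open scoped Classical

open WithZero NumberField IsDedekindDomain H38RT
open H38T1 (SC sc scu rep eo la si OddP)

namespace H26OD

private theorem Jc_split {M E : Type} [Field M] [Field E] [Algebra M E] (A B : M)
    {P : Polynomial M} (hP : P ≠ 0)
    (hdvd : (Polynomial.X ^ 3 + Polynomial.C A * Polynomial.X + Polynomial.C B : Polynomial M) ∣ P)
    (hs : (P.map (algebraMap M E)).Splits) :
    ∃ r : Fin 3 → E, ∀ x : E, x ^ 3 + algebraMap M E A * x + algebraMap M E B =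
      (x - r 0) * (x - r 1) * (x - r 2) := by
  have hf3 : (Polynomial.X ^ 3 + Polynomial.C A * Polynomial.X + Polynomial.C B :
      Polynomial M).natDegree = 3 := by
    compute_degree!
  have hfm : (Polynomial.X ^ 3 + Polynomial.C A * Polynomial.X + Polynomial.C B :
      Polynomial M).Monic := by
    monicity!
  set f : Polynomial M := Polynomial.X ^ 3 + Polynomial.C A * Polynomial.X + Polynomial.C B with hf
  have hsp : (f.map (algebraMap M E)).Splits :=
    hs.of_dvd (Polynomial.map_ne_zero hP) (Polynomial.map_dvd _ hdvd)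
  have hfF : (f.map (algebraMap M E)).natDegree = 3 := by
    rw [hfm.natDegree_map, hf3]
  have hcard : (f.map (algebraMap M E)).roots.card = 3 := by
    rw [← hsp.natDegree_eq_card_roots, hfF]
  obtain ⟨r, s, u, hrs⟩ := Multiset.card_eq_three.mp hcard
  refine ⟨![r, s, u], fun x => ?_⟩
  have h := hsp.eval_eq_prod_roots_of_monic (hfm.map _) x
  rw [hrs, hf] at h
  simp only [Polynomial.map_add, Polynomial.map_mul, Polynomial.map_pow, Polynomial.map_X,
    Polynomial.map_C, Polynomial.eval_add, Polynomial.eval_mul, Polynomial.eval_pow,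
    Polynomial.eval_X, Polynomial.eval_C] at h
  rw [h]
  simp [mul_assoc]

private theorem Jc_field {K M : Type} [Field K] [NumberField K] [Field M] [NumberField M]
    [Algebra K M] {ι : Type} [Fintype ι] (A B : ι → M) (D : Finset (𝓞 M)) :
    ∃ (Ω : Type) (_ : Field Ω) (_ : NumberField Ω) (_ : Algebra K Ω) (_ : Algebra M Ω)
      (_ : IsScalarTower K M Ω) (_ : IsGalois K Ω) (s : 𝓞 M → Ω) (r : ι → Fin 3 → Ω),
      (∀ d ∈ D, s d ^ 2 = algebraMap M Ω (d : M)) ∧
      ∀ (j : ι) (x : Ω), x ^ 3 + algebraMap M Ω (A j) * x + algebraMap M Ω (B j) =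
        (x - r j 0) * (x - r j 1) * (x - r j 2) := by
  obtain ⟨P, hPd⟩ : ∃ P : Polynomial M, P = ∏ j, (Polynomial.X ^ 3 +
    Polynomial.C (A j) * Polynomial.X + Polynomial.C (B j)) := ⟨_, rfl⟩
  have hP : P ≠ 0 := by
    rw [hPd]
    refine Finset.prod_ne_zero_iff.2 fun j _ => Polynomial.Monic.ne_zero ?_
    monicity!
  have hN1 : NumberField P.SplittingField :=
    { to_charZero := charZero_of_injective_algebraMap (algebraMap M P.SplittingField).injective
      to_finiteDimensional := by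
        have h1 : FiniteDimensional M P.SplittingField := inferInstance
        have h2 : CharZero P.SplittingField :=
          charZero_of_injective_algebraMap (algebraMap M P.SplittingField).injective
        exact Module.Finite.trans M _ }
  obtain ⟨D1, hD1⟩ : ∃ D1 : Finset (𝓞 P.SplittingField),
    D1 = D.image (algebraMap (𝓞 M) (𝓞 P.SplittingField)) := ⟨_, rfl⟩
  obtain ⟨Ω, i1, i2, i3, i4, i5, i6, s, hs⟩ := H76OD.exists_fieldM (K := K) P.SplittingField D1
  let hA : Algebra M Ω := ((algebraMap P.SplittingField Ω).comp (algebraMap M P.SplittingField)).toAlgebra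
  have hmap : ∀ x : M, algebraMap M Ω x = algebraMap P.SplittingField Ω (algebraMap M P.SplittingField x) :=
    fun _ => rfl
  have hT : IsScalarTower K M Ω := IsScalarTower.of_algebraMap_eq fun x => by
    rw [hmap, ← IsScalarTower.algebraMap_apply K M P.SplittingField,
      ← IsScalarTower.algebraMap_apply K P.SplittingField Ω]
  have hr : ∀ j, ∃ r : Fin 3 → Ω, ∀ x : Ω,
      x ^ 3 + algebraMap M Ω (A j) * x + algebraMap M Ω (B j) = (x - r 0) * (x - r 1) * (x - r 2) :=
    fun j => Jc_split (A j) (B j) hP (by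
      rw [hPd]
      exact Finset.dvd_prod_of_mem _ (Finset.mem_univ j)) (by
      have h1 := (Polynomial.SplittingField.splits P).map (algebraMap P.SplittingField Ω)
      rw [Polynomial.map_map] at h1
      exact h1)
  choose r hr using hr
  refine ⟨Ω, i1, i2, i3, hA, hT, i6, fun d => s (algebraMap (𝓞 M) (𝓞 P.SplittingField) d),
    r, fun d hd => ?_, hr⟩
  have h := hs (algebraMap (𝓞 M) (𝓞 P.SplittingField) d) (by
    rw [hD1]
    exact Finset.mem_image_of_mem _ hd)
  rw [h, hmap]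
  rfl

private theorem Jc_rho {K M Ω ι : Type} [Field K] [CharZero K] [Field M] [Field Ω] [Algebra K Ω]
    [Algebra M Ω] [FiniteDimensional K Ω] {a b : ι → K} {r : ι → Fin 3 → Ω} (B : Big K Ω a b r)
    (i : ι) (D : Set Ω) (hD : ∀ y ∈ D, ∃ x : M, y ^ 2 = algebraMap M Ω x)
    (hh : ∀ k, k ≠ i → ∃ h : Ω ≃ₐ[K] Ω, (∀ x : M, h (algebraMap M Ω x) = algebraMap M Ω x) ∧
      (∀ j, j ≠ k → ∀ m, h (r j m) = r j m) ∧ (∀ m, h (r k m) ≠ r k m) ∧
      ∀ m, h (h (h (r k m))) = r k m) (J : Finset ι) (hJ : i ∉ J) :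
    ∃ ρ : Ω ≃ₐ[K] Ω, (∀ x : M, ρ (algebraMap M Ω x) = algebraMap M Ω x) ∧ (∀ y ∈ D, ρ y = y) ∧
      (∀ j, j ∉ J → ∀ m, ρ (r j m) = r j m) ∧ ∀ k ∈ J, ∀ m, ρ (r k m) ≠ r k m := by
  induction J using Finset.induction_on with
  | empty =>
    exact ⟨AlgEquiv.refl, fun _ => rfl, fun _ _ => rfl, fun _ _ _ => rfl, fun k hk => by simp at hk⟩
  | insert k J hk ih =>
    rw [Finset.mem_insert, not_or] at hJ
    obtain ⟨ρ, h1, h2, h3, h4⟩ := ih hJ.2
    obtain ⟨h, g1, g2, g3, g4⟩ := hh k (fun e => hJ.1 e.symm)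
    have hfour : ∀ y ∈ D, h (h (h (h y))) = y := by
      intro y hy
      obtain ⟨x, hx⟩ := hD y hy
      have e1 : h y ^ 2 = y ^ 2 := by rw [← map_pow, hx, g1]
      rcases sq_eq_sq_iff_eq_or_eq_neg.1 e1 with e2 | e2
      · rw [e2, e2, e2, e2]
      · simp only [e2, map_neg, neg_neg]
    refine ⟨h.trans (h.trans (h.trans (h.trans ρ))), fun x => ?_, fun y hy => ?_, fun j hj m => ?_,
      fun k' hk' m => ?_⟩
    · change ρ (h (h (h (h (algebraMap M Ω x))))) = _
      rw [g1, g1, g1, g1, h1]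
    · change ρ (h (h (h (h y)))) = y
      rw [hfour y hy, h2 y hy]
    · rw [Finset.mem_insert, not_or] at hj
      change ρ (h (h (h (h (r j m))))) = _
      rw [g2 j hj.1, g2 j hj.1, g2 j hj.1, g2 j hj.1, h3 j hj.2]
    · change ρ (h (h (h (h (r k' m))))) ≠ _
      rcases Finset.mem_insert.1 hk' with e | e
      · rw [e, g4]
        obtain ⟨m', hm'⟩ := B.perm h k m
        rw [hm', h3 k hk, ← hm']
        exact g3 m
      · have hne : k' ≠ k := by
          rintro rfl
          exact hk e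
        rw [g2 k' hne, g2 k' hne, g2 k' hne, g2 k' hne]
        exact h4 k' e m

theorem exists_tau {K N N' : Type} [Field K] [NumberField K] [Field N] [NumberField N] [Field N']
    [NumberField N'] [Algebra K N] [Algebra N N'] [Algebra K N'] [IsScalarTower K N N']
    [IsGalois K N] {ι : Type} [Fintype ι] (a b : ι → 𝓞 K)
    (hir : ∀ (j : ι) (t : K), t ^ 3 + (a j : K) * t + (b j : K) ≠ 0)
    (hind : ∀ I : Finset ι, I.Nonempty →
      ¬ IsSquare (algebraMap K N (∏ j ∈ I, dd3 (a j : K) (b j : K))))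
    (i : ι) (θ : N')
    (hθ : θ ^ 3 + algebraMap K N' (a i : K) * θ + algebraMap K N' (b i : K) = 0)
    (hgen : ∀ x : N', ∃ c0 c1 c2 : N,
      x = algebraMap N N' c0 + algebraMap N N' c1 * θ + algebraMap N N' c2 * θ ^ 2)
    (D : Finset (𝓞 N')) (hD : ∀ d ∈ D, d ≠ 0) (φ : SC N' →+ ZMod 2)
    (hφ : ∀ j, j ≠ i → φ (sc (algebraMap K N' (dd3 (a j : K) (b j : K)))) = 0) :
    ∃ (Ω : Type) (_ : Field Ω) (_ : NumberField Ω) (_ : Algebra K Ω) (_ : Algebra N' Ω)
      (_ : IsScalarTower K N' Ω) (_ : IsGalois K Ω) (s : 𝓞 N' → Ω) (r : ι → Fin 3 → Ω)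
      (τ : Ω ≃ₐ[K] Ω),
      (∀ d ∈ D, s d ^ 2 = algebraMap N' Ω (d : N')) ∧
      (∀ (j : ι) (x : Ω), x ^ 3 + algebraMap K Ω (a j : K) * x + algebraMap K Ω (b j : K) =
        (x - r j 0) * (x - r j 1) * (x - r j 2)) ∧
      (∀ x : N', τ (algebraMap N' Ω x) = algebraMap N' Ω x) ∧
      (∀ d ∈ D, τ (s d) = if φ (sc (d : N')) = 0 then s d else -s d) ∧
      ∀ j, j ≠ i → ∀ m, τ (r j m) ≠ r j m := by
  have hdne : ∀ j, dd3 (a j : K) (b j : K) ≠ 0 := by
    intro j h
    apply hind {j} (Finset.singleton_nonempty j)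
    rw [Finset.prod_singleton, h, map_zero]
    exact ⟨0, (mul_zero 0).symm⟩
  obtain ⟨De, hDe⟩ : ∃ De : ι → 𝓞 N', ∀ j, ((De j : 𝓞 N') : N') =
      algebraMap K N' (dd3 (a j : K) (b j : K)) := by
    refine ⟨fun j => algebraMap (𝓞 K) (𝓞 N') (dd3 (a j) (b j)), fun j => ?_⟩
    have h1 : ((dd3 (a j) (b j) : 𝓞 K) : K) = dd3 (a j : K) (b j : K) := by
      unfold dd3
      simp only [map_neg, map_add, map_mul, map_pow, map_ofNat]
    rw [← h1]
    rfl
  obtain ⟨Ω, i1, i2, i3, i4, i5, i6, s, r, hs, hr⟩ := Jc_field (K := K) (M := N')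
    (fun j => algebraMap K N' (a j : K)) (fun j => algebraMap K N' (b j : K))
    (D ∪ Finset.univ.image De)
  have hr' : ∀ (j : ι) (x : Ω), x ^ 3 + algebraMap K Ω (a j : K) * x + algebraMap K Ω (b j : K) =
      (x - r j 0) * (x - r j 1) * (x - r j 2) := by
    intro j x
    rw [IsScalarTower.algebraMap_apply K N' Ω, IsScalarTower.algebraMap_apply K N' Ω]
    exact hr j x
  have B : Big K Ω (fun j => (a j : K)) (fun j => (b j : K)) r := ⟨i6, hr'⟩
  let hN : Algebra N Ω := ((algebraMap N' Ω).comp (algebraMap N N')).toAlgebra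
  have hNm : ∀ z : N, algebraMap N Ω z = algebraMap N' Ω (algebraMap N N' z) := fun _ => rfl
  have hTN : IsScalarTower K N Ω := IsScalarTower.of_algebraMap_eq fun x => by
    rw [hNm, ← IsScalarTower.algebraMap_apply K N N', ← IsScalarTower.algebraMap_apply K N' Ω]
  have hfd : FiniteDimensional K Ω := Module.Finite.of_restrictScalars_finite ℚ K Ω
  have hG : IsGalois N' Ω := IsGalois.tower_top_of_isGalois K N' Ω
  have hD' : ∀ d ∈ D ∪ Finset.univ.image De, d ≠ 0 := by
    intro d hd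
    rcases Finset.mem_union.1 hd with h | h
    · exact hD d h
    · obtain ⟨j, -, rfl⟩ := Finset.mem_image.1 h
      intro h0
      have h1 := hDe j
      rw [h0] at h1
      have h2 : algebraMap K N' (dd3 (a j : K) (b j : K)) = 0 := h1.symm.trans (map_zero _)
      exact hdne j ((map_eq_zero _).1 h2)
  obtain ⟨σ0, hσ0⟩ := H30MQ.exists_sigma (K := N') (L := Ω) (D ∪ Finset.univ.image De) hD' s hs φ
  obtain ⟨σ, hσ⟩ : ∃ σ : Ω ≃ₐ[K] Ω, ∀ y, σ y = σ0 y := ⟨σ0.restrictScalars K, fun _ => rfl⟩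
  have hσN : ∀ x : N', σ (algebraMap N' Ω x) = algebraMap N' Ω x := fun x => by
    rw [hσ, σ0.commutes]
  have hh : ∀ k, k ≠ i → ∃ h : Ω ≃ₐ[K] Ω,
      (∀ x : N', h (algebraMap N' Ω x) = algebraMap N' Ω x) ∧
      (∀ j, j ≠ k → ∀ m, h (r j m) = r j m) ∧ (∀ m, h (r k m) ≠ r k m) ∧
      ∀ m, h (h (h (r k m))) = r k m := by
    intro k hk
    obtain ⟨h, h1, h2, h3⟩ := B.cycle (N := N) hir hind k
    have hroot : ∃ m, algebraMap N' Ω θ = r i m := by
      have e1 := hr i (algebraMap N' Ω θ)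
      have e2 : algebraMap N' Ω θ ^ 3 + algebraMap N' Ω (algebraMap K N' (a i : K)) *
          algebraMap N' Ω θ + algebraMap N' Ω (algebraMap K N' (b i : K)) = 0 := by
        rw [← map_pow, ← map_mul, ← map_add, ← map_add, hθ, map_zero]
      rw [e2] at e1
      rcases mul_eq_zero.1 e1.symm with e3 | e3
      · rcases mul_eq_zero.1 e3 with e4 | e4
        · exact ⟨0, sub_eq_zero.1 e4⟩
        · exact ⟨1, sub_eq_zero.1 e4⟩
      · exact ⟨2, sub_eq_zero.1 e3⟩
    have hθ' : h (algebraMap N' Ω θ) = algebraMap N' Ω θ := by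
      obtain ⟨m, hm⟩ := hroot
      rw [hm]
      exact h2 i hk.symm m
    refine ⟨h, fun x => ?_, h2, h3, fun m => B.cube (hdne k) h3 m⟩
    obtain ⟨c0, c1, c2, rfl⟩ := hgen x
    simp only [map_add, map_mul, map_pow, hθ', ← hNm, h1]
  obtain ⟨ρ, p1, p2, p3, p4⟩ := Jc_rho (M := N') B i {y | ∃ d ∈ D, y = s d} (by
    rintro y ⟨d, hd, rfl⟩
    exact ⟨(d : N'), hs d (Finset.mem_union_left _ hd)⟩) hh (Finset.univ.erase i)
    (Finset.notMem_erase i _)
  refine ⟨Ω, i1, i2, i3, i4, i5, i6, s, r, ρ.trans (σ.trans (σ.trans σ)),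
    fun d hd => hs d (Finset.mem_union_left _ hd), hr', fun x => ?_, fun d hd => ?_,
    fun j hj m => ?_⟩
  · change σ (σ (σ (ρ (algebraMap N' Ω x)))) = _
    rw [p1, hσN, hσN, hσN]
  · change σ (σ (σ (ρ (s d)))) = _
    rw [p2 (s d) ⟨d, hd, rfl⟩]
    have h1 := hσ0 d (Finset.mem_union_left _ hd)
    rw [← hσ] at h1
    split_ifs at h1 ⊢ with h2
    · rw [h1, h1, h1]
    · simp only [h1, map_neg, neg_neg]
  · change σ (σ (σ (ρ (r j m)))) ≠ _
    obtain ⟨m', hm'⟩ := B.perm ρ j m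
    have hne := p4 j (Finset.mem_erase.2 ⟨hj, Finset.mem_univ j⟩) m
    rw [hm'] at hne ⊢
    have hev := B.even (h := σ) (k := j) (hdne j) (by
      have e1 := B.disc j
      have e2 := hs (De j) (Finset.mem_union_right _ (Finset.mem_image_of_mem _ (Finset.mem_univ j)))
      rw [hDe, ← IsScalarTower.algebraMap_apply K N' Ω] at e2
      have e3 : σ (s (De j)) = s (De j) := by
        rw [hσ, hσ0 (De j) (Finset.mem_union_right _ (Finset.mem_image_of_mem _ (Finset.mem_univ j))),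
          hDe, if_pos (hφ j hj)]
      rcases sq_eq_sq_iff_eq_or_eq_neg.1 (e1.trans e2.symm) with e4 | e4
      · rw [e4, e3]
      · rw [e4, map_neg, e3]) m'
    rw [hev]
    exact hne

end H26OD
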