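import Pool.Agent.H26.OD.Jd
import Pool.Agent.H26.OD.Nd

/-!
ROW Je (MP_78d38b_OD, helper26, about 200 lines): special primes for the curve `i` which split completely in `N` and at which the cubics of the other curves have no root.  The proof is that of `rich_N` in Pool/Agent/H26/OD/Nd.lean (copy it), with `cheb_J` (Jd) instead of `cheb_N`.

CHANGES. `hsq` (Δ_i is not a square in `N`) is `hind {i}`. Functional: we need `φN : SC LN →+ ZMod 2` with `φN (j c) = φ c` for `c ∈ HH F L`, `φN (j (sc Δ_i)) = 1` and `φN (sc Δ_k) = 0` for `k ≠ i` (`Δ_k` in `LN`; `j := scm (algebraMap L LN)`, `sc Δ_k = j (sc (image of Δ_k in L))`).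
Let `B := HH F L ⊔` the span of the classes `e k := sc (image of Δ_k in L)`, `k : ι`. INDEPENDENCE: if `c ∈ HH F L`, `I ⊆ ι` and `j (c + ∑ k ∈ I, e k) = 0` then `I = ∅` and `c = 0`: write `c = sc x`, `N_{L/F} x = t²`, `x ∏_{I} Δ_k = y²` in `LN`; the norm (`UpN.norm`, `U.cub.finrank` for the norm of an element of `N`): with `n := Algebra.norm N y`: `n² = (algebraMap F N t)² (∏_I Δ_k)³`, so `∏_I Δ_k` is a square in `N`, `I = ∅` by `hind`;
then `c = 0` by `UpN.inj`. Define the functional on the image subgroup and extend it by `ext_fun` (Qc): for example: let `V := SC LN` as a vector space over `ZMod 2` (`AddCommGroup.zmodModule`), `W := HH.map j` ; the images of `e k` in `V ⧸ W` are linearly independent (by INDEPENDENCE; `LinearIndependent` over `ZMod 2` iff no nonempty subset sums to zero), so there is a functional `ψ` on `V ⧸ W` with `ψ (e i) = 1`, `ψ (e k) = 0` for `k ≠ i`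
(`LinearIndependent.extend`/`Basis.constr` or `exists_dual..`), and a functional `φ1` on `V` with `φ1 (j c) = φ c` on `HH` (from `rich_N`'s construction: `UpN.inj` and ext_fun); `φN := φ1 + ∑ k, (φ1 (e k) + [k = i]) • ψ_k` with `ψ_k` the dual functionals (`ψ_k = 0` on `W`, `ψ_k (e l) = [k = l]`).
`cheb_J` with `N' := LN`, `θ := algebraMap L LN θ` (`U.cub.root`, `U.cub.sp` for hgen). The rest as in rich_N; the last conclusion of cheb_J gives `P.q ∈ {q | ∀ j ≠ i, ..}`.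
-/

set_option autoImplicit false
set_option linter.unusedSectionVars false
open scoped Classical

open WithZero NumberField IsDedekindDomain H38RT
open H38T1 (SC sc scu rep eo la si OddP)
open H76PP (Cub LC ev scm dn)
open H88OD

namespace H26OD

/-- The primes modulo which the cubics of the curves `j ≠ i` have no root. -/
def NRt {K : Type} [Field K] [NumberField K] {ι : Type} (a b : ι → 𝓞 K) (i : ι) :
    Set (HeightOneSpectrum (𝓞 K)) :=
  {q | ∀ j, j ≠ i → ∀ t : 𝓞 K, t ^ 3 + a j * t + b j ∉ q.asIdeal}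

section

variable {K F L : Type} [Field K] [NumberField K] [Field F] [NumberField F] [Field L]
  [NumberField L] [Algebra K F] [Algebra F L] {a b : K} {θ : L}

private theorem Je_two (x : ZMod 2) : x = 0 ∨ x = 1 := by
  revert x
  decide

private theorem Je_2 {M : Type} [Field M] (x : SC M) : x + x = 0 := by
  have h := H38T1.SC.two_smul x
  rwa [two_nsmul] at h

/-- A functional on `B` transports along a homomorphism which is injective on `B`. -/
private theorem Je_tr {M M' : Type} [Field M] [Field M'] (j : SC M →+ SC M')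
    (B : AddSubgroup (SC M)) (hj : ∀ x ∈ B, j x = 0 → x = 0) (φ' : SC M →+ ZMod 2) :
    ∃ φN : SC M' →+ ZMod 2, ∀ x ∈ B, φN (j x) = φ' x := by
  let f : B →+ SC M' := j.comp B.subtype
  have hf : Function.Injective f := by
    rw [injective_iff_map_eq_zero]
    intro x hx
    apply Subtype.ext
    exact hj x x.2 hx
  let e : B ≃+ f.range := AddMonoidHom.ofInjective hf
  obtain ⟨φN, h⟩ := ext_fun (fun x : SC M' => Je_2 x) f.range
    ((φ'.comp B.subtype).comp e.symm.toAddMonoidHom)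
  refine ⟨φN, fun x hx => ?_⟩
  have h1 := h (e ⟨x, hx⟩)
  have h2 : ((e ⟨x, hx⟩ : f.range) : SC M') = j x := rfl
  rw [h2] at h1
  rw [h1]
  change φ' ((e.symm (e ⟨x, hx⟩) : B) : SC M) = φ' x
  rw [AddEquiv.symm_apply_apply]

private theorem Je_odd {M : Type} [Field M] [NumberField M] {w : HeightOneSpectrum (𝓞 M)}
    (hw2 : (2 : 𝓞 M) ∉ w.asIdeal) : OddP w := by
  have h3 : w.valuation M ((2 : 𝓞 M) : M) = 1 := w.valuation_eq_one_iff_notMem.mpr hw2
  have h4 : ((2 : 𝓞 M) : M) = 2 := map_ofNat _ 2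
  rw [h4] at h3
  exact h3

/-- Equal symbols at a place of degree one. -/
private theorem Je_la {M M' K' : Type} [Field M] [NumberField M] [Field M'] [NumberField M']
    [Field K'] [NumberField K'] [Algebra M M'] [Algebra K' M] [Algebra K' M'] [IsScalarTower K' M M']
    {T : HeightOneSpectrum (𝓞 M')} (hT2 : (2 : 𝓞 M') ∉ T.asIdeal)
    (hdeg : ∀ x : 𝓞 M', ∃ n : 𝓞 K', algebraMap (𝓞 K') (𝓞 M') n - x ∈ T.asIdeal) {d : 𝓞 M}
    (hd : algebraMap (𝓞 M) (𝓞 M') d ∉ T.asIdeal) :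
    la (dn M T) (sc (d : M)) = la T (sc ((algebraMap (𝓞 M) (𝓞 M') d : 𝓞 M') : M')) := by
  have hw2 : (2 : 𝓞 M) ∉ (dn M T).asIdeal := by
    intro h
    apply hT2
    have h1 : algebraMap (𝓞 M) (𝓞 M') 2 ∈ T.asIdeal := h
    rwa [map_ofNat] at h1
  have hdw : d ∉ (dn M T).asIdeal := hd
  have h1 := H30MQ.la_iff (Je_odd hw2) hdw
  have h2 := H30MQ.la_iff (Je_odd hT2) hd
  have h3 : la (dn M T) (sc (d : M)) = 0 ↔
      la T (sc ((algebraMap (𝓞 M) (𝓞 M') d : 𝓞 M') : M')) = 0 := by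
    rw [h1, h2]
    constructor
    · rintro ⟨y, hy⟩
      refine ⟨algebraMap (𝓞 M) (𝓞 M') y, ?_⟩
      rw [← map_pow, ← map_sub]
      exact hy
    · rintro ⟨y, hy⟩
      obtain ⟨n, hn⟩ := hdeg y
      refine ⟨algebraMap (𝓞 K') (𝓞 M) n, ?_⟩
      change algebraMap (𝓞 M) (𝓞 M') (d - algebraMap (𝓞 K') (𝓞 M) n ^ 2) ∈ T.asIdeal
      rw [map_sub, map_pow, ← IsScalarTower.algebraMap_apply (𝓞 K') (𝓞 M) (𝓞 M') n]
      have e : algebraMap (𝓞 M) (𝓞 M') d - algebraMap (𝓞 K') (𝓞 M') n ^ 2 =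
          (algebraMap (𝓞 M) (𝓞 M') d - y ^ 2) -
            (algebraMap (𝓞 K') (𝓞 M') n - y) * (algebraMap (𝓞 K') (𝓞 M') n + y) := by
        ring
      rw [e]
      exact T.asIdeal.sub_mem hy (T.asIdeal.mul_mem_right _ hn)
  rcases Je_two (la (dn M T) (sc (d : M))) with h4 | h4
  · rw [h4, h3.1 h4]
  · rcases Je_two (la T (sc ((algebraMap (𝓞 M) (𝓞 M') d : 𝓞 M') : M'))) with h5 | h5
    · rw [h3.2 h5] at h4
      exact absurd h4.symm one_ne_zero
    · rw [h4, h5]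

/-- Places above the same place are conjugate. -/
private theorem Je_conj {N : Type} [Field N] [NumberField N] [Algebra K N] [IsGalois K N]
    {W W' : HeightOneSpectrum (𝓞 N)} (h : dn K W' = dn K W) :
    ∃ g : N ≃ₐ[K] N, ∀ x : 𝓞 N, x ∈ W'.asIdeal ↔ g • x ∈ W.asIdeal := by
  have hp : (dn K W).asIdeal = W.asIdeal.comap (algebraMap (𝓞 K) (𝓞 N)) := rfl
  have hp' : (dn K W).asIdeal = W'.asIdeal.comap (algebraMap (𝓞 K) (𝓞 N)) := by
    rw [← h]
    rfl
  have i1 : W.asIdeal.IsPrime := W.isPrime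
  have i2 : W'.asIdeal.IsPrime := W'.isPrime
  have i3 : W.asIdeal.LiesOver (dn K W).asIdeal := ⟨hp⟩
  have i4 : W'.asIdeal.LiesOver (dn K W).asIdeal := ⟨hp'⟩
  obtain ⟨g, hg⟩ := Ideal.exists_smul_eq_of_isGaloisGroup (dn K W).asIdeal W'.asIdeal W.asIdeal
    (N ≃ₐ[K] N)
  refine ⟨g, fun x => ?_⟩
  rw [← hg]
  exact Ideal.smul_mem_pointwise_smul_iff.symm

private theorem Je_smul {N : Type} [Field N] [NumberField N] [Algebra K N] (g : N ≃ₐ[K] N)
    (x : 𝓞 N) : ((g • x : 𝓞 N) : N) = g (x : N) := rfl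

/-- A functional with prescribed values on a subgroup and on elements which are independent
modulo this subgroup. -/
private theorem Je_ext {V : Type} [AddCommGroup V] (h2 : ∀ x : V, x + x = 0) {ι : Type}
    (W : AddSubgroup V) (e : ι → V)
    (hi : ∀ w ∈ W, ∀ I : Finset ι, w + ∑ k ∈ I, e k = 0 → I = ∅)
    (f : V →+ ZMod 2) (g : ι → ZMod 2) :
    ∃ φ : V →+ ZMod 2, (∀ w ∈ W, φ w = f w) ∧ ∀ k, φ (e k) = g k := by
  let _ : Module (ZMod 2) V := AddCommGroup.zmodModule (fun x => by rw [two_nsmul]; exact h2 x)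
  let p : Submodule (ZMod 2) V := AddSubgroup.toZModSubmodule 2 W
  let v : ι → V ⧸ p := fun k => p.mkQ (e k)
  have hli : LinearIndependent (ZMod 2) v := by
    rw [linearIndependent_iff']
    intro s c hc i his
    obtain ⟨I, hI⟩ : ∃ I : Finset ι, I = s.filter fun k => c k = 1 := ⟨_, rfl⟩
    have h3 : ∑ k ∈ s, c k • v k = p.mkQ (∑ k ∈ I, e k) := by
      rw [map_sum, hI, Finset.sum_filter]
      refine Finset.sum_congr rfl fun k _ => ?_
      rcases Je_two (c k) with h | h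
      · rw [h, zero_smul, if_neg zero_ne_one]
      · rw [h, one_smul, if_pos rfl]
    rw [h3, Submodule.mkQ_apply, Submodule.Quotient.mk_eq_zero] at hc
    have h4 := hi _ hc I (h2 _)
    rcases Je_two (c i) with h | h
    · exact h
    · exfalso
      have h5 : i ∈ I := by
        rw [hI, Finset.mem_filter]
        exact ⟨his, h⟩
      rw [h4] at h5
      exact absurd h5 (Finset.notMem_empty i)
  obtain ⟨G, hG⟩ := LinearMap.exists_extend hli.repr
  have hG1 : ∀ k, G (v k) = Finsupp.single k 1 := by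
    intro k
    have h3 := LinearMap.congr_fun hG ⟨v k, Submodule.subset_span ⟨k, rfl⟩⟩
    exact h3.trans (hli.repr_eq_single k _ rfl)
  obtain ⟨ψ, hψ⟩ : ∃ ψ : V →ₗ[ZMod 2] ZMod 2, ψ =
      (Finsupp.linearCombination (ZMod 2) (fun k => g k - f (e k))) ∘ₗ G ∘ₗ p.mkQ := ⟨_, rfl⟩
  refine ⟨f + ψ.toAddMonoidHom, fun w hw => ?_, fun k => ?_⟩
  · have h3 : p.mkQ w = 0 := by
      rw [Submodule.mkQ_apply, Submodule.Quotient.mk_eq_zero]
      exact hw
    have h4 : ψ w = 0 := by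
      rw [hψ, LinearMap.comp_apply, LinearMap.comp_apply, h3, map_zero, map_zero]
    rw [AddMonoidHom.add_apply]
    change f w + ψ w = f w
    rw [h4, add_zero]
  · have h4 : ψ (e k) = g k - f (e k) := by
      rw [hψ, LinearMap.comp_apply, LinearMap.comp_apply]
      change Finsupp.linearCombination (ZMod 2) (fun k => g k - f (e k)) (G (v k)) = _
      rw [hG1, Finsupp.linearCombination_single, one_smul]
    rw [AddMonoidHom.add_apply]
    change f (e k) + ψ (e k) = g k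
    rw [h4]
    ring

/-- The classes of a product. -/
private theorem Je_prod {M : Type} [Field M] {ι : Type} (I : Finset ι) (x : ι → M)
    (hx : ∀ k, x k ≠ 0) : ∑ k ∈ I, sc (x k) = sc (∏ k ∈ I, x k) := by
  induction I using Finset.induction_on with
  | empty =>
    rw [Finset.sum_empty, Finset.prod_empty]
    exact ((H38T1.sc_eq_zero one_ne_zero).2 ⟨1, (one_mul 1).symm⟩).symm
  | insert k I hk ih =>
    rw [Finset.sum_insert hk, Finset.prod_insert hk, ih,
      H38T1.sc_mul (hx k) (Finset.prod_ne_zero_iff.2 fun k _ => hx k)]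

/-- The classes of elements of `K` whose products are not squares in `N` are independent modulo
the classes of norm one. -/
private theorem Je_ind {S : Ext K F L a b θ} {N LN : Type} [Field N] [NumberField N] [Algebra K N]
    [Algebra F N] [IsScalarTower K F N] [Field LN] [NumberField LN] [Algebra N LN] [Algebra L LN]
    (U : UpN S N LN) {ι : Type} (Δ : ι → K) (hΔ : ∀ k, Δ k ≠ 0)
    (hind : ∀ I : Finset ι, I.Nonempty → ¬ IsSquare (algebraMap K N (∏ j ∈ I, Δ j)))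
    {c : SC L} (hc : c ∈ H30ZO.HH F L) (I : Finset ι)
    (h : scm (algebraMap L LN : L →* LN) c +
      ∑ k ∈ I, sc (algebraMap N LN (algebraMap K N (Δ k))) = 0) : I = ∅ := by
  have hfdF : FiniteDimensional F L := Ex_fd F L
  have hfdN : FiniteDimensional N LN := Ex_fd N LN
  by_contra hne
  apply hind I (Finset.nonempty_iff_ne_empty.2 hne)
  obtain ⟨x, hx, rfl⟩ := H38T1.sc_surj c
  rw [H30ZO.mem_HH hx] at hc
  obtain ⟨t, ht⟩ := hc
  obtain ⟨Q, hQ⟩ : ∃ Q : K, Q = ∏ j ∈ I, Δ j := ⟨_, rfl⟩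
  have hQ0 : Q ≠ 0 := by
    rw [hQ]
    exact Finset.prod_ne_zero_iff.2 fun k _ => hΔ k
  have hN0 : algebraMap K N Q ≠ 0 := (map_ne_zero _).2 hQ0
  have hx' : algebraMap L LN x ≠ 0 := (map_ne_zero _).2 hx
  have hQ' : algebraMap N LN (algebraMap K N Q) ≠ 0 := (map_ne_zero _).2 hN0
  have hs : ∑ k ∈ I, sc (algebraMap N LN (algebraMap K N (Δ k))) =
      sc (algebraMap N LN (algebraMap K N Q)) := by
    rw [Je_prod I (fun k => algebraMap N LN (algebraMap K N (Δ k)))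
      (fun k => (map_ne_zero _).2 ((map_ne_zero _).2 (hΔ k))), hQ, map_prod, map_prod]
  rw [hs, H76PP.scm_sc _ hx] at h
  have h' : sc (algebraMap L LN x) + sc (algebraMap N LN (algebraMap K N Q)) = 0 := h
  rw [← H38T1.sc_mul hx' hQ'] at h'
  obtain ⟨y, hy⟩ := (H38T1.sc_eq_zero (mul_ne_zero hx' hQ')).1 h'
  have hn : Algebra.norm N y * Algebra.norm N y =
      algebraMap F N t * algebraMap F N t * algebraMap K N Q ^ 3 := by
    rw [← map_mul, ← hy, map_mul, U.norm, ht, Algebra.norm_algebraMap, U.cub.finrank, map_mul]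
  have ht0 : t ≠ 0 := by
    rintro rfl
    rw [mul_zero] at ht
    exact Algebra.norm_ne_zero_iff.2 hx ht
  have hT0 : algebraMap F N t ≠ 0 := (map_ne_zero _).2 ht0
  rw [← hQ]
  refine ⟨Algebra.norm N y / (algebraMap F N t * algebraMap K N Q), ?_⟩
  field_simp
  linear_combination -hn

end

theorem rich_J {K F L : Type} [Field K] [NumberField K] [Field F] [NumberField F] [Field L]
    [NumberField L] [Algebra K F] [Algebra F L] {ι : Type} [Fintype ι] (a b : ι → 𝓞 K) (i : ι)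
    {θ : L} (S : Ext K F L (a i : K) (b i : K) θ) (N : Type) [Field N] [NumberField N]
    [Algebra K N] [Algebra F N] [IsScalarTower K F N] [IsGalois K N]
    (hir : ∀ (j : ι) (t : K), t ^ 3 + (a j : K) * t + (b j : K) ≠ 0)
    (hind : ∀ I : Finset ι, I.Nonempty →
      ¬ IsSquare (algebraMap K N (∏ j ∈ I, dd3 (a j : K) (b j : K)))) :
    Rich S (Zs K N ∩ NRt a b i) := by
  intro Sg Y hY hYH φ A₀ hA₀
  have hsq : ¬ IsSquare (algebraMap K N (-(4 * (a i : K) ^ 3 + 27 * (b i : K) ^ 2))) := by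
    have h := hind {i} (Finset.singleton_nonempty i)
    rw [Finset.prod_singleton] at h
    exact h
  have hΔne : ∀ k, dd3 (a k : K) (b k : K) ≠ 0 := by
    intro k h
    apply hind {k} (Finset.singleton_nonempty k)
    rw [Finset.prod_singleton, h, map_zero]
    exact ⟨0, (mul_zero 0).symm⟩
  obtain ⟨LN, _, _, _, _, U⟩ := exists_up S N hsq
  let _ : Algebra K LN := ((algebraMap N LN).comp (algebraMap K N)).toAlgebra
  have hTN : IsScalarTower K N LN := IsScalarTower.of_algebraMap_eq fun _ => rfl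
  let _ : Algebra K L := ((algebraMap F L).comp (algebraMap K F)).toAlgebra
  have hTF : IsScalarTower K F L := IsScalarTower.of_algebraMap_eq fun _ => rfl
  have hTL : IsScalarTower K L LN := IsScalarTower.of_algebraMap_eq fun x => by
    change algebraMap N LN (algebraMap K N x) = algebraMap L LN (algebraMap F L (algebraMap K F x))
    rw [U.tower, ← IsScalarTower.algebraMap_apply K F N x]
  obtain ⟨ΔL, hΔL⟩ : ∃ z : L, z = algebraMap F L (algebraMap K F
      (-(4 * (a i : K) ^ 3 + 27 * (b i : K) ^ 2))) := ⟨_, rfl⟩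
  obtain ⟨j, hj⟩ : ∃ j : SC L →+ SC LN, j = scm (algebraMap L LN : L →* LN) := ⟨_, rfl⟩
  -- the functional on the square classes of `L N`
  obtain ⟨φ₁, hφ₁⟩ := Je_tr j (H30ZO.HH F L) (by
    intro x hx hjx
    rw [hj] at hjx
    exact U.inj hx hjx) φ
  obtain ⟨φN, hN1', hN2'⟩ := Je_ext (fun x : SC LN => Je_2 x) ((H30ZO.HH F L).map j)
    (fun k => sc (algebraMap N LN (algebraMap K N (dd3 (a k : K) (b k : K))))) (by
      intro w hw I hI
      obtain ⟨c, hc, rfl⟩ := AddSubgroup.mem_map.1 hw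
      rw [hj] at hI
      exact Je_ind U (fun k => dd3 (a k : K) (b k : K)) hΔne hind hc I hI) φ₁
    (fun k => if k = i then 1 else 0)
  have hN1 : ∀ c ∈ H30ZO.HH F L, φN (j c) = φ c := by
    intro c hc
    rw [hN1' _ (AddSubgroup.mem_map_of_mem j hc), hφ₁ c hc]
  have hN2 : φN (j (sc ΔL)) = 1 := by
    have h := hN2' i
    rw [if_pos rfl] at h
    have hL0 : ΔL ≠ 0 := by
      rw [hΔL]
      exact (map_ne_zero _).2 ((map_ne_zero _).2 (neg_ne_zero.2 S.dne))
    rw [hj, H76PP.scm_sc _ hL0]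
    change φN (sc (algebraMap L LN ΔL)) = 1
    rw [hΔL, U.tower, ← IsScalarTower.algebraMap_apply K F N]
    exact h
  have hN3 : ∀ k, k ≠ i → φN (sc (algebraMap K LN (dd3 (a k : K) (b k : K)))) = 0 := by
    intro k hk
    have h := hN2' k
    rw [if_neg hk] at h
    exact h
  -- the elements
  choose r hr0 hr1 using (fun c : SC L => H76OD.exists_irep c)
  obtain ⟨a₀, ha₀⟩ := H76OD.Lt_int S.ha
  obtain ⟨b₀, hb₀⟩ := H76OD.Lt_int S.hb
  obtain ⟨δ, hδ⟩ : ∃ δ : 𝓞 L, δ = algebraMap (𝓞 F) (𝓞 L)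
      (algebraMap (𝓞 K) (𝓞 F) (-(4 * a₀ ^ 3 + 27 * b₀ ^ 2))) := ⟨_, rfl⟩
  have hδL : (δ : L) = ΔL := by
    have e1 : ((-(4 * a₀ ^ 3 + 27 * b₀ ^ 2) : 𝓞 K) : K) = -(4 * (a i : K) ^ 3 + 27 * (b i : K) ^ 2) := by
      change algebraMap (𝓞 K) K (-(4 * a₀ ^ 3 + 27 * b₀ ^ 2)) = _
      simp only [map_neg, map_add, map_mul, map_pow, map_ofNat]
      rw [show algebraMap (𝓞 K) K a₀ = (a i : K) from ha₀, show algebraMap (𝓞 K) K b₀ = (b i : K) from hb₀]
    rw [hδ, hΔL, ← e1]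
    rfl
  have hΔ0 : ΔL ≠ 0 := by
    rw [hΔL]
    exact (map_ne_zero _).2 ((map_ne_zero _).2 (neg_ne_zero.2 S.dne))
  have hδ0 : δ ≠ 0 := by
    intro h
    apply hΔ0
    rw [← hδL, h]
    rfl
  have hinj : Function.Injective (algebraMap (𝓞 L) (𝓞 LN)) := by
    intro x y hxy
    apply RingOfIntegers.coe_injective
    apply (algebraMap L LN).injective
    exact congrArg (fun z : 𝓞 LN => (z : LN)) hxy
  have hi0 : ∀ x : 𝓞 L, x ≠ 0 → algebraMap (𝓞 L) (𝓞 LN) x ≠ 0 := by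
    intro x hx h
    apply hx
    apply hinj
    rw [h, map_zero]
  have hjsc : ∀ x : 𝓞 L, x ≠ 0 →
      sc ((algebraMap (𝓞 L) (𝓞 LN) x : 𝓞 LN) : LN) = j (sc (x : L)) := by
    intro x hx
    have hx0 : (x : L) ≠ 0 := by
      intro h
      apply hx
      apply RingOfIntegers.coe_injective
      exact h.trans (map_zero _).symm
    rw [hj, H76PP.scm_sc _ hx0]
    rfl
  obtain ⟨D, hD⟩ : ∃ D : Finset (𝓞 LN), D = insert (algebraMap (𝓞 L) (𝓞 LN) δ)
      (hY.toFinset.image fun c => algebraMap (𝓞 L) (𝓞 LN) (r c)) := ⟨_, rfl⟩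
  have hD0 : ∀ d ∈ D, d ≠ 0 := by
    intro d hd
    rw [hD, Finset.mem_insert, Finset.mem_image] at hd
    rcases hd with rfl | ⟨c, -, rfl⟩
    · exact hi0 _ hδ0
    · exact hi0 _ (hr0 c)
  -- the bad places
  obtain ⟨Bd, hBd, hcore⟩ := exists_core S
  have hmove : ∀ g : N ≃ₐ[K] N, g ≠ 1 → ∃ x : 𝓞 N, g • x - x ≠ 0 := by
    intro g hg
    by_contra hcon
    push Not at hcon
    apply hg
    apply AlgEquiv.ext
    intro y
    obtain ⟨α, β, -, hxy⟩ := IsFractionRing.div_surjective (A := 𝓞 N) y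
    have h1 : ∀ z : 𝓞 N, g (z : N) = (z : N) := by
      intro z
      have h2 := sub_eq_zero.1 (hcon z)
      have h3 := congrArg (fun t : 𝓞 N => (t : N)) h2
      exact h3
    change g y = y
    rw [← hxy, map_div₀]
    exact congrArg₂ (· / ·) (h1 α) (h1 β)
  choose! X hX using hmove
  have hfinK : ∀ x : 𝓞 N, x ≠ 0 → {v : HeightOneSpectrum (𝓞 K) |
      ∃ w : HeightOneSpectrum (𝓞 N), dn K w = v ∧ x ∈ w.asIdeal}.Finite := by
    intro x hx
    refine ((H30MQ.fin_mem hx).image (dn K)).subset ?_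
    rintro v ⟨w, rfl, hw⟩
    exact ⟨w, hw, rfl⟩
  have hbad : (((A₀ ∪ (Sg : Set (HeightOneSpectrum (𝓞 K)))) ∪ Bd) ∪
      ⋃ g : {g : N ≃ₐ[K] N // g ≠ 1}, {v : HeightOneSpectrum (𝓞 K) |
        ∃ w : HeightOneSpectrum (𝓞 N), dn K w = v ∧ g.1 • X g.1 - X g.1 ∈ w.asIdeal}).Finite := by
    refine ((hA₀.union Sg.finite_toSet).union hBd).union ?_
    exact Set.finite_iUnion fun g => hfinK _ (hX g.1 g.2)
  have hroot : (algebraMap L LN θ) ^ 3 + algebraMap K LN (a i : K) * algebraMap L LN θ +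
      algebraMap K LN (b i : K) = 0 := U.cub.root
  obtain ⟨T, hTB, hT2, hdeg, hla, hnr⟩ := cheb_J (K := K) (N := N) (N' := LN) a b hir hind i
    (algebraMap L LN θ) hroot U.cub.sp D hD0 φN hN3 _ hbad
  have e1 : ∀ x : 𝓞 K, algebraMap (𝓞 L) (𝓞 LN) (algebraMap (𝓞 F) (𝓞 L)
      (algebraMap (𝓞 K) (𝓞 F) x)) = algebraMap (𝓞 K) (𝓞 LN) x := by
    intro x
    apply RingOfIntegers.coe_injective
    exact (IsScalarTower.algebraMap_apply K L LN (x : K)).symm
  have e2 : ∀ x : 𝓞 K, algebraMap (𝓞 N) (𝓞 LN) (algebraMap (𝓞 K) (𝓞 N) x) =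
      algebraMap (𝓞 K) (𝓞 LN) x := by
    intro x
    apply RingOfIntegers.coe_injective
    rfl
  obtain ⟨w, hw⟩ : ∃ w : HeightOneSpectrum (𝓞 L), w = dn L T := ⟨_, rfl⟩
  have hKw : dn K (dn F w) = dn K T := by
    apply HeightOneSpectrum.ext
    ext x
    rw [hw]
    change algebraMap (𝓞 L) (𝓞 LN) (algebraMap (𝓞 F) (𝓞 L) (algebraMap (𝓞 K) (𝓞 F) x)) ∈
      T.asIdeal ↔ algebraMap (𝓞 K) (𝓞 LN) x ∈ T.asIdeal
    rw [e1]
  obtain ⟨W₀, hW₀⟩ : ∃ W₀ : HeightOneSpectrum (𝓞 N), W₀ = dn N T := ⟨_, rfl⟩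
  have hKW : dn K W₀ = dn K T := by
    apply HeightOneSpectrum.ext
    ext x
    rw [hW₀]
    change algebraMap (𝓞 N) (𝓞 LN) (algebraMap (𝓞 K) (𝓞 N) x) ∈
      T.asIdeal ↔ algebraMap (𝓞 K) (𝓞 LN) x ∈ T.asIdeal
    rw [e2]
  have hw2 : (2 : 𝓞 L) ∉ w.asIdeal := by
    intro h
    apply hT2
    rw [hw] at h
    have h1 : algebraMap (𝓞 L) (𝓞 LN) 2 ∈ T.asIdeal := h
    rwa [map_ofNat] at h1
  have hlaT : ∀ d : 𝓞 L, d ≠ 0 → algebraMap (𝓞 L) (𝓞 LN) d ∈ D →
      d ∉ w.asIdeal ∧ la w (sc (d : L)) = φN (j (sc (d : L))) := by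
    intro d hd0 hd
    obtain ⟨h1, h2⟩ := hla _ hd
    refine ⟨?_, ?_⟩
    · rw [hw]
      exact h1
    · rw [hw, Je_la (K' := K) hT2 hdeg h1, h2, hjsc d hd0]
  have hδD : algebraMap (𝓞 L) (𝓞 LN) δ ∈ D := by
    rw [hD]
    exact Finset.mem_insert_self _ _
  obtain ⟨hδw, hδla⟩ := hlaT δ hδ0 hδD
  rw [hδL, hN2] at hδla
  have hdegw : ∀ x : 𝓞 L, ∃ n : 𝓞 K,
      algebraMap (𝓞 F) (𝓞 L) (algebraMap (𝓞 K) (𝓞 F) n) - x ∈ w.asIdeal := by
    intro x
    obtain ⟨n, hn⟩ := hdeg (algebraMap (𝓞 L) (𝓞 LN) x)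
    refine ⟨n, ?_⟩
    rw [hw]
    change algebraMap (𝓞 L) (𝓞 LN)
      (algebraMap (𝓞 F) (𝓞 L) (algebraMap (𝓞 K) (𝓞 F) n) - x) ∈ T.asIdeal
    rw [map_sub, e1]
    exact hn
  have hB1 : dn K (dn F w) ∉ Bd := by
    rw [hKw]
    exact fun h => hTB (Or.inl (Or.inr h))
  have hB2 : dn K (dn F w) ∉ Sg := by
    rw [hKw]
    exact fun h => hTB (Or.inl (Or.inl (Or.inr h)))
  obtain ⟨P, hP1, hP2⟩ := hcore Sg w hB1 hB2 hw2 hdegw δ (hδL.trans hΔL) hδw (by
    rw [hδL]
    exact hδla)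
  rw [hKw] at hP2
  refine ⟨P, ⟨?_, ?_⟩, ?_, fun c hc => ?_⟩
  · intro W hW g hg
    rw [hP2, ← hKW] at hW
    obtain ⟨k, hk⟩ := Je_conj hW
    have hgW : ∀ x : 𝓞 N, x ∈ W.asIdeal ↔ g⁻¹ • x ∈ W.asIdeal := by
      intro x
      have h1 : x ∈ (gq g • W).asIdeal ↔ H38T1.gO (gq g)⁻¹ x ∈ W.asIdeal := Iff.rfl
      rw [hg] at h1
      have h2 : H38T1.gO (gq g)⁻¹ x = g⁻¹ • x := by
        apply RingOfIntegers.coe_injective
        rfl
      rw [h2] at h1
      exact h1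
    have hst : ∀ y : 𝓞 N, y ∈ W₀.asIdeal ↔ (k * g⁻¹ * k⁻¹) • y ∈ W₀.asIdeal := by
      intro y
      have h1 := hk (k⁻¹ • y)
      rw [smul_inv_smul] at h1
      rw [← h1, hgW, hk, smul_smul, smul_smul]
    have hkk : k * g⁻¹ * k⁻¹ = 1 := by
      by_contra hne
      obtain ⟨s, hs⟩ : ∃ s : N ≃ₐ[K] N, s = k * g⁻¹ * k⁻¹ := ⟨_, rfl⟩
      rw [← hs] at hne hst
      obtain ⟨m, hm⟩ := hdeg (algebraMap (𝓞 N) (𝓞 LN) (X s))
      have hm1 : algebraMap (𝓞 K) (𝓞 N) m - X s ∈ W₀.asIdeal := by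
        rw [hW₀]
        change algebraMap (𝓞 N) (𝓞 LN) (algebraMap (𝓞 K) (𝓞 N) m - X s) ∈ T.asIdeal
        rw [map_sub, e2]
        exact hm
      have hm2 := (hst _).1 hm1
      have h5 : s • algebraMap (𝓞 K) (𝓞 N) m = algebraMap (𝓞 K) (𝓞 N) m := by
        apply RingOfIntegers.coe_injective
        exact s.commutes (m : K)
      rw [smul_sub, h5] at hm2
      have h6 : s • X s - X s ∈ W₀.asIdeal := by
        have h7 : s • X s - X s = (algebraMap (𝓞 K) (𝓞 N) m - X s) -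
            (algebraMap (𝓞 K) (𝓞 N) m - s • X s) := by
          ring
        rw [h7]
        exact W₀.asIdeal.sub_mem hm1 hm2
      apply hTB
      right
      exact Set.mem_iUnion.2 ⟨⟨s, hne⟩, W₀, hKW, h6⟩
    have h8 : g⁻¹ = 1 := by
      have h9 : g⁻¹ = k⁻¹ * (k * g⁻¹ * k⁻¹) * k := by group
      rw [h9, hkk]
      group
    exact inv_eq_one.1 h8
  · intro k hk t ht
    rw [hP2] at ht
    exact hnr k hk t ht
  · rw [hP2]
    exact fun h => hTB (Or.inl (Or.inl (Or.inl h)))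
  · have h3 : algebraMap (𝓞 L) (𝓞 LN) (r c) ∈ D := by
      rw [hD, Finset.mem_insert, Finset.mem_image]
      exact Or.inr ⟨c, hY.mem_toFinset.2 hc, rfl⟩
    have h4 := (hlaT _ (hr0 c) h3).2
    rw [hr1, hN1 c (hYH c hc)] at h4
    rw [hP1]
    exact h4

end H26OD
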