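import Pool.Agent.H26.OD.Nd
import Pool.Agent.H26.OD.Ja

/-!
MP_78d38b_OD (helper26): functionals with prescribed values on independent classes.
-/

set_option autoImplicit false
set_option linter.unusedSectionVars false
open scoped Classical

open WithZero NumberField IsDedekindDomain H38RT
open H38T1 (SC sc scu rep eo la si OddP)
open H76PP (Cub LC ev scm dn)
open H88OD

namespace H26OD

theorem exists_chi {V ι : Type} [AddCommGroup V] [Fintype ι] (h2 : ∀ x : V, x + x = 0) (v : ι → V)
    (hli : ∀ I : Finset ι, I.Nonempty → ∑ k ∈ I, v k ≠ 0) (c : ι → ZMod 2) :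
    ∃ f : V →+ ZMod 2, ∀ k, f (v k) = c k := by
  let _ : Module (ZMod 2) V := AddCommGroup.zmodModule (fun x => by rw [two_nsmul]; exact h2 x)
  have h3 : LinearIndependent (ZMod 2) v := by
    rw [Fintype.linearIndependent_iff]
    intro g hg
    by_contra hcon
    push Not at hcon
    obtain ⟨i, hi⟩ := hcon
    have h01 : ∀ x : ZMod 2, x = 0 ∨ x = 1 := by decide
    apply hli (Finset.univ.filter fun k => g k ≠ 0) ⟨i, by simp [hi]⟩
    refine (Finset.sum_filter _ _).trans (Eq.trans ?_ hg)
    refine Finset.sum_congr rfl fun k _ => ?_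
    rcases h01 (g k) with h | h
    · rw [h, zero_smul, if_neg (fun h0 => h0 rfl)]
    · rw [h, one_smul, if_pos one_ne_zero]
  obtain ⟨f, hf⟩ := LinearMap.exists_extend ((Module.Basis.span h3).constr (ZMod 2) c)
  refine ⟨f.toAddMonoidHom, fun k => ?_⟩
  have h4 := congrArg (fun g => g ((Module.Basis.span h3) k)) hf
  have h5 : (((Module.Basis.span h3) k : Submodule.span (ZMod 2) (Set.range v)) : V) = v k := by
    rw [Module.Basis.span_apply h3 k]
  have h6 : f (v k) = ((Module.Basis.span h3).constr (ZMod 2) c) ((Module.Basis.span h3) k) := by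
    rw [← h5]
    exact h4
  change f (v k) = c k
  rw [h6, Module.Basis.constr_basis]

/-- The class of a product. -/
theorem sc_prod {M ι : Type} [Field M] (I : Finset ι) (x : ι → M) (hx : ∀ k, x k ≠ 0) :
    sc (∏ k ∈ I, x k) = ∑ k ∈ I, sc (x k) := by
  induction I using Finset.induction_on with
  | empty =>
    rw [Finset.prod_empty, Finset.sum_empty]
    exact (H38T1.sc_eq_zero one_ne_zero).2 ⟨1, (mul_one 1).symm⟩
  | insert k I hk ih =>
    rw [Finset.prod_insert hk, Finset.sum_insert hk, H38T1.sc_mul (hx k)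
      (Finset.prod_ne_zero_iff.2 fun l _ => hx l), ih]

theorem Jf_two {M : Type} [Field M] (x : SC M) : x + x = 0 := by
  have h := H38T1.SC.two_smul x
  rwa [two_nsmul] at h

/-- The norm of the class of an element of the ground field. -/
theorem norm_sc {F L : Type} [Field F] [NumberField F] [Field L] [NumberField L] [Algebra F L]
    {A B : F} {θ : L} (hc : Cub F L A B θ) {x : F} (hx : x ≠ 0) :
    scm (Algebra.norm F : L →* F) (sc (algebraMap F L x)) = sc x := by
  have hxL : algebraMap F L x ≠ 0 := (map_ne_zero _).2 hx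
  rw [H76PP.scm_sc _ hxL]
  have h1 : Algebra.norm F (algebraMap F L x) = x * x ^ 2 := by
    rw [Algebra.norm_algebraMap, hc.finrank]
    ring
  change sc (Algebra.norm F (algebraMap F L x)) = _
  rw [h1, H38T1.sc_mul hx (pow_ne_zero 2 hx), H54MT.sc_sq hx, add_zero]

/-- A functional with given values on the classes of square norm and on classes of the ground field. -/
theorem exists_phi {F L ι : Type} [Field F] [NumberField F] [Field L] [NumberField L] [Algebra F L]
    [Fintype ι] {A B : F} {θ : L} (hc : Cub F L A B θ) (x : ι → F) (hx : ∀ k, x k ≠ 0)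
    (hind : ∀ I : Finset ι, I.Nonempty → ¬ IsSquare (∏ k ∈ I, x k)) (φ : SC L →+ ZMod 2)
    (c : ι → ZMod 2) :
    ∃ φ' : SC L →+ ZMod 2, (∀ y ∈ H30ZO.HH F L, φ' y = φ y) ∧
      ∀ k, φ' (sc (algebraMap F L (x k))) = c k := by
  obtain ⟨χ, hχ⟩ := exists_chi (fun y : SC F => Jf_two y) (fun k => sc (x k)) (fun I hI h => by
    rw [← sc_prod I x hx] at h
    exact hind I hI ((H38T1.sc_eq_zero (Finset.prod_ne_zero_iff.2 fun l _ => hx l)).1 h))
    (fun k => φ (sc (algebraMap F L (x k))) + c k)
  refine ⟨φ + χ.comp (scm (Algebra.norm F : L →* F)), fun y hy => ?_, fun k => ?_⟩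
  · have h1 : scm (Algebra.norm F : L →* F) y = 0 := hy
    rw [AddMonoidHom.add_apply, AddMonoidHom.comp_apply, h1, map_zero, add_zero]
  · rw [AddMonoidHom.add_apply, AddMonoidHom.comp_apply, norm_sc hc (hx k), hχ]
    have h01 : ∀ u v : ZMod 2, u + (u + v) = v := by decide
    exact h01 _ _

end H26OD
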