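import Pool.Agent.H26.OD.Ka
import Pool.Agent.H26.OD.Je
import Pool.Agent.H26.OD.Qg
import Pool.Agent.H88.ZR.Fe
import Pool.Agent.H30.OD.Vs

/-!
MP_78d38b_OD (helper26): the simultaneous theorem for finitely many curves.
-/

set_option autoImplicit false
set_option linter.unusedSectionVars false
open scoped Classical

open WithZero NumberField IsDedekindDomain H38RT
open H38T1 (SC sc scu rep eo la si OddP)
open H76PP (Cub LC ev scm dn)
open H30ZO (Tv)
open H88OD

namespace H26OD

/-- The setting for one curve. -/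
structure Pk (K F : Type) [Field K] [NumberField K] [Field F] [NumberField F] [Algebra K F]
    (a b : K) : Type 1 where
  L : Type
  fL : Field L
  nL : NumberField L
  aL : Algebra F L
  θ : L
  S : Ext K F L a b θ

attribute [instance] Pk.fL Pk.nL Pk.aL

/-- The Selmer group of the twist by `D` is trivial. -/
def Pk.V0 {K F : Type} [Field K] [NumberField K] [Field F] [NumberField F] [Algebra K F]
    {a b : K} (p : Pk K F a b) (D : K) : Prop := ∀ c : SC p.L, p.S.V D c → c = 0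

section

variable {K F N : Type} [Field K] [NumberField K] [Field F] [NumberField F] [Field N]
  [NumberField N] [Algebra K F] [Algebra K N] [Algebra F N] [IsScalarTower K F N] [IsGalois K F]
  [IsGalois K N] {ι : Type} {a b : ι → 𝓞 K}

/-- Twisting by primes of another curve does not change the Selmer group. -/
theorem same_J {j i : ι} (hij : j ≠ i) (p : Pk K F (a j : K) (b j : K)) {D D' : K}
    {Sg : Finset (HeightOneSpectrum (𝓞 K))} (hok : p.S.Ok D Sg)
    (h : RelZ K Sg (Zs K N ∩ NRt a b i) D D') (c : SC p.L) : p.S.V D' c ↔ p.S.V D c := by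
  have hD := h.rel.n0
  have e : D * (D' / D) = D' := mul_div_cancel₀ _ hD
  have h1 := H30OD.V_same p.S hok (δ := D' / D) (div_ne_zero h.rel.n1 hD)
    (fun u hu => h.rel.sq u hu) (fun s => h.rel.pos s) (by
      intro u hu
      have h2 : u ∈ Zs K N ∩ NRt a b i := by
        by_contra h3
        apply hu
        rw [map_div₀, h.out u h3]
        exact div_self ((Valuation.ne_zero_iff _).2 hD)
      exact ⟨Zs_down h2.1, fun t ht => val_NR (h2.2 j hij) t ht⟩) c
  rwa [e] at h1

theorem ok_all [Fintype ι] (p : ∀ j, Pk K F (a j : K) (b j : K)) {D : K} (hD : D ≠ 0)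
    (Sg : Finset (HeightOneSpectrum (𝓞 K))) :
    ∃ Sg' : Finset (HeightOneSpectrum (𝓞 K)), Sg ⊆ Sg' ∧ ∀ j, (p j).S.Ok D Sg' := by
  choose T hT hok using fun j => exists_ok (p j).S hD Sg
  refine ⟨Sg ∪ Finset.univ.biUnion T, Finset.subset_union_left, fun j => ?_⟩
  have hsub : ∀ v, v ∉ Sg ∪ Finset.univ.biUnion T → v ∉ T j := fun v hv hv' =>
    hv (Finset.mem_union_right _ (Finset.mem_biUnion.2 ⟨j, Finset.mem_univ _, hv'⟩))
  exact ⟨hD, fun v hv => (hok j).two v (hsub v hv), fun v hv => (hok j).dis v (hsub v hv),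
    fun v hv => (hok j).val v (hsub v hv)⟩

theorem relZ_mono {Sg Sg' : Finset (HeightOneSpectrum (𝓞 K))} (hle : Sg ⊆ Sg')
    {ZZ ZZ' : Set (HeightOneSpectrum (𝓞 K))} (hZ : ZZ' ⊆ ZZ) {D D' : K}
    (h : RelZ K Sg' ZZ' D D') : RelZ K Sg ZZ D D' :=
  ⟨⟨h.rel.n0, h.rel.n1, fun v hv => h.rel.sq v (hle hv), h.rel.pos⟩,
    fun q hq => h.out q fun hq' => hq (hZ hq')⟩

end

section

variable {K F N : Type} [Field K] [NumberField K] [Field F] [NumberField F] [Field N]
  [NumberField N] [Algebra K F] [Algebra K N] [Algebra F N] [IsScalarTower K F N] [IsGalois K F]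
  [IsGalois K N] {ι : Type} [Fintype ι] {a b : ι → 𝓞 K}

/-- First loop: the Selmer groups over `K`. -/
theorem loop1 (p : ∀ j, Pk K K (a j : K) (b j : K))
    (hR : ∀ i, Rich (p i).S (Zs K N ∩ NRt a b i)) {D0 : K} (hD0 : D0 ≠ 0)
    (Sg : Finset (HeightOneSpectrum (𝓞 K)))
    (hk : ∀ j, ∃ k : ℕ, Nat.card {c : SC (p j).L // (p j).S.V D0 c} = 4 ^ k) (I : Finset ι) :
    ∃ D : K, RelZ K Sg (Zs K N) D0 D ∧ (∀ i ∈ I, (p i).V0 D) ∧
      ∀ j, ∃ k : ℕ, Nat.card {c : SC (p j).L // (p j).S.V D c} = 4 ^ k := by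
  induction I using Finset.induction_on with
  | empty => exact ⟨D0, RelZ.refl hD0, fun i hi => absurd hi (Finset.notMem_empty i), hk⟩
  | insert i I hi ih =>
    obtain ⟨D, h1, h2, h3⟩ := ih
    obtain ⟨Sg', hle, hok⟩ := ok_all p h1.rel.n1 Sg
    obtain ⟨k, hk'⟩ := h3 i
    obtain ⟨D', h4, h5⟩ := even_loopZ (p i).S (hR i) h1.rel.n1 hk' Sg'
    have hV : (p i).V0 D' := by
      intro c hc
      refine fix_zero (p i).S h4.rel.n1 h5 c hc fun g => ?_
      have hg : g = 1 := Subsingleton.elim _ _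
      rw [hg, map_one, one_smul]
    have hsame : ∀ j, j ≠ i → ∀ c, (p j).S.V D' c ↔ (p j).S.V D c := fun j hj c =>
      same_J (N := N) hj (p j) (hok j) h4 c
    refine ⟨D', h1.trans (relZ_mono hle Set.inter_subset_left h4), fun j hj => ?_, fun j => ?_⟩
    · rw [Finset.mem_insert] at hj
      by_cases hji : j = i
      · subst hji
        exact hV
      · exact fun c hc => h2 j (hj.resolve_left hji) c ((hsame j hji c).1 hc)
    · by_cases hji : j = i
      · subst hji
        refine ⟨0, ?_⟩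
        rw [pow_zero, Nat.card_eq_one_iff_unique]
        obtain ⟨V, hVV⟩ := exists_VG (p j).S h4.rel.n1
        exact ⟨⟨fun x y => Subtype.ext ((hV _ x.2).trans (hV _ y.2).symm)⟩,
          ⟨⟨0, (hVV 0).1 V.zero_mem⟩⟩⟩
      · obtain ⟨k', hk''⟩ := h3 j
        exact ⟨k', (Nat.card_congr (Equiv.subtypeEquivRight (hsame j hji))).trans hk''⟩

/-- Second loop: the Selmer groups over `F`. -/
theorem loop2 (p0 : ∀ j, Pk K K (a j : K) (b j : K)) (p : ∀ j, Pk K F (a j : K) (b j : K))
    (hR : ∀ i, Rich (p i).S (Zs K N ∩ NRt a b i)) {D0 : K} (hD0 : D0 ≠ 0)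
    (Sg : Finset (HeightOneSpectrum (𝓞 K))) (h0 : ∀ j, (p0 j).V0 D0) (I : Finset ι) :
    ∃ D : K, RelZ K Sg (Zs K N) D0 D ∧ (∀ i ∈ I, (p i).V0 D) ∧ ∀ j, (p0 j).V0 D := by
  induction I using Finset.induction_on with
  | empty => exact ⟨D0, RelZ.refl hD0, fun i hi => absurd hi (Finset.notMem_empty i), h0⟩
  | insert i I hi ih =>
    obtain ⟨D, h1, h2, h3⟩ := ih
    obtain ⟨Sg1, hle1, hok1⟩ := ok_all p h1.rel.n1 Sg
    obtain ⟨Sg2, hle2, hok2⟩ := ok_all p0 h1.rel.n1 Sg1
    have hok1' : ∀ j, (p j).S.Ok D Sg2 := fun j =>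
      ⟨(hok1 j).ne, fun v hv => (hok2 j).two v hv, fun v hv => (hok2 j).dis v hv,
        fun v hv => (hok2 j).val v hv⟩
    have hTv : Tv K (D ^ 2 * (a i : K)) (D ^ 3 * (b i : K)) :=
      tv_between (p0 i).S h1.rel.n1 (h3 i) K
    obtain ⟨δ, hδ0, hδsq, hδpos, hδout, -, hV⟩ :=
      exists_twistZ (hok1' i) (hR i) (fix_zero (p i).S h1.rel.n1 hTv) ∅
    have e : D * δ / D = δ := mul_div_cancel_left₀ _ h1.rel.n1
    have hrel : RelZ K Sg2 (Zs K N ∩ NRt a b i) D (D * δ) := by
      refine ⟨⟨h1.rel.n1, mul_ne_zero h1.rel.n1 hδ0, fun v hv => ?_, fun s => ?_⟩, fun q hq => ?_⟩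
      · rw [e]
        exact hδsq v hv
      · rw [e]
        exact hδpos s
      · rw [map_mul, hδout q hq, mul_one]
    refine ⟨D * δ, h1.trans (relZ_mono (hle1.trans hle2) Set.inter_subset_left hrel),
      fun j hj => ?_, fun j => ?_⟩
    · rw [Finset.mem_insert] at hj
      by_cases hji : j = i
      · subst hji
        exact hV
      · exact fun c hc => h2 j (hj.resolve_left hji) c
          ((same_J (N := N) hji (p j) (hok1' j) hrel c).1 hc)
    · by_cases hji : j = i
      · subst hji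
        intro c hc
        have hTv' : Tv K ((D * δ) ^ 2 * (a j : K)) ((D * δ) ^ 3 * (b j : K)) :=
          tv_between (p j).S hrel.rel.n1 hV K
        refine fix_zero (p0 j).S hrel.rel.n1 hTv' c hc fun g => ?_
        have hg : g = 1 := Subsingleton.elim _ _
        rw [hg, map_one, one_smul]
      · exact fun c hc => h3 j c ((same_J (N := N) hji (p0 j) (hok2 j) hrel c).1 hc)

end

end H26OD
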