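import Pool.Agent.H26.OD.Kb

/-!
MP_78d38b_OD (helper26): the simultaneous theorem for finitely many curves over the odd extension `F`.
-/

set_option autoImplicit false
set_option linter.unusedSectionVars false
open scoped Classical

open WithZero NumberField IsDedekindDomain H38RT
open H38T1 (SC sc scu rep eo la si OddP)
open H76PP (Cub LC ev scm dn)
open H30ZO (Tv)
open H88OD

namespace H26OD

/-- The settings exist. -/
theorem exists_pk {K F : Type} [Field K] [NumberField K] [Field F] [NumberField F] [Algebra K F]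
    [IsGalois K F] (hodd : Odd (Module.finrank K F)) (a b : 𝓞 K)
    (hir : ∀ t : K, t ^ 3 + (a : K) * t + (b : K) ≠ 0) (hsq : ¬ IsSquare (dd3 (a : K) (b : K))) :
    Nonempty (Pk K F (a : K) (b : K)) := by
  have hne : 4 * (a : K) ^ 3 + 27 * (b : K) ^ 2 ≠ 0 := by
    intro h
    apply hsq
    unfold dd3
    rw [h, neg_zero]
    exact ⟨0, (mul_zero 0).symm⟩
  obtain ⟨L, _, _, _, θ, ⟨S⟩⟩ := exists_ext (F := F) hodd (fun v => v.valuation_le_one a)
    (fun v => v.valuation_le_one b) hne hir hsq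
  exact ⟨⟨L, inferInstance, inferInstance, inferInstance, θ, S⟩⟩

theorem main_J {K F N : Type} [Field K] [NumberField K] [Field F] [NumberField F] [Field N]
    [NumberField N] [Algebra K F] [Algebra K N] [Algebra F N] [IsScalarTower K F N] [IsGalois K F]
    [IsGalois K N] {ι : Type} [Fintype ι] [Nonempty ι] {a b : ι → 𝓞 K}
    (hodd : Odd (Module.finrank K F))
    (hir : ∀ (j : ι) (t : K), t ^ 3 + (a j : K) * t + (b j : K) ≠ 0)
    (hind : ∀ I : Finset ι, I.Nonempty →
      ¬ IsSquare (algebraMap K N (∏ j ∈ I, dd3 (a j : K) (b j : K))))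
    {D0 : K} (hD0 : D0 ≠ 0)
    (hk : ∀ j, ∃ k : ℕ, selCard K (D0 ^ 2 * (a j : K)) (D0 ^ 3 * (b j : K)) = 4 ^ k)
    (Sg X : Finset (HeightOneSpectrum (𝓞 K))) :
    ∃ D : K, RelZ K Sg (Zs K N) D0 D ∧ (∀ j, ∃ p : Pk K F (a j : K) (b j : K), p.V0 D) ∧
      ∃ q : HeightOneSpectrum (𝓞 K), q ∉ X ∧ Odd (ord (q.valuation K) D) := by
  have hsq : ∀ j, ¬ IsSquare (dd3 (a j : K) (b j : K)) := by
    intro j h
    apply hind {j} (Finset.singleton_nonempty j)
    rw [Finset.prod_singleton]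
    exact h.map (algebraMap K N)
  have hoddK : Odd (Module.finrank K K) := by
    rw [Module.finrank_self]
    exact odd_one
  have p0 : ∀ j, Pk K K (a j : K) (b j : K) := fun j =>
    (exists_pk hoddK (a j) (b j) (hir j) (hsq j)).some
  have p : ∀ j, Pk K F (a j : K) (b j : K) := fun j =>
    (exists_pk hodd (a j) (b j) (hir j) (hsq j)).some
  have hR0 : ∀ i, Rich (p0 i).S (Zs K N ∩ NRt a b i) := fun i => rich_J a b i (p0 i).S N hir hind
  have hR : ∀ i, Rich (p i).S (Zs K N ∩ NRt a b i) := fun i => rich_J a b i (p i).S N hir hind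
  obtain ⟨D1, h1, h2, -⟩ := loop1 (N := N) p0 hR0 hD0 Sg (fun j => by
    obtain ⟨k, hk'⟩ := hk j
    exact ⟨k, by rw [card_V (p0 j).S hD0]; exact hk'⟩) Finset.univ
  obtain ⟨D, h3, h4, h5⟩ := loop2 (N := N) p0 p hR h1.rel.n1 Sg (fun j => h2 j (Finset.mem_univ j))
    Finset.univ
  obtain ⟨i⟩ := ‹Nonempty ι›
  obtain ⟨Sg', hle, hok⟩ := ok_all p h3.rel.n1 Sg
  obtain ⟨δ, hδ0, hδsq, hδpos, hδout, ⟨u, hu, huX, hodd'⟩, hV⟩ :=
    exists_twistZ (hok i) (hR i) (fun c hc _ => h4 i (Finset.mem_univ i) c hc) X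
  have e : D * δ / D = δ := mul_div_cancel_left₀ _ h3.rel.n1
  have hrel : RelZ K Sg' (Zs K N ∩ NRt a b i) D (D * δ) := by
    refine ⟨⟨h3.rel.n1, mul_ne_zero h3.rel.n1 hδ0, fun v hv => ?_, fun s => ?_⟩, fun q hq => ?_⟩
    · rw [e]
      exact hδsq v hv
    · rw [e]
      exact hδpos s
    · rw [map_mul, hδout q hq, mul_one]
  refine ⟨D * δ, (h1.trans h3).trans (relZ_mono hle Set.inter_subset_left hrel), fun j => ⟨p j, ?_⟩,
    u, huX, ?_⟩
  · by_cases hji : j = i
    · subst hji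
      exact hV
    · exact fun c hc => h4 j (Finset.mem_univ j) c ((same_J (N := N) hji (p j) (hok j) hrel c).1 hc)
  · have h6 : ord (u.valuation K) D = 0 := by
      unfold ord
      rw [(hok i).val u hu, log_one, neg_zero]
    rw [ord_mul h3.rel.n1 hδ0, h6, zero_add]
    exact hodd'

end H26OD
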