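import Pool.Agent.H26.OD.Qd
import Pool.Agent.H88.OD.Ge

/-!
ROW Qb (MP_78d38b_OD, helper26, about 150 lines): finiteness and reciprocity of the system of functionals.  Definitions in Pool/Agent/H26/OD/Qd.lean. Use the STATEMENTS of Gt (`Sp.tr_zero`), Ge (`rec_R`), St (`coeff_mul`, `coeff_st`).

PROOF. tr_eq_zero: `P.1.q ∉ d.qs T` by `mem_qs`; `tr_zero` (.2): for `w` with `dn K (dn F w) = P.q`, `hc.ev w` applies as `P.q = dn K P.v ∉ Sg` (`P.out`).
Y_iff: (←) `u_smul` and tr_eq_zero. (→) `x ∈ Y (qs T')` for some `T'` (`x.2`); for `w` with `dn K (dn F w) ∉ Sg`, `∉ qs T`: if it is not in `qs T'` use `ev`; otherwise it is `P.1.q`, `P ∈ T'`, `P ∉ T` (as `P.1.q ∉ qs T`), so `d.u P (g • x) = 0` for all `g`, so all coefficients of `P.1.tr x` vanish (`u_smul` with `g⁻¹`, `rg_ext`) and `tr_zero` (.1) gives `eo w x = 0`.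
fin: `x ∈ Y (qs T)`: the set is contained in `T` (Y_iff).
recip: take `T` with `x, y ∈ Y (qs T)` (union, Y_mono). For `P ∉ T` all terms vanish (`d.u P (g • x) = 0 = d.u P (g • y)`), so the finsum over `P` is the sum over `T` (`finsum_eq_sum_of_support_subset`), and the finsum over the finite group is a `Finset.sum` (`finsum_eq_sum_of_fintype`). The inner sum over `g` is, by u_smul, r_smul and `g ↦ g⁻¹`, `∑ g, (tr x).coeff g * (fl y).coeff g + (fl x).coeff g * (tr y).coeff g`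
`= (tr x * st (fl y) + fl x * st (tr y)).coeff 1` (`coeff_mul`, `coeff_st`: `(a * st b).coeff 1 = ∑ h, a.coeff h * (st b).coeff (h⁻¹ * 1) = ∑ h, a.coeff h * b.coeff h`). Then `rec_R` with `ι := ↥T` (`T : Finset d.Q`), `P i := i.1.1`: injective by `d.inj`, `Finset.univ.image (fun i : ↥T => i.1.1.q) = d.qs T`; `Finset.sum_coe_sort`. Take the coefficient at `1`.
-/

set_option autoImplicit false
set_option linter.unusedSectionVars false
open scoped Classical

open WithZero NumberField IsDedekindDomain H38RT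
open H38T1 (SC sc scu rep eo la si OddP)
open H76PP (Cub LC ev scm dn)
open H88OD

namespace H26OD

variable {K F L : Type} [Field K] [NumberField K] [Field F] [NumberField F] [Field L]
  [NumberField L] [Algebra K F] [Algebra F L] {a b : K} {θ : L} {S : Ext K F L a b θ} {D : K}
  {Sg : Finset (HeightOneSpectrum (𝓞 K))}

namespace Dat

variable (d : Dat S D Sg)

theorem tr_eq_zero {T : Finset d.Q} {c : SC L} (hc : S.Y D Sg (d.qs T) c) {P : d.Q}
    (hP : P ∉ T) : P.1.tr c = 0 := by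
  refine (P.1.tr_zero d.ok.two hc.hh).2 fun w hw => hc.ev w ?_ ?_
  · rw [hw]
    exact P.1.out
  · rw [hw]
    exact fun h => hP (d.mem_qs.1 h)

theorem Y_iff (T : Finset d.Q) (x : d.X) :
    (∀ P, P ∉ T → ∀ g : F ≃ₐ[K] F, d.u P (g • x) = 0) ↔ S.Y D Sg (d.qs T) (x : SC L) := by
  constructor
  · intro h
    obtain ⟨T', hT'⟩ := x.2
    refine ⟨hT'.hh, hT'.fin, hT'.inf, fun w h1 h2 => ?_⟩
    by_cases h3 : dn K (dn F w) ∈ d.qs T'
    · obtain ⟨P, hP, hPq⟩ := Finset.mem_image.1 h3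
      have hPT : P ∉ T := fun h4 => h2 (by rw [← hPq]; exact d.mem_qs.2 h4)
      have h5 : P.1.tr (x : SC L) = 0 := by
        refine rg_ext fun g => ?_
        have h6 := h P hPT g⁻¹
        rw [d.u_smul, inv_inv] at h6
        rw [h6]
        rfl
      exact (P.1.tr_zero d.ok.two hT'.hh).1 h5 w hPq.symm
    · exact hT'.ev w h1 h3
  · intro h P hP g
    rw [d.u_smul, d.tr_eq_zero h hP]
    rfl

theorem fin (x : d.X) : {P | ∃ g : F ≃ₐ[K] F, d.u P (g • x) ≠ 0}.Finite := by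
  obtain ⟨T, hT⟩ := x.2
  refine T.finite_toSet.subset fun P hP => ?_
  obtain ⟨g, hg⟩ := hP
  by_contra h
  exact hg ((d.Y_iff T x).2 hT P h g)

theorem recip (x y : d.X) : ∑ᶠ P, ∑ᶠ g : F ≃ₐ[K] F,
    (d.u P (g • x) * d.r P (g • y) + d.r P (g • x) * d.u P (g • y)) = 0 := by
  obtain ⟨T, hx, hy⟩ : ∃ T : Finset d.Q, S.Y D Sg (d.qs T) (x : SC L) ∧
      S.Y D Sg (d.qs T) (y : SC L) := by
    obtain ⟨T1, hT1⟩ := x.2
    obtain ⟨T2, hT2⟩ := y.2
    exact ⟨T1 ∪ T2, Y_mono (d.qs_mono Finset.subset_union_left) hT1,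
      Y_mono (d.qs_mono Finset.subset_union_right) hT2⟩
  let _ : Fintype (F ≃ₐ[K] F) := Fintype.ofFinite _
  have hin : ∀ P : d.Q, ∑ᶠ g : F ≃ₐ[K] F,
      (d.u P (g • x) * d.r P (g • y) + d.r P (g • x) * d.u P (g • y)) =
      (P.1.tr (x : SC L) * st (P.1.fl (y : SC L)) +
        P.1.fl (x : SC L) * st (P.1.tr (y : SC L))).coeff 1 := by
    intro P
    rw [finsum_eq_sum_of_fintype, MonoidAlgebra.coeff_add, Finsupp.add_apply, coeff_mul,
      coeff_mul, ← Finset.sum_add_distrib]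
    refine Fintype.sum_equiv (Equiv.inv _) _ _ fun g => ?_
    rw [d.u_smul, d.u_smul, d.r_smul, d.r_smul, coeff_st, coeff_st, Equiv.inv_apply, mul_one,
      inv_inv]
  simp only [hin]
  rw [finsum_eq_sum_of_support_subset (s := T)]
  · have hinj : Function.Injective fun i : T => (i.1.1 : Sp S Sg).q := fun i j hij =>
      Subtype.ext (Subtype.ext (d.inj _ i.1.2 _ j.1.2 hij))
    have him : (Finset.univ.image fun i : T => (i.1.1 : Sp S Sg).q) = d.qs T := by
      ext q
      simp only [Finset.mem_image, Finset.mem_univ, true_and, qs]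
      constructor
      · rintro ⟨i, hi⟩
        exact ⟨i.1, i.2, hi⟩
      · rintro ⟨P, hP, hPq⟩
        exact ⟨⟨P, hP⟩, hPq⟩
    have h := rec_R d.ok (fun i : T => (i.1.1 : Sp S Sg)) hinj (x := (x : SC L))
      (y := (y : SC L)) (by rw [him]; exact hx) (by rw [him]; exact hy)
    have h2 := congrArg (fun z : RG (F ≃ₐ[K] F) => z.coeff 1) h
    simp only [MonoidAlgebra.coeff_sum, Finsupp.finsetSum_apply, MonoidAlgebra.coeff_zero,
      Finsupp.zero_apply] at h2
    rw [← h2]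
    exact (Finset.sum_coe_sort T fun P : d.Q => (P.1.tr (x : SC L) * st (P.1.fl (y : SC L)) +
        P.1.fl (x : SC L) * st (P.1.tr (y : SC L))).coeff 1).symm
  · intro P hP
    by_contra h
    refine hP ?_
    change (P.1.tr (x : SC L) * st (P.1.fl (y : SC L)) +
        P.1.fl (x : SC L) * st (P.1.tr (y : SC L))).coeff 1 = 0
    rw [d.tr_eq_zero hx h, d.tr_eq_zero hy h, map_zero, mul_zero, zero_mul, add_zero]
    rfl

/-- The system. -/
noncomputable def sys : Sys (F ≃ₐ[K] F) d.X d.Q := ⟨d.u, d.r, d.fin, d.recip⟩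

theorem mem_sys {T : Finset d.Q} {x : d.X} :
    x ∈ d.sys.Y T ↔ S.Y D Sg (d.qs T) (x : SC L) := d.Y_iff T x

end Dat

end H26OD
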