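import Pool.Agent.H26.OD.Z2

/-!
MP_78d38b_OD (helper26): the family of special primes.
-/

set_option autoImplicit false
set_option linter.unusedSectionVars false
open scoped Classical

open WithZero NumberField IsDedekindDomain H38RT
open H38T1 (SC sc scu rep eo la si OddP)
open H76PP (Cub LC ev scm dn)
open H88OD

namespace H26OD

variable {K F L : Type} [Field K] [NumberField K] [Field F] [NumberField F] [Field L]
  [NumberField L] [Algebra K F] [Algebra F L] {a b : K} {θ : L}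

/-- The family of special primes. -/
theorem exists_QQ (S : Ext K F L a b θ) {D : K} (hD : D ≠ 0)
    (Sg : Finset (HeightOneSpectrum (𝓞 K))) :
    ∃ Q : Set (Sp S Sg), (∀ P ∈ Q, ∀ P' ∈ Q, P.q = P'.q → P = P') ∧
      ∀ T A : Finset (Sp S Sg), (∀ P ∈ T, P ∈ Q) → ∀ φ : SC L →+ ZMod 2,
        ∃ P ∈ Q, P ∉ T ∧ P ∉ A ∧ ∀ c, S.Y D Sg (T.image Sp.q) c → la P.t1 c = φ c := by
  obtain ⟨Q, h1, -, h2⟩ := exists_QQZ S hD Sg (rich_univ S)
  exact ⟨Q, h1, h2⟩

end H26OD
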