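import Pool.Agent.H26.OD.Qc
import Pool.Agent.H26.OD.Z1
import Pool.Agent.H26.OD.Mm
import Pool.Agent.H26.OD.Rr
import Pool.Agent.H26.OD.A11
import Pool.Agent.H88.OD.Rc

/-!
ROW Qf (MP_78d38b_OD, helper26, about 150 lines): the twist with trivial Selmer group over `F`.  Use the STATEMENTS of Qc (`Dat.sys_ok`), Qb (`Dat.Y_iff`, `mem_sys`), Z1 (`exists_QQ`), Mm (`multi_mp`), Rr (`exists_prod`), A11 (`main`), `exists_rc` of Pool/Agent/H88/OD/Rc.lean.

PROOF. `Q` from exists_QQ gives `d : Dat S D Sg`; `d.sys.Ok` by sys_ok with `hcard d`, `hsd d`. Colour `κ P := rc P.1.q` with `rc` of `exists_rc K Sg`. `A' : Finset d.Q` := the `P` with `P.1.q ∈ A` (finite because `P ↦ P.1.q` is injective on `d.Q`: `Set.Finite.preimage`, `toFinset`). Apply `main` (A11) with `κ`, `A'`: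
h0: `x ∈ d.sys.Y ∅` means `S.Y D Sg ∅ x` (`d.qs ∅ = ∅`), so `S.V D x` (V_iff_Y, hok), and fixed by `G`, so `x = 0` by `h0`. Get the list `l`.
`exists_prod` (M := K, S := ↑Sg, q := fun P : d.Q => P.1.q) with the rays from exists_rc (`P.1.q ∉ Sg` by `P.1.out`; different by injectivity): `δ`. `T := (prs l).image Subtype.val : Finset (Sp S Sg)`; `T.image Sp.q = d.qs (prs l)`. `prs l` = the set of the elements of the pairs (definition in Pool/Agent/H26/OD/A10.lean or Df).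
If `S.V (D * δ) c`: multi_mp gives `S.Y D Sg (d.qs (prs l)) c` and `P.fl c = 0` for `P ∈ prs l`; so `x := ⟨c, _⟩ : d.X`, `d.u P (g • x) = 0` for `P ∉ prs l` (Y_iff) and `d.r P (g • x) = (P.1.fl c).coeff g⁻¹ = 0` for `P ∈ prs l` (r_smul), so `x = 0`, `c = 0`.
`l ≠ []`: take `e` in `l` (the head), `u := e.1.1.q`: not in `Sg`, not in `A` (`e.1 ∈ prs l`, `∉ A'`), odd order.
-/

set_option autoImplicit false
set_option linter.unusedSectionVars false
open scoped Classical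

open WithZero NumberField IsDedekindDomain H38RT
open H38T1 (SC sc scu rep eo la si OddP)
open H76PP (Cub LC ev scm dn)
open H88OD

namespace H26OD

variable {K F L : Type} [Field K] [NumberField K] [Field F] [NumberField F] [Field L]
  [NumberField L] [Algebra K F] [Algebra F L] {a b : K} {θ : L} {S : Ext K F L a b θ} {D : K}
  {Sg : Finset (HeightOneSpectrum (𝓞 K))}

theorem Qf_mem {Q : Type} {l : List (Q × Q)} {q : Q} :
    q ∈ prs l ↔ (∃ e ∈ l, e.1 = q) ∨ ∃ e ∈ l, e.2 = q := by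
  unfold prs
  rw [List.mem_toFinset, List.mem_append, List.mem_map, List.mem_map]

theorem exists_twist (hok : S.Ok D Sg)
    (h0 : ∀ c, S.V D c → (∀ g : F ≃ₐ[K] F, S.ρ g • c = c) → c = 0)
    (hcard : ∀ (d : Dat S D Sg) (T : Finset d.Q),
      2 ^ (Nat.card (F ≃ₐ[K] F) * T.card) ≤ Nat.card {c : SC L // S.Y D Sg (d.qs T) c})
    (hsd : ∀ (d : Dat S D Sg) (T : Finset d.Q) (W : AddSubgroup (SC L)),
      (∀ c, c ∈ W ↔ S.Y D Sg (d.qs T) c) →
      Nat.card W = 2 ^ (Nat.card (F ≃ₐ[K] F) * T.card) →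
      ∀ (M : Type) [AddCommGroup M] [DistribMulAction (F ≃ₐ[K] F) M] [Finite M],
        (∀ m : M, m + m = 0) →
        @H24TD.hq (F ≃ₐ[K] F) M (SC L) _ _ (actSC S) _ _ W ⊥ =
          @H24TD.hq (F ≃ₐ[K] F) (Du M) (SC L) _ _ (actSC S) _ _ W ⊥)
    (A : Finset (HeightOneSpectrum (𝓞 K))) :
    ∃ δ : K, δ ≠ 0 ∧ (∀ u ∈ Sg, IsSquare (algebraMap K (u.adicCompletion K) δ)) ∧
      (∀ s : K →+* ℝ, 0 < s δ) ∧ (∃ u, u ∉ Sg ∧ u ∉ A ∧ Odd (ord (u.valuation K) δ)) ∧
      ∀ c, S.V (D * δ) c → c = 0 := by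
  obtain ⟨Q, hQ1, hQ2⟩ := exists_QQ S hok.ne Sg
  let d : Dat S D Sg := ⟨hok, Q, hQ1, hQ2⟩
  have hsys : d.sys.Ok := d.sys_ok (hcard d) (hsd d)
  obtain ⟨C, hC, rc, hrc⟩ := exists_rc K Sg
  have hqinj : Function.Injective (fun P : d.Q => P.1.q) :=
    fun P P' h => Subtype.ext (d.inj _ P.2 _ P'.2 h)
  have hA : {P : d.Q | P.1.q ∈ A}.Finite := A.finite_toSet.preimage hqinj.injOn
  have hm0 : ∀ x ∈ d.sys.Y ∅, (∀ g : F ≃ₐ[K] F, g • x = x) → x = 0 := by
    intro x hx hg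
    have h1 : S.Y D Sg (d.qs ∅) (x : SC L) := d.mem_sys.1 hx
    have h2 : d.qs ∅ = ∅ := Finset.image_empty _
    rw [h2] at h1
    exact Subtype.ext (h0 (x : SC L) ((V_iff_Y S hok).2 h1)
      fun g => congrArg (Subtype.val : d.X → SC L) (hg g))
  obtain ⟨l, hl0, hlκ, hln, hlA, hlX⟩ :=
    main hsys (fun P : d.Q => rc P.1.q) hm0 hA.toFinset
  have hmem1 : ∀ e ∈ l, e.1 ∈ prs l := fun e he => Qf_mem.2 (Or.inl ⟨e, he, rfl⟩)
  have hmem2 : ∀ e ∈ l, e.2 ∈ prs l := fun e he => Qf_mem.2 (Or.inr ⟨e, he, rfl⟩)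
  obtain ⟨δ, hδ0, hδsq, hδpos, hδout, hδodd⟩ :=
    exists_prod (M := K) (Sg : Set (HeightOneSpectrum (𝓞 K))) (fun P : d.Q => P.1.q) hqinj l hln
      (fun e he hne => hrc _ _ e.1.1.out e.2.1.out (fun h => hne (hqinj h)) (hlκ e he))
  have hT : ((prs l).image (Subtype.val : d.Q → Sp S Sg)).image Sp.q = d.qs (prs l) := by
    rw [Finset.image_image]
    rfl
  refine ⟨δ, hδ0, fun u hu => hδsq u (Finset.mem_coe.2 hu), hδpos, ?_, fun c hc => ?_⟩
  · obtain ⟨e, he⟩ := List.exists_mem_of_ne_nil l hl0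
    exact ⟨e.1.1.q, e.1.1.out, fun h => hlA e.1 (hmem1 e he) (hA.mem_toFinset.2 h),
      (hδodd e he).1⟩
  · obtain ⟨hY, hfl⟩ := multi_mp hok ((prs l).image (Subtype.val : d.Q → Sp S Sg)) hδ0
      (fun u hu => hδsq u (Finset.mem_coe.2 hu)) hδpos (by
        intro u hu
        rw [hT] at hu
        refine hδout u fun e he => ⟨fun h => hu ?_, fun h => hu ?_⟩
        · rw [h]
          exact d.mem_qs.2 (hmem1 e he)
        · rw [h]
          exact d.mem_qs.2 (hmem2 e he)) (by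
        intro P hP
        rw [Finset.mem_image] at hP
        obtain ⟨P', hP', rfl⟩ := hP
        rcases Qf_mem.1 hP' with ⟨e, he, rfl⟩ | ⟨e, he, rfl⟩
        · exact (hδodd e he).1
        · exact (hδodd e he).2) hc
    rw [hT] at hY
    have hx := hlX ⟨c, prs l, hY⟩ (d.mem_sys.2 hY) (by
      intro P hP g
      change d.r P (g • _) = 0
      rw [d.r_smul, hfl P.1 (Finset.mem_image_of_mem _ hP)]
      rfl)
    exact congrArg (Subtype.val : d.X → SC L) hx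

end H26OD
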