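import Pool.Agent.H26.OD.Df

/-!
MP_78d38b_OD (helper26): the system of functionals over the group algebra (definitions).
-/

set_option autoImplicit false
open scoped Classical

namespace H26OD

variable (G X Q : Type) [Group G] [AddCommGroup X] [Module (RG G) X]

/-- Two families of linear functionals with a reciprocity law. -/
structure SysR where
  u : Q → X →ₗ[RG G] RG G
  r : Q → X →ₗ[RG G] RG G
  fin : ∀ x, {q | u q x ≠ 0}.Finite
  recip : ∀ x y, ∑ᶠ q, (u q x * st (r q y) + r q x * st (u q y)) = 0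

variable {G X Q}

namespace SysR

/-- The elements which are unramified outside `T`. -/
def Y (S : SysR G X Q) (T : Finset Q) : Submodule (RG G) X where
  carrier := {x | ∀ q, q ∉ T → S.u q x = 0}
  zero_mem' := fun q _ => map_zero _
  add_mem' := fun {x y} hx hy q hq => by rw [map_add, hx q hq, hy q hq, add_zero]
  smul_mem' := fun a x hx q hq => by rw [map_smul, hx q hq, smul_zero]

theorem mem_Y {S : SysR G X Q} {T : Finset Q} {x : X} :
    x ∈ S.Y T ↔ ∀ q, q ∉ T → S.u q x = 0 := Iff.rfl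

/-- The Selmer group of the twist by `T`. -/
def Sel (S : SysR G X Q) (T : Finset Q) : Submodule (RG G) X where
  carrier := {x | (∀ q, q ∉ T → S.u q x = 0) ∧ ∀ q ∈ T, S.r q x = 0}
  zero_mem' := ⟨fun q _ => map_zero _, fun q _ => map_zero _⟩
  add_mem' := fun {x y} hx hy => ⟨fun q hq => by rw [map_add, hx.1 q hq, hy.1 q hq, add_zero],
    fun q hq => by rw [map_add, hx.2 q hq, hy.2 q hq, add_zero]⟩
  smul_mem' := fun a x hx => ⟨fun q hq => by rw [map_smul, hx.1 q hq, smul_zero],
    fun q hq => by rw [map_smul, hx.2 q hq, smul_zero]⟩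

theorem mem_Sel {S : SysR G X Q} {T : Finset Q} {x : X} :
    x ∈ S.Sel T ↔ (∀ q, q ∉ T → S.u q x = 0) ∧ ∀ q ∈ T, S.r q x = 0 := Iff.rfl

/-- The properties of the system. -/
structure Ok [Finite G] (S : SysR G X Q) : Prop where
  odd : Odd (Nat.card G)
  finY : ∀ T : Finset Q, Finite (S.Y T)
  card : ∀ T : Finset Q, Nat.card (RG G) ^ T.card ≤ Nat.card (S.Y T)
  cheb : ∀ (T A : Finset Q) (φ : X →ₗ[RG G] RG G), ∃ q, q ∉ T ∧ q ∉ A ∧ ∀ y ∈ S.Y T, S.r q y = φ y
  sd : ∀ T : Finset Q, Nat.card (S.Y T) = Nat.card (RG G) ^ T.card →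
    ∀ (M : Type) [AddCommGroup M] [Module (RG G) M] [Finite M],
      Nat.card (M →ₗ[RG G] S.Y T) = Nat.card (DuR M →ₗ[RG G] S.Y T)

/-- The localization at `T` is injective. -/
def Good (S : SysR G X Q) (T : Finset Q) : Prop :=
  ∀ x ∈ S.Y T, (∀ q ∈ T, S.u q x = 0 ∧ S.r q x = 0) → x = 0

/-- The coordinate which vanishes on the Selmer group of the twist by `S'`. -/
noncomputable def cc (S : SysR G X Q) (S' : Finset Q) (q : Q) : X →ₗ[RG G] RG G :=
  if q ∈ S' then S.r q else S.u q

/-- The other coordinate. -/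
noncomputable def dd (S : SysR G X Q) (S' : Finset Q) (q : Q) : X →ₗ[RG G] RG G :=
  if q ∈ S' then S.u q else S.r q

/-- The functional given by `γ`. -/
noncomputable def bh (S : SysR G X Q) (S' T : Finset Q) (γ : Q → RG G) : X →ₗ[RG G] RG G where
  toFun x := ∑ q ∈ T, S.dd S' q x * st (γ q)
  map_add' x y := by
    rw [← Finset.sum_add_distrib]
    refine Finset.sum_congr rfl fun q _ => ?_
    rw [map_add, add_mul]
  map_smul' a x := by
    rw [RingHom.id_apply, Finset.smul_sum]
    refine Finset.sum_congr rfl fun q _ => ?_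
    rw [map_smul, smul_mul_assoc]

theorem bh_apply (S : SysR G X Q) (S' T : Finset Q) (γ : Q → RG G) (x : X) :
    S.bh S' T γ x = ∑ q ∈ T, S.dd S' q x * st (γ q) := rfl

/-- A prime `q` outside `T` with the functional `bh` and the class `y` with the coordinates `(γ, 0)`. -/
structure PR (S : SysR G X Q) (S' T : Finset Q) (γ : Q → RG G) (q : Q) (y : X) : Prop where
  notin : q ∉ T
  mem : ∀ q', q' ∉ T → q' ≠ q → S.u q' y = 0
  one : S.u q y = 1
  cc : ∀ q' ∈ T, S.cc S' q' y = γ q'
  dd : ∀ q' ∈ T, S.dd S' q' y = 0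
  bh : ∀ y' ∈ S.Y T, S.r q y' = S.bh S' T γ y'

end SysR

end H26OD
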